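import Pool.Agent.Helper90.Evo.Eps

/-!
# Second order elements with a symmetry of order at least three: structure (MP_ff793d_mp)
-/

set_option autoImplicit false
set_option linter.unusedSimpArgs false

open MvPolynomial

namespace Pool.Agent.Helper90.Evo

variable {k : ℕ} {p q : A}

/-- the separants depend on `u_0` only -/
theorem sep_ord0 (hp : Ord 2 p) (hS : d 2 p ≠ 0) (hq : Ord (k + 3) q) (hq0 : d (k + 3) q ≠ 0)
    (h : ev p q = ev q p) : Ord 0 (d 2 p) ∧ Ord 0 (d (k + 3) q) ∧ Ord 1 (d (k + 2) q) := by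
  obtain ⟨hSo, hP, hb⟩ := sep2' hp hS hq hq0 h
  have hs1 := sep3 hp hS hq hq0 h
  have hS0 : Ord 0 (d 2 p) := by
    intro j hj
    rcases Nat.lt_or_ge 1 j with h3 | h3
    · exact hSo j h3
    · obtain rfl : j = 1 := by omega
      exact hs1
  have hP0 : Ord 0 (d (k + 3) q) := by
    intro j hj
    rcases Nat.lt_or_ge 1 j with h3 | h3
    · exact hP j h3
    · obtain rfl : j = 1 := by omega
      have rel := rel_one hp hS hq h 1
      rw [hs1, mul_zero] at rel
      exact (mul_eq_zero.1 rel.symm).resolve_left (mul_ne_zero two_ne_zero hS)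
  refine ⟨hS0, hP0, ?_⟩
  intro j hj
  rcases Nat.lt_or_ge 2 j with h3 | h3
  · exact hb j h3
  · obtain rfl : j = 2 := by omega
    have E := eq_two hp hq h
    rw [ev_ord0 p hP0] at E
    have hk2 : ∀ j, d j ((k : A) + 2) = 0 := fun j => by
      rw [map_add, d_natCast, d_ofNat, add_zero]
    have p3 := hp 3 (by omega)
    have hro := hp.d 1
    have r3 := hro 3 (by omega)
    have r2 : d 2 (d 1 p) = 0 := by rw [d_comm]; exact hs1
    have S1 := hs1
    have S2 := hS0 2 (by omega)
    have S3 := hS0 3 (by omega)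
    have P1 := hP0 1 (by omega)
    have P2 := hP0 2 (by omega)
    have P3 := hP0 3 (by omega)
    have P03 := hP0.d 0 3 (by omega)
    have b3 := hb 3 (by omega)
    have E3 := congrArg (d 3) E
    simp only [map_add, map_sub, d_mul, d_two, d_three, d_four, d_natCast, d_nk, hk2, d3_D, d2_D,
      p3, S1, S2, S3, r2, r3, P1, P2, P3, P03, b3, map_zero, mul_zero, zero_add, add_zero] at E3
    have h5 : (4 * d 2 p) * d 2 (d (k + 2) q) = 0 := by linear_combination -E3
    exact (mul_eq_zero.1 h5).resolve_left (mul_ne_zero (by norm_num) hS)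

/-- the relation for `∂_1 b` -/
theorem rel_b1 (hp : Ord 2 p) (hS : d 2 p ≠ 0) (hq : Ord (k + 3) q) (hq0 : d (k + 3) q ≠ 0)
    (h : ev p q = ev q p) :
    4 * d 2 p * d 1 (d (k + 2) q) = d (k + 3) q * (2 * ((k : A) + 3) * d 1 (d 1 p) +
      ((k : A) + 3) * ((k : A) + 2) * d 0 (d 2 p)) := by
  obtain ⟨hS0, hP0, hb⟩ := sep_ord0 hp hS hq hq0 h
  have E := eq_two hp hq h
  have rel := rel_one hp hS hq h 0
  rw [ev_ord0 p hP0] at E
  have hk2 : ∀ j, d j ((k : A) + 2) = 0 := fun j => by
    rw [map_add, d_natCast, d_ofNat, add_zero]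
  have S1 := hS0 1 (by omega)
  have S2 := hS0 2 (by omega)
  have P1 := hP0 1 (by omega)
  have P2 := hP0 2 (by omega)
  have P02 := hP0.d 0 2 (by omega)
  have r2 : d 2 (d 1 p) = 0 := by rw [d_comm]; exact S1
  have b2 := hb 2 (by omega)
  have E2 := congrArg (d 2) E
  simp only [map_add, map_sub, d_mul, d_two, d_three, d_four, d_natCast, d_nk, hk2, d2_D, d1_D,
    S1, S2, r2, P1, P2, P02, b2, map_zero, mul_zero, zero_add, add_zero] at E2
  linear_combination -E2 + 0 * rel

/-- the basic relation between `S` and `∂_1 ∂_1 p` -/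
theorem rel_K1 (hp : Ord 2 p) (hS : d 2 p ≠ 0) (hq : Ord (k + 3) q) (hq0 : d (k + 3) q ≠ 0)
    (h : ev p q = ev q p) :
    d 1 (d 1 p) * d 0 (d 2 p) = 2 * d 2 p * d 0 (d 0 (d 2 p)) - (d 0 (d 2 p)) ^ 2 := by
  obtain ⟨hS0, hP0, hb⟩ := sep_ord0 hp hS hq hq0 h
  have E := eq_two hp hq h
  have E1 := eq_one hp hq h
  have rel := rel_one hp hS hq h 0
  have F := rel_b1 hp hS hq hq0 h
  rw [ev_ord0 p hP0] at E
  have hk2 : ∀ j, d j ((k : A) + 2) = 0 := fun j => by
    rw [map_add, d_natCast, d_ofNat, add_zero]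
  have hDk2 : D ((k : A) + 2) = 0 := by rw [map_add, D_natCast, D_ofNat, add_zero]
  generalize hPdef : d (k + 3) q = P at *
  generalize hbdef : d (k + 2) q = b at *
  generalize hSdef : d 2 p = S at *
  generalize hrdef : d 1 p = r at *
  have S1 := hS0 1 (by omega)
  have S01 := hS0.d 0 1 (by omega)
  have S001 := (hS0.d 0).d 0 1 (by omega)
  have P1 := hP0 1 (by omega)
  have P01 := hP0.d 0 1 (by omega)
  have P001 := (hP0.d 0).d 0 1 (by omega)
  have c10 : ∀ f : A, d 1 (d 0 f) = d 0 (d 1 f) := fun f => d_comm 1 0 f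
  have Q1 := congrArg (d 1) E
  simp only [map_add, map_sub, d_mul, d_two, d_three, d_four, d_natCast, d_nk, hk2, d1_D, d_zero_D,
    S1, S01, P1, P01, map_zero, mul_zero, zero_add, add_zero, hrdef] at Q1
  have Q2 := congrArg (d 1) Q1
  simp only [map_add, map_sub, d_mul, d_two, d_three, d_four, d_natCast, d_nk, hk2, d1_D, d_zero_D,
    S1, S01, S001, P1, P01, P001, map_zero, mul_zero, zero_add, add_zero, hrdef, c10] at Q2
  have F1 := congrArg (d 1) F
  simp only [map_add, map_sub, d_mul, d_two, d_three, d_four, d_natCast, d_nk, hk2,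
    S1, S01, P1, map_zero, mul_zero, zero_add, add_zero, c10] at F1
  have F0 := congrArg (d 0) F
  simp only [map_add, map_sub, d_mul, d_two, d_three, d_four, d_natCast, d_nk, hk2,
    map_zero, mul_zero, zero_add, add_zero] at F0
  have FD := congrArg D F1
  simp only [map_add, map_sub, D_mul, D_two, D_three, D_four, D_natCast, D_nk, hDk2,
    map_zero, mul_zero, zero_add, add_zero] at FD
  have R0 := congrArg (d 0) rel
  simp only [map_add, map_sub, d_mul, d_two, d_three, d_four, d_natCast, d_nk, hk2,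
    map_zero, mul_zero, zero_add, add_zero] at R0
  have hn := nk k
  have fin : (2 * (((k : A) + 3) * P)) *
      (d 1 r * d 0 S + (d 0 S) ^ 2 - 2 * S * d 0 (d 0 S)) = 0 := by
    linear_combination 2 * S * (Q2 + FD + 2 * F0) - (((k : A) + 3) + 1) * D S * F1 -
      2 * (((k : A) + 3) + 1) * d 1 (d 1 r) * E1 - 2 * (((k : A) + 3) + 1) * d 0 S * F -
      2 * (2 * ((k : A) + 3) + 1) * d 1 r * rel - 2 * ((k : A) + 3) * ((k : A) + 2) * d 0 S * rel
      - 4 * S * R0 - 2 * ((k : A) + 1) * d 0 S * rel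
  have h0 := (mul_eq_zero.1 fin).resolve_left (mul_ne_zero two_ne_zero (mul_ne_zero hn hq0))
  linear_combination h0

end Pool.Agent.Helper90.Evo
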