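import Pool.Agent.Helper90.Evo.Cls

/-!
# Second order elements with a symmetry of order at least three: the relation for `β`
(MP_ff793d_mp)
-/

set_option autoImplicit false
set_option linter.unusedSimpArgs false

open MvPolynomial

namespace Pool.Agent.Helper90.Evo

variable {k : ℕ} {p q : A}

/-- structure of `p` when the separant depends on `u_0` and `∂_1^3 p = 0` -/
theorem structure_p (hp : Ord 2 p) (hS0 : Ord 0 (d 2 p)) (h3 : d 1 (d 1 (d 1 p)) = 0) :
    p = d 2 p * X 2 + C (1 / 2 : ℝ) * d 1 (d 1 p) * X 1 ^ 2 + iota (eps (d 1 p)) * X 1 +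
      iota (eps p) ∧ Ord 0 (d 1 (d 1 p)) ∧ d 1 p = d 1 (d 1 p) * X 1 + iota (eps (d 1 p)) := by
  have hr1 : Ord 0 (d 1 (d 1 p)) := by
    intro j hj
    rcases Nat.lt_or_ge 2 j with h | h
    · exact ((hp.d 1).d 1) j h
    · rcases Nat.lt_or_ge 1 j with h' | h'
      · obtain rfl : j = 2 := by omega
        rw [d_comm, d_comm 2 1 p, hS0 1 (by omega), map_zero]
      · obtain rfl : j = 1 := by omega
        exact h3
  have hr : Ord 0 (d 1 p - d 1 (d 1 p) * X 1) := by
    intro j hj
    rw [map_sub, d_mul]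
    rcases Nat.lt_or_ge 1 j with h | h
    · rw [pderiv_X_of_ne (by omega), hr1 j hj]
      rcases Nat.lt_or_ge 2 j with h' | h'
      · rw [(hp.d 1) j h']; ring
      · obtain rfl : j = 2 := by omega
        rw [d_comm, hS0 1 (by omega)]; ring
    · obtain rfl : j = 1 := by omega
      rw [pderiv_X_self, h3]; ring
  have hre : d 1 p = d 1 (d 1 p) * X 1 + iota (eps (d 1 p)) := by
    have h1 := iota_eps hr
    rw [map_sub, map_mul, eps_X_succ 0, mul_zero, sub_zero] at h1
    rw [h1]; ring
  have hC : (C (1 / 2 : ℝ) : A) * 2 = 1 := by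
    rw [show (2 : A) = C 2 by rw [map_ofNat], ← C_mul]
    norm_num
  have hg : Ord 0 (p - d 2 p * X 2 - C (1 / 2 : ℝ) * d 1 (d 1 p) * X 1 ^ 2 -
      iota (eps (d 1 p)) * X 1) := by
    intro j hj
    rw [map_sub, map_sub, map_sub, d_mul, d_mul, d_mul, d_mul, pow_two, d_mul, hS0 j hj,
      hr1 j hj, (ord_iota (eps (d 1 p))) j hj, (ord_C (1 / 2 : ℝ) 0) j hj]
    rcases Nat.lt_or_ge 1 j with h | h
    · rcases Nat.lt_or_ge 2 j with h' | h'
      · rw [hp j h', pderiv_X_of_ne (by omega), pderiv_X_of_ne (by omega)]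
        ring
      · obtain rfl : j = 2 := by omega
        rw [pderiv_X_self, pderiv_X_of_ne (by omega)]
        ring
    · obtain rfl : j = 1 := by omega
      rw [pderiv_X_self, pderiv_X_of_ne (by omega)]
      linear_combination hre - d 1 (d 1 p) * X 1 * hC
  have hfin := iota_eps hg
  have e1 : eps (X 1 : A) = 0 := eps_X_succ 0
  have e2 : eps (X 2 : A) = 0 := eps_X_succ 1
  have he : eps (p - d 2 p * X 2 - C (1 / 2 : ℝ) * d 1 (d 1 p) * X 1 ^ 2 -
      iota (eps (d 1 p)) * X 1) = eps p := by
    rw [map_sub, map_sub, map_sub, map_mul, map_mul, map_mul, map_mul, map_pow, e1, e2]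
    ring
  rw [he] at hfin
  refine ⟨?_, hr1, hre⟩
  linear_combination -hfin

/-- the extra term of `eq_three` -/
theorem extra_term (hp : Ord 2 p) (hS0 : Ord 0 (d 2 p)) :
    d (k + 2) (d 2 p) * D (D q) + d (k + 2) (d 1 p) * D q + d (k + 2) (d 0 p) * q =
      (if k = 0 then 1 else 0) * (d 0 (d 2 p) * q) := by
  have h1 : d (k + 2) (d 2 p) = 0 := hS0 _ (by omega)
  by_cases hk : k = 0
  · subst hk
    have h2 : d 2 (d 1 p) = 0 := by rw [d_comm]; exact hS0 1 (by omega)
    have h3 : d 2 (d 0 p) = d 0 (d 2 p) := d_comm 2 0 p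
    rw [h1]
    simp only [Nat.zero_add, h2, h3]
    simp
  · rw [h1, (hp.d 1) (k + 2) (by omega), (hp.d 0) (k + 2) (by omega), if_neg hk]
    ring

section
variable (hp : Ord 2 p) (hS : d 2 p ≠ 0) (hq : Ord (k + 3) q) (hq0 : d (k + 3) q ≠ 0)
  (h : ev p q = ev q p)
include hp hS hq hq0 h

/-- relation `W` -/
theorem rel_W : 2 * eps (d 2 p) * Polynomial.derivative (eps (d (k + 2) q)) =
    ((k : Polynomial ℝ) + 2) * Polynomial.derivative (eps (d 2 p)) * eps (d (k + 2) q) +
      ((k : Polynomial ℝ) + 3) * eps (d (k + 3) q) * Polynomial.derivative (eps (d 1 p)) := by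
  obtain ⟨hS0, hP0, hb⟩ := sep_ord0 hp hS hq hq0 h
  have E := eq_two hp hq h
  rw [ev_ord0 p hP0] at E
  have hk2 : ∀ j, d j ((k : A) + 2) = 0 := fun j => by
    rw [map_add, d_natCast, d_ofNat, add_zero]
  have S1 := hS0 1 (by omega)
  have S01 := hS0.d 0 1 (by omega)
  have P1 := hP0 1 (by omega)
  have P01 := hP0.d 0 1 (by omega)
  have Q1 := congrArg (d 1) E
  simp only [map_add, map_sub, d_mul, d_two, d_three, d_four, d_natCast, d_nk, hk2, d1_D, d_zero_D,
    S1, S01, P1, P01, map_zero, mul_zero, zero_add, add_zero] at Q1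
  have Q2 := congrArg eps Q1
  simp only [map_add, map_sub, map_mul, eps_D, eps_d0, map_zero, mul_zero, zero_add, add_zero,
    zero_mul, map_natCast, map_ofNat] at Q2
  have h4 : (2 : Polynomial ℝ) * (2 * eps (d 2 p) * Polynomial.derivative (eps (d (k + 2) q)) -
      (((k : Polynomial ℝ) + 2) * Polynomial.derivative (eps (d 2 p)) * eps (d (k + 2) q) +
      ((k : Polynomial ℝ) + 3) * eps (d (k + 3) q) * Polynomial.derivative (eps (d 1 p)))) = 0 := by
    linear_combination -Q2
  have h5 := (mul_eq_zero.1 h4).resolve_left two_ne_zero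
  linear_combination h5

/-- relation `Q` -/
theorem rel_Q : 4 * eps (d 2 p) * eps (d 1 (d (k + 1) q)) =
    ((k : Polynomial ℝ) + 3) * ((k : Polynomial ℝ) + 4) * eps (d (k + 3) q) *
        Polynomial.derivative (eps (d 1 p)) +
      eps (d (k + 2) q) * (2 * ((k : Polynomial ℝ) + 2) * eps (d 1 (d 1 p)) +
        ((k : Polynomial ℝ) + 2) * ((k : Polynomial ℝ) + 1) *
          Polynomial.derivative (eps (d 2 p))) -
      2 * (if k = 0 then 1 else 0) * Polynomial.derivative (eps (d 2 p)) * eps (d (k + 2) q) := by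
  obtain ⟨hS0, hP0, hb⟩ := sep_ord0 hp hS hq hq0 h
  have E := eq_three hp hq h
  rw [extra_term hp hS0, ev_ord1 p hb] at E
  have hk2 : ∀ j, d j ((k : A) + 2) = 0 := fun j => by
    rw [map_add, d_natCast, d_ofNat, add_zero]
  have hk1 : ∀ j, d j ((k : A) + 1) = 0 := fun j => by
    rw [map_add, d_natCast, d_one, add_zero]
  have S1 := hS0 1 (by omega)
  have S2 := hS0 2 (by omega)
  have S02 := hS0.d 0 2 (by omega)
  have P2 := hP0 2 (by omega)
  have b2 := hb 2 (by omega)
  have b12 := hb.d 1 2 (by omega)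
  have b02 := hb.d 0 2 (by omega)
  have r2 : d 2 (d 1 p) = 0 := by rw [d_comm]; exact S1
  have t2 : d 2 (d 0 p) = d 0 (d 2 p) := d_comm 2 0 p
  have t1 : d 1 (d 0 p) = d 0 (d 1 p) := d_comm 1 0 p
  have hd : ∀ j, d j (if k = 0 then (1 : A) else 0) = 0 := by
    intro j
    split_ifs
    · exact d_one j
    · exact map_zero _
  have hed : eps (if k = 0 then (1 : A) else 0) = if k = 0 then 1 else 0 := by
    split_ifs <;> simp
  have hx : (if k = 0 then (1 : Polynomial ℝ) else 0) * eps (d 2 q) =
      (if k = 0 then (1 : Polynomial ℝ) else 0) * eps (d (k + 2) q) := by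
    by_cases hk : k = 0
    · subst hk; rfl
    · rw [if_neg hk, zero_mul, zero_mul]
  have Q1 := congrArg (d 2) E
  simp only [map_add, map_sub, d_mul, d_two, d_three, d_four, d_six, d_twelve, d_natCast, d_nk,
    hk2, hk1, d2_D, d1_D, d_zero_D, hd, S1, S2, S02, P2, b2, b12, b02, r2, t2, t1,
    map_zero, mul_zero, zero_add, add_zero] at Q1
  have Q2 := congrArg eps Q1
  simp only [map_add, map_sub, map_mul, eps_D, eps_d0, map_zero, mul_zero, zero_add, add_zero,
    zero_mul, map_natCast, map_ofNat, map_one, hed] at Q2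
  have h4 : (3 : Polynomial ℝ) * (4 * eps (d 2 p) * eps (d 1 (d (k + 1) q)) -
      (((k : Polynomial ℝ) + 3) * ((k : Polynomial ℝ) + 4) * eps (d (k + 3) q) *
        Polynomial.derivative (eps (d 1 p)) +
      eps (d (k + 2) q) * (2 * ((k : Polynomial ℝ) + 2) * eps (d 1 (d 1 p)) +
        ((k : Polynomial ℝ) + 2) * ((k : Polynomial ℝ) + 1) *
          Polynomial.derivative (eps (d 2 p))) -
      2 * (if k = 0 then 1 else 0) * Polynomial.derivative (eps (d 2 p)) *
        eps (d (k + 2) q))) = 0 := by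
    linear_combination -Q2 - 6 * Polynomial.derivative (eps (d 2 p)) * hx
  have h5 := (mul_eq_zero.1 h4).resolve_left (by norm_num)
  linear_combination h5

/-- relation `T0` -/
theorem rel_T0 (h3 : d 1 (d 1 (d 1 p)) = 0) :
    -(Polynomial.derivative (eps (d (k + 2) q)) * eps (d 1 (d 1 p))) +
      2 * ((k : Polynomial ℝ) + 3) * eps (d 1 (d (k + 2) q)) *
        Polynomial.derivative (eps (d 1 p)) +
      ((k : Polynomial ℝ) + 3) * ((k : Polynomial ℝ) + 4) * eps (d (k + 3) q) *
        Polynomial.derivative (Polynomial.derivative (eps (d 1 p))) +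
      eps (d (k + 2) q) * (2 * ((k : Polynomial ℝ) + 2) *
          Polynomial.derivative (eps (d 1 (d 1 p))) +
        ((k : Polynomial ℝ) + 2) * ((k : Polynomial ℝ) + 1) *
          Polynomial.derivative (Polynomial.derivative (eps (d 2 p)))) +
      2 * ((k : Polynomial ℝ) + 1) * eps (d 1 (d (k + 1) q)) *
        Polynomial.derivative (eps (d 2 p)) -
      2 * eps (d 2 p) *
        Polynomial.derivative (Polynomial.derivative (eps (d (k + 2) q))) -
      4 * eps (d 2 p) * Polynomial.derivative (eps (d 1 (d (k + 1) q))) -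
      (if k = 0 then 1 else 0) * Polynomial.derivative (eps (d 2 p)) *
        eps (d 1 (d (k + 1) q)) = 0 := by
  obtain ⟨hS0, hP0, hb⟩ := sep_ord0 hp hS hq hq0 h
  have E := eq_three hp hq h
  have F := rel_b1 hp hS hq hq0 h
  rw [extra_term hp hS0, ev_ord1 p hb] at E
  have hk2 : ∀ j, d j ((k : A) + 2) = 0 := fun j => by
    rw [map_add, d_natCast, d_ofNat, add_zero]
  have hk1 : ∀ j, d j ((k : A) + 1) = 0 := fun j => by
    rw [map_add, d_natCast, d_one, add_zero]
  have S1 := hS0 1 (by omega)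
  have S01 := hS0.d 0 1 (by omega)
  have S001 := (hS0.d 0).d 0 1 (by omega)
  have P1 := hP0 1 (by omega)
  have P01 := hP0.d 0 1 (by omega)
  have c10 : ∀ f : A, d 1 (d 0 f) = d 0 (d 1 f) := fun f => d_comm 1 0 f
  have b11 : d 1 (d 1 (d (k + 2) q)) = 0 := by
    have F1 := congrArg (d 1) F
    simp only [map_add, map_sub, d_mul, d_two, d_three, d_four, d_natCast, d_nk, hk2,
      S1, S01, P1, map_zero, mul_zero, zero_add, add_zero, h3] at F1
    have h5 : (4 * d 2 p) * d 1 (d 1 (d (k + 2) q)) = 0 := by linear_combination F1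
    exact (mul_eq_zero.1 h5).resolve_left (mul_ne_zero (by norm_num) hS)
  have hd : ∀ j, d j (if k = 0 then (1 : A) else 0) = 0 := by
    intro j
    split_ifs
    · exact d_one j
    · exact map_zero _
  have hed : eps (if k = 0 then (1 : A) else 0) = if k = 0 then 1 else 0 := by
    split_ifs <;> simp
  have hx : (if k = 0 then (1 : Polynomial ℝ) else 0) * eps (d 1 (d 1 q)) =
      (if k = 0 then (1 : Polynomial ℝ) else 0) * eps (d 1 (d (k + 1) q)) := by
    by_cases hk : k = 0
    · subst hk; rfl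
    · rw [if_neg hk, zero_mul, zero_mul]
  have Q1 := congrArg (d 1) E
  simp only [map_add, map_sub, d_mul, d_two, d_three, d_four, d_six, d_twelve, d_natCast, d_nk,
    hk2, hk1, d1_D, d_zero_D, hd, S1, S01, P1, P01, b11, c10,
    map_zero, mul_zero, zero_add, add_zero] at Q1
  have Q2 := congrArg (d 1) Q1
  simp only [map_add, map_sub, d_mul, d_two, d_three, d_four, d_six, d_twelve, d_natCast, d_nk,
    hk2, hk1, d1_D, d_zero_D, hd, S1, S01, S001, P1, P01, b11, c10, h3,
    map_zero, mul_zero, zero_add, add_zero] at Q2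
  have Q3 := congrArg eps Q2
  simp only [map_add, map_sub, map_mul, eps_D, eps_d0, map_zero, mul_zero, zero_add, add_zero,
    zero_mul, map_natCast, map_ofNat, map_one, hed, h3, b11, c10] at Q3
  generalize eps (d 1 (d 1 q)) = x1 at *
  generalize (if k = 0 then (1 : Polynomial ℝ) else 0) = δ at *
  refine (mul_eq_zero.1 ?_).resolve_left (by norm_num : (6 : Polynomial ℝ) ≠ 0)
  linear_combination Q3 + 6 * Polynomial.derivative (eps (d 2 p)) * hx

/-- the second order equation for `β` -/
theorem rel_K2 (h3 : d 1 (d 1 (d 1 p)) = 0) :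
    2 * eps (d 2 p) * Polynomial.derivative (Polynomial.derivative (eps (d 1 p))) =
      (eps (d 1 (d 1 p)) + Polynomial.derivative (eps (d 2 p))) *
        Polynomial.derivative (eps (d 1 p)) := by
  obtain ⟨hS0, hP0, hb⟩ := sep_ord0 hp hS hq hq0 h
  have T0 := rel_T0 hp hS hq hq0 h h3
  have Q := rel_Q hp hS hq hq0 h
  have W := rel_W hp hS hq hq0 h
  have F := congrArg eps (rel_b1 hp hS hq hq0 h)
  have R := congrArg eps (rel_one hp hS hq h 0)
  have K := congrArg eps (rel_K1 hp hS hq hq0 h)
  have hπ : eps (d (k + 3) q) ≠ 0 := by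
    intro h0
    apply hq0
    rw [← iota_eps hP0, h0, map_zero]
  simp only [map_add, map_sub, map_mul, map_pow, eps_d0, map_natCast, map_ofNat] at F R K
  generalize eps (d (k + 3) q) = π at *
  generalize eps (d (k + 2) q) = b at *
  generalize eps (d 1 (d (k + 2) q)) = b1 at *
  generalize eps (d 1 (d (k + 1) q)) = e1 at *
  generalize eps (d 2 p) = s at *
  generalize eps (d 1 (d 1 p)) = r1 at *
  generalize eps (d 1 p) = β at *
  have hδ : Polynomial.derivative (if k = 0 then (1 : Polynomial ℝ) else 0) = 0 := by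
    split_ifs <;> simp
  have Q' := congrArg Polynomial.derivative Q
  have W' := congrArg Polynomial.derivative W
  simp only [Polynomial.derivative_add, Polynomial.derivative_sub, Polynomial.derivative_mul,
    Polynomial.derivative_ofNat, Polynomial.derivative_natCast, Polynomial.derivative_one, hδ,
    zero_mul, mul_zero, add_zero, zero_add] at Q' W'
  have hn : ((k : Polynomial ℝ) + 3) ≠ 0 := by
    have : ((k + 3 : ℕ) : Polynomial ℝ) ≠ 0 := by exact_mod_cast (by omega : k + 3 ≠ 0)
    push_cast at this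
    exact this
  have fin : (2 * (((k : Polynomial ℝ) + 3) * π)) *
      (2 * s * Polynomial.derivative (Polynomial.derivative β) -
        (r1 + Polynomial.derivative s) * Polynomial.derivative β) = 0 := by
    by_cases hk : k = 0
    · subst hk
      simp only [if_true, Nat.cast_zero, zero_add, mul_one, one_mul] at *
      linear_combination -4 * s * (T0 + Q') + 6 * Polynomial.derivative β * F +
        5 * Polynomial.derivative s * Q - 4 * s * W' + 2 * (-5 * r1) * W +
        30 * Polynomial.derivative β * R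
    · simp only [if_neg hk, mul_zero, zero_mul, sub_zero] at *
      linear_combination -4 * s * (T0 + Q') + 2 * ((k : Polynomial ℝ) + 3) *
          Polynomial.derivative β * F +
        2 * ((k : Polynomial ℝ) + 3) * Polynomial.derivative s * Q - 4 * s * W' +
        2 * (-(2 * ((k : Polynomial ℝ) + 3) - 1) * r1 + Polynomial.derivative s *
          (-(((k : Polynomial ℝ) + 2) * ((k : Polynomial ℝ) + 1)) - (k : Polynomial ℝ))) * W +
        2 * ((k : Polynomial ℝ) + 3) * ((k : Polynomial ℝ) + 5) * Polynomial.derivative β * R +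
        2 * ((k : Polynomial ℝ) + 2) * b * K
  have h0 := (mul_eq_zero.1 fin).resolve_left (mul_ne_zero two_ne_zero (mul_ne_zero hn hπ))
  linear_combination h0

end

end Pool.Agent.Helper90.Evo
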