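import Mathlib

/-!
# Lemmas on real polynomials in one variable (MP_ff793d_mp)
-/

set_option autoImplicit false

open Polynomial

namespace Pool.Agent.Helper90.Evo

/-- homogeneity -/
theorem poly_homog {t : ℝ[X]} {a : ℝ} {M : ℕ} (h : (X - C a) * derivative t = (M : ℝ[X]) * t) :
    ∃ c : ℝ, t = C c * (X - C a) ^ M := by
  set w := t.comp (X + C a) with hw
  have h1 : X * derivative w = (M : ℝ[X]) * w := by
    have h2 := congrArg (fun f => f.comp (X + C a)) h
    simp only [mul_comp, sub_comp, X_comp, C_comp, natCast_comp] at h2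
    have hdw : derivative w = (derivative t).comp (X + C a) := by
      rw [hw, derivative_comp]
      simp
    have h3 : (X + C a - C a : ℝ[X]) = X := by ring
    rw [h3] at h2
    rw [hdw]
    exact h2
  have h2 : ∀ i, i ≠ M → w.coeff i = 0 := by
    intro i hi
    have h3 := congrArg (fun f => coeff f i) h1
    rw [← C_eq_natCast, coeff_C_mul] at h3
    cases i with
    | zero =>
      rw [mul_coeff_zero, coeff_X_zero, zero_mul] at h3
      have : (M : ℝ) ≠ 0 := by exact_mod_cast (Ne.symm hi)
      exact (mul_eq_zero.1 h3.symm).resolve_left this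
    | succ i =>
      rw [coeff_X_mul, coeff_derivative] at h3
      have h4 : ((i + 1 : ℕ) : ℝ) - (M : ℝ) ≠ 0 := by
        rw [sub_ne_zero]
        exact_mod_cast hi
      have h5 : (((i + 1 : ℕ) : ℝ) - (M : ℝ)) * w.coeff (i + 1) = 0 := by
        push_cast
        linear_combination h3
      exact (mul_eq_zero.1 h5).resolve_left h4
  have h3 : w = C (w.coeff M) * X ^ M := by
    ext i
    rw [coeff_C_mul, coeff_X_pow]
    by_cases hi : i = M
    · subst hi; simp
    · rw [if_neg hi, h2 i hi, mul_zero]
  refine ⟨w.coeff M, ?_⟩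
  have h4 : t = w.comp (X - C a) := by
    rw [hw, comp_assoc]
    simp
  rw [h4, h3]
  simp

theorem roots_dvd {s : ℂ[X]} (hs : derivative s ≠ 0)
    (hd : derivative s ∣ s * derivative (derivative s)) : derivative s ∣ s := by
  have hs0 : s ≠ 0 := by
    rintro rfl
    simp at hs
  have key : ∀ t, rootMultiplicity t (derivative s) ≤ rootMultiplicity t s := by
    intro t
    by_cases he : rootMultiplicity t (derivative s) = 0
    · omega
    · have hroot : (derivative s).IsRoot t := by
        by_contra h
        exact he (rootMultiplicity_eq_zero h)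
      have h2 : derivative (derivative s) ≠ 0 := by
        intro h0
        have h3 := derivative_eq_zero.1 h0
        obtain ⟨c, hc⟩ := natDegree_eq_zero.1 h3
        rw [← hc, IsRoot.def, eval_C] at hroot
        rw [← hc, hroot, C_0] at hs
        exact hs rfl
      have h3 := derivative_rootMultiplicity_of_root hroot
      have h4 := rootMultiplicity_le_rootMultiplicity_of_dvd (mul_ne_zero hs0 h2) hd t
      rw [rootMultiplicity_mul (mul_ne_zero hs0 h2), h3] at h4
      have h5 : rootMultiplicity t s ≠ 0 := by omega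
      have hroot2 : s.IsRoot t := by
        by_contra h
        exact h5 (rootMultiplicity_eq_zero h)
      have h6 := derivative_rootMultiplicity_of_root hroot2
      omega
  have h1 : (derivative s).roots ≤ s.roots := by
    rw [Multiset.le_iff_count]
    intro t
    rw [count_roots, count_roots]
    exact key t
  have h2 := (Multiset.prod_X_sub_C_dvd_iff_le_roots hs0 (derivative s).roots).2 h1
  have h3 := (IsAlgClosed.splits (derivative s)).eq_prod_roots
  rw [h3]
  refine (IsUnit.mul_left_dvd ?_).2 h2
  rw [isUnit_C]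
  exact isUnit_iff_ne_zero.2 (leadingCoeff_ne_zero.2 hs)

theorem poly_sep {s : ℝ[X]} (hs : derivative s ≠ 0)
    (hd : derivative s ∣ s * derivative (derivative s)) :
    ∃ (c a : ℝ) (N : ℕ), c ≠ 0 ∧ 1 ≤ N ∧ s = C c * (X - C a) ^ N := by
  have hdvd : derivative s ∣ s := by
    have h1 : derivative (s.map (algebraMap ℝ ℂ)) ∣ s.map (algebraMap ℝ ℂ) := by
      apply roots_dvd
      · rw [derivative_map]
        exact (Polynomial.map_ne_zero_iff (algebraMap ℝ ℂ).injective).2 hs
      · rw [derivative_map, derivative_map, ← Polynomial.map_mul]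
        exact Polynomial.map_dvd _ hd
    rw [derivative_map] at h1
    exact (Polynomial.map_dvd_map' (algebraMap ℝ ℂ)).1 h1
  obtain ⟨l, hl⟩ := hdvd
  have hs0 : s ≠ 0 := by
    rintro rfl
    simp at hs
  have hN : 1 ≤ s.natDegree := by
    by_contra h
    have h0 : s.natDegree = 0 := by omega
    obtain ⟨c, hc⟩ := natDegree_eq_zero.1 h0
    rw [← hc] at hs
    simp at hs
  have hl0 : l ≠ 0 := by
    rintro rfl
    exact hs0 (by rw [hl, mul_zero])
  have hdeg : (derivative s).natDegree = s.natDegree - 1 := natDegree_derivative s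
  have hldeg : l.natDegree = 1 := by
    have h1 := congrArg natDegree hl
    rw [natDegree_mul hs hl0, hdeg] at h1
    omega
  obtain ⟨u, v, hu, huv⟩ : ∃ u v : ℝ, u ≠ 0 ∧ l = C u * X + C v := by
    refine ⟨l.coeff 1, l.coeff 0, ?_, ?_⟩
    · rw [← hldeg]
      exact leadingCoeff_ne_zero.2 hl0
    · exact Polynomial.eq_X_add_C_of_natDegree_le_one (by omega)
  have hlead : s.leadingCoeff = (s.natDegree : ℝ) * s.leadingCoeff * u := by
    have h1 := congrArg leadingCoeff hl
    rw [leadingCoeff_mul] at h1
    have h2 : (derivative s).leadingCoeff = (s.natDegree : ℝ) * s.leadingCoeff := by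
      rw [leadingCoeff, hdeg, coeff_derivative, leadingCoeff]
      rw [show s.natDegree - 1 + 1 = s.natDegree by omega]
      have : ((s.natDegree - 1 : ℕ) : ℝ) + 1 = (s.natDegree : ℝ) := by
        rw [Nat.cast_sub hN]; ring
      rw [this, mul_comm]
    have h3 : l.leadingCoeff = u := by
      rw [leadingCoeff, hldeg, huv]
      simp
    rw [h2, h3] at h1
    exact h1
  have hNu : (s.natDegree : ℝ) * u = 1 := by
    have h1 : s.leadingCoeff ≠ 0 := leadingCoeff_ne_zero.2 hs0
    have h2 : s.leadingCoeff * ((s.natDegree : ℝ) * u - 1) = 0 := by linear_combination -hlead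
    have h3 := (mul_eq_zero.1 h2).resolve_left h1
    linarith
  have h5 : (X - C (-(s.natDegree : ℝ) * v)) * derivative s = (s.natDegree : ℝ[X]) * s := by
    have e1 : (s.natDegree : ℝ[X]) * C u = 1 := by
      rw [← C_eq_natCast, ← C_mul, hNu, C_1]
    have e2 : (C (-(s.natDegree : ℝ) * v) : ℝ[X]) = -((s.natDegree : ℝ[X]) * C v) := by
      rw [C_mul, C_neg, C_eq_natCast]; ring
    rw [e2]
    have e3 : (s.natDegree : ℝ[X]) * s = (s.natDegree : ℝ[X]) * (derivative s * l) := by
      rw [← hl]
    rw [e3, huv]
    linear_combination (-(X * derivative s)) * e1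
  obtain ⟨c, hc⟩ := poly_homog h5
  refine ⟨c, -(s.natDegree : ℝ) * v, s.natDegree, ?_, hN, hc⟩
  rintro rfl
  rw [C_0, zero_mul] at hc
  exact hs0 hc

end Pool.Agent.Helper90.Evo
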