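import Pool.Agent.Helper90.Evo.Cls2
import Pool.Agent.Helper90.Evo.Poly

/-!
# Second order elements with a symmetry of order at least three: the list (MP_ff793d_mp)
-/

set_option autoImplicit false
set_option linter.unusedSimpArgs false

open MvPolynomial

namespace Pool.Agent.Helper90.Evo

variable {k : ℕ} {p q : A}

/-- an element of order `0` with vanishing `∂_0` is a constant -/
theorem const_of_ord0 {f : A} (hf : Ord 0 f) (h : d 0 f = 0) : f = C (constantCoeff f) := by
  apply eq_C_of_d
  intro j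
  rcases Nat.eq_zero_or_pos j with rfl | hj
  · exact h
  · exact hf j hj

/-- nonconstant separant -/
theorem case_K (hp : Ord 2 p) (hS : d 2 p ≠ 0) (hq : Ord (k + 3) q) (hq0 : d (k + 3) q ≠ 0)
    (h : ev p q = ev q p) (hS' : d 0 (d 2 p) ≠ 0) :
    ∃ (N : ℕ) (c r a b : ℝ), 1 ≤ N ∧ c ≠ 0 ∧
      p = C c * ((X 0 - C r) ^ N * X 2 + C ((N : ℝ) / 2 - 1) * (X 0 - C r) ^ (N - 1) * X 1 ^ 2 +
        C a * (X 0 - C r) ^ N * X 1) + C b * X 1 := by
  obtain ⟨hS0, hP0, hb⟩ := sep_ord0 hp hS hq hq0 h
  have K1 := rel_K1 hp hS hq hq0 h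
  have h3 : d 1 (d 1 (d 1 p)) = 0 := by
    have F1 := congrArg (d 1) K1
    have c1 : d 1 (d 0 (d 2 p)) = 0 := hS0.d 0 1 (by omega)
    have c2 : d 1 (d 0 (d 0 (d 2 p))) = 0 := (hS0.d 0).d 0 1 (by omega)
    have c3 : d 1 (d 2 p) = 0 := hS0 1 (by omega)
    simp only [map_sub, d_mul, pow_two, d_two, c1, c2, c3, mul_zero, add_zero, sub_zero,
      zero_add] at F1
    exact (mul_eq_zero.1 F1).resolve_left hS'
  obtain ⟨hpe, hr1, hr⟩ := structure_p hp hS0 h3
  have K2 := rel_K2 hp hS hq hq0 h h3
  have K := congrArg eps K1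
  have R := congrArg eps (rel_one hp hS hq h 0)
  simp only [map_add, map_sub, map_mul, map_pow, eps_d0, map_natCast, map_ofNat] at K R
  have hs' : Polynomial.derivative (eps (d 2 p)) ≠ 0 := by
    rw [← eps_d0]
    intro h0
    apply hS'
    rw [← iota_eps (hS0.d 0), h0, map_zero]
  have hs : eps (d 2 p) ≠ 0 := by
    intro h0
    rw [h0] at hs'
    simp at hs'
  have hπ : eps (d (k + 3) q) ≠ 0 := by
    intro h0
    apply hq0
    rw [← iota_eps hP0, h0, map_zero]
  have hn : ((k : Polynomial ℝ) + 3) ≠ 0 := by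
    have : ((k + 3 : ℕ) : Polynomial ℝ) ≠ 0 := by exact_mod_cast (by omega : k + 3 ≠ 0)
    push_cast at this
    exact this
  have hπ' : Polynomial.derivative (eps (d (k + 3) q)) ≠ 0 := by
    intro h0
    rw [h0, mul_zero] at R
    exact (mul_ne_zero (mul_ne_zero hn hπ) hs') R
  -- gamma vanishes
  have hγ : eps p = 0 := by
    have E := congrArg eps (eq_two hp hq h)
    simp only [map_add, map_sub, map_mul, map_pow, eps_ev, eps_D, eps_d0, map_natCast, map_ofNat,
      mul_zero, add_zero, sub_zero, zero_mul, map_zero] at E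
    have := (mul_eq_zero.1 E).resolve_left two_ne_zero
    exact (mul_eq_zero.1 this).resolve_left hπ'
  -- the separant
  obtain ⟨c, r, N, hc, hN, hsN⟩ := poly_sep (s := eps (d 2 p)) hs' (by
    have h2 : Polynomial.derivative (eps (d 2 p)) ∣ (2 : Polynomial ℝ) * (eps (d 2 p) *
        Polynomial.derivative (Polynomial.derivative (eps (d 2 p)))) :=
      ⟨eps (d 1 (d 1 p)) + Polynomial.derivative (eps (d 2 p)), by linear_combination -K⟩
    have hu : IsUnit (2 : Polynomial ℝ) := by
      rw [show (2 : Polynomial ℝ) = Polynomial.C 2 by rw [map_ofNat]]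
      exact Polynomial.isUnit_C.2 (isUnit_iff_ne_zero.2 two_ne_zero)
    exact (IsUnit.dvd_mul_left hu).1 h2)
  have hw : (Polynomial.X - Polynomial.C r : Polynomial ℝ) ≠ 0 := Polynomial.X_sub_C_ne_zero r
  obtain ⟨M, rfl⟩ : ∃ M, N = M + 1 := ⟨N - 1, by omega⟩
  -- w s' = N s
  have hws : (Polynomial.X - Polynomial.C r) * Polynomial.derivative (eps (d 2 p)) =
      ((M : Polynomial ℝ) + 1) * eps (d 2 p) := by
    rw [hsN, Polynomial.derivative_mul, Polynomial.derivative_X_sub_C_pow]
    simp only [Polynomial.derivative_C, zero_mul, zero_add, Nat.add_sub_cancel,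
      Polynomial.C_eq_natCast]
    push_cast
    ring
  have hws' : (Polynomial.X - Polynomial.C r) *
      Polynomial.derivative (Polynomial.derivative (eps (d 2 p))) =
      (M : Polynomial ℝ) * Polynomial.derivative (eps (d 2 p)) := by
    have h1 := congrArg Polynomial.derivative hws
    simp only [Polynomial.derivative_mul, Polynomial.derivative_sub, Polynomial.derivative_X,
      Polynomial.derivative_C, Polynomial.derivative_add, Polynomial.derivative_natCast,
      Polynomial.derivative_one, sub_zero, one_mul, add_zero, zero_mul, zero_add] at h1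
    linear_combination h1
  have hwr : (Polynomial.X - Polynomial.C r) * eps (d 1 (d 1 p)) =
      ((M : Polynomial ℝ) - 1) * eps (d 2 p) := by
    have h1 : Polynomial.derivative (eps (d 2 p)) * ((Polynomial.X - Polynomial.C r) *
        eps (d 1 (d 1 p)) - ((M : Polynomial ℝ) - 1) * eps (d 2 p)) = 0 := by
      linear_combination (Polynomial.X - Polynomial.C r) * K + 2 * eps (d 2 p) * hws' -
        Polynomial.derivative (eps (d 2 p)) * hws
    have h2 := (mul_eq_zero.1 h1).resolve_left hs'
    linear_combination h2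
  have hr1v : eps (d 1 (d 1 p)) = Polynomial.C (c * ((M : ℝ) - 1)) *
      (Polynomial.X - Polynomial.C r) ^ M := by
    apply mul_left_cancel₀ hw
    rw [hwr, hsN, Polynomial.C_mul, Polynomial.C_sub, Polynomial.C_eq_natCast,
      Polynomial.C_1]
    ring
  have hβ' : (Polynomial.X - Polynomial.C r) *
      Polynomial.derivative (Polynomial.derivative (eps (d 1 p))) =
      ((M : ℕ) : Polynomial ℝ) * Polynomial.derivative (eps (d 1 p)) := by
    have h1 : (2 * eps (d 2 p)) * ((Polynomial.X - Polynomial.C r) *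
        Polynomial.derivative (Polynomial.derivative (eps (d 1 p))) -
        (M : Polynomial ℝ) * Polynomial.derivative (eps (d 1 p))) = 0 := by
      linear_combination (Polynomial.X - Polynomial.C r) * K2 +
        Polynomial.derivative (eps (d 1 p)) * hwr + Polynomial.derivative (eps (d 1 p)) * hws
    have h2 := (mul_eq_zero.1 h1).resolve_left (mul_ne_zero two_ne_zero hs)
    linear_combination h2
  obtain ⟨a1, ha1⟩ := poly_homog hβ'
  have hM1 : ((M : ℝ) + 1) ≠ 0 := by positivity
  have hβ : ∃ b : ℝ, eps (d 1 p) = Polynomial.C (a1 / ((M : ℝ) + 1)) *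
      (Polynomial.X - Polynomial.C r) ^ (M + 1) + Polynomial.C b := by
    have h1 : Polynomial.derivative (eps (d 1 p) - Polynomial.C (a1 / ((M : ℝ) + 1)) *
        (Polynomial.X - Polynomial.C r) ^ (M + 1)) = 0 := by
      rw [Polynomial.derivative_sub, Polynomial.derivative_mul,
        Polynomial.derivative_X_sub_C_pow, ha1]
      simp only [Polynomial.derivative_C, zero_mul, zero_add, Nat.add_sub_cancel,
        Polynomial.C_eq_natCast]
      have h2 : (Polynomial.C (a1 / ((M : ℝ) + 1)) : Polynomial ℝ) * ((M + 1 : ℕ) : Polynomial ℝ)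
          = Polynomial.C a1 := by
        rw [← Polynomial.C_eq_natCast, ← Polynomial.C_mul]
        congr 1
        push_cast
        field_simp
      linear_combination (-((Polynomial.X - Polynomial.C r) ^ M)) * h2
    have h2 := Polynomial.derivative_eq_zero.1 h1
    obtain ⟨b, hb⟩ := Polynomial.natDegree_eq_zero.1 h2
    exact ⟨b, by rw [hb]; ring⟩
  obtain ⟨b, hbv⟩ := hβ
  refine ⟨M + 1, c, r, a1 / ((M : ℝ) + 1) / c, b, hN, hc, ?_⟩
  have hSv : d 2 p = C c * (X 0 - C r) ^ (M + 1) := by
    rw [← iota_eps hS0, hsN]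
    simp only [map_mul, map_pow, map_sub, iota_C, iota_X]
  have hr1v' : d 1 (d 1 p) = C (c * ((M : ℝ) - 1)) * (X 0 - C r) ^ M := by
    rw [← iota_eps hr1, hr1v]
    simp only [map_mul, map_pow, map_sub, iota_C, iota_X]
  have hβv : iota (eps (d 1 p)) = C (a1 / ((M : ℝ) + 1)) * (X 0 - C r) ^ (M + 1) + C b := by
    rw [hbv, map_add, map_mul, map_pow, map_sub, iota_C, iota_C, iota_C, iota_X]
  rw [hγ, map_zero, add_zero, hSv, hr1v', hβv] at hpe
  have e1 : (C (1 / 2 : ℝ) * C (c * ((M : ℝ) - 1)) : A) =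
      C c * C (((M + 1 : ℕ) : ℝ) / 2 - 1) := by
    rw [← C_mul, ← C_mul]
    congr 1
    push_cast
    ring
  have e2 : (C (a1 / ((M : ℝ) + 1)) : A) = C c * C (a1 / ((M : ℝ) + 1) / c) := by
    rw [← C_mul]
    congr 1
    field_simp
  rw [Nat.add_sub_cancel]
  linear_combination hpe + (X 0 - C r) ^ M * X 1 ^ 2 * e1 + (X 0 - C r) ^ (M + 1) * X 1 * e2

end Pool.Agent.Helper90.Evo
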