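import Pool.Agent.Helper90.Evo.Cls3

/-!
# Second order elements with a symmetry of order at least three: constant separant (MP_ff793d_mp)
-/

set_option autoImplicit false
set_option linter.unusedSimpArgs false

open MvPolynomial

namespace Pool.Agent.Helper90.Evo

variable {k : ℕ} {p q : A}

/-- conditions from `∂_2 p = σ`, `ev p (∂_1 p) = D G` -/
theorem const_step {σ : ℝ} (hσ : σ ≠ 0) (hp : Ord 2 p) (hS : d 2 p = C σ) {G : A}
    (hG : ev p (d 1 p) = D G) :
    d 1 (d 1 (d 1 p)) = 0 ∧
      2 * Polynomial.C σ * Polynomial.derivative (Polynomial.derivative (eps (d 1 p))) =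
        eps (d 1 (d 1 p)) * Polynomial.derivative (eps (d 1 p)) ∧
      Polynomial.derivative (eps (d 1 p)) * eps p = 0 := by
  have hCσ : (C σ : A) ≠ 0 := by rwa [Ne, C_eq_zero]
  have hr : Ord 1 (d 1 p) := by
    intro j hj
    rcases Nat.lt_or_ge 2 j with h | h
    · exact hp.d 1 j h
    · obtain rfl : j = 2 := by omega
      rw [d_comm, hS]
      exact pderiv_C
  have hGo : Ord 2 G := by
    refine ord_desc (a := 2) (s := 0) (c := 0) (S := 1) (b := G) (T := 2 * ev p (d 1 p))
      (fun j => map_zero _) (by simpa using ord_C 1 0) one_ne_zero (by omega) ?_ ?_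
    · have h1 : Ord 3 (ev p (d 1 p)) := by
        rw [ev_ord1 p hr]
        exact (((hr.d 0).mono (by omega)).mul (hp.mono (by omega))).add
          (((hr.d 1).mono (by omega)).mul hp.D)
      have h2 : Ord 3 (2 : A) := fun j _ => d_two j
      exact h2.mul h1
    · rw [← hG]; ring
  have hG0 := hG
  rw [ev_ord1 p hr] at hG
  have dS : ∀ j, d j (C σ : A) = 0 := fun j => pderiv_C
  have c10 : ∀ f : A, d 1 (d 0 f) = d 0 (d 1 f) := fun f => d_comm 1 0 f
  have p3 := hp 3 (by omega)
  have r2 := hr 2 (by omega)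
  have r3 := hr 3 (by omega)
  have r02 := hr.d 0 2 (by omega)
  have r12 := hr.d 1 2 (by omega)
  have r03 := hr.d 0 3 (by omega)
  have r13 := hr.d 1 3 (by omega)
  have G3 := hGo 3 (by omega)
  have e3 := congrArg (d 3) hG
  simp only [map_add, d_mul, d3_D, d2_D, p3, r3, r03, r13, G3, hS, D_C, map_zero, mul_zero,
    zero_add, add_zero] at e3
  have e2 := congrArg (d 2) hG
  simp only [map_add, d_mul, d3_D, d2_D, p3, r2, r02, r12, hS, D_C, map_zero, mul_zero,
    zero_add, add_zero, ← e3, D_mul] at e2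
  have e22 := congrArg (d 2) e2
  have G21 : d 2 (d 1 G) = d 1 (d 1 (d 1 p)) * C σ := by
    rw [d_comm, ← e3, d_mul, dS]; ring
  simp only [map_add, d_mul, d2_D, r2, r02, r12, hS, dS, map_zero, mul_zero,
    zero_add, add_zero, G21, D_C] at e22
  have h3 : d 1 (d 1 (d 1 p)) = 0 := by
    have h5 : (2 * C σ) * d 1 (d 1 (d 1 p)) = 0 := by linear_combination -e22
    exact (mul_eq_zero.1 h5).resolve_left (mul_ne_zero two_ne_zero hCσ)
  refine ⟨h3, ?_, ?_⟩
  · -- `∂_1` of the relation for `∂_1 G`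
    have f1 := congrArg (d 1) e2
    simp only [map_add, d_mul, d1_D, h3, dS, map_zero, mul_zero, zero_add, add_zero, c10,
      D_C] at f1
    have f0 := congrArg (d 0) e2
    simp only [map_add, d_mul, d_zero_D, h3, dS, map_zero, mul_zero, zero_add, add_zero, c10,
      D_C] at f0
    have g1 := congrArg (d 1) hG
    simp only [map_add, d_mul, d1_D, h3, dS, map_zero, mul_zero, zero_add, add_zero, c10] at g1
    have g11 := congrArg (d 1) g1
    simp only [map_add, d_mul, d1_D, h3, dS, map_zero, mul_zero, zero_add, add_zero, c10] at g11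
    have i1 := congrArg eps g11
    have i0 := congrArg eps f0
    simp only [map_add, map_mul, eps_D, eps_d0, map_zero, mul_zero, zero_mul, zero_add, add_zero,
      eps_C, h3] at i1 i0
    linear_combination 2 * i0 - i1
  · have h4 := congrArg eps hG0
    rw [eps_ev, eps_D] at h4
    exact h4

/-- existence of `G` -/
theorem exists_G (hp : Ord 2 p) (hS : d 2 p ≠ 0) (hq : Ord (k + 3) q) (hq0 : d (k + 3) q ≠ 0)
    (h : ev p q = ev q p) {σ : ℝ} (hSσ : d 2 p = C σ) :
    ∃ (ϖ κ : ℝ) (G : A), ϖ ≠ 0 ∧ d (k + 3) q = C ϖ ∧ ev p (d 1 p) = D G ∧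
      2 * C σ * d (k + 2) q = ((k : A) + 3) * C ϖ * d 1 p + C κ := by
  obtain ⟨hS0, hP0, hb⟩ := sep_ord0 hp hS hq hq0 h
  have hσ : (C σ : A) ≠ 0 := by rw [← hSσ]; exact hS
  have rel := rel_one hp hS hq h 0
  have hP' : d 0 (d (k + 3) q) = 0 := by
    rw [hSσ] at rel
    have h1 : d 0 (C σ : A) = 0 := pderiv_C
    rw [h1, mul_zero] at rel
    exact (mul_eq_zero.1 rel.symm).resolve_left (mul_ne_zero two_ne_zero hσ)
  have hPc := const_of_ord0 hP0 hP'
  set ϖ := constantCoeff (d (k + 3) q) with hϖ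
  have hϖ0 : ϖ ≠ 0 := by
    intro h0
    rw [h0, C_0] at hPc
    exact hq0 hPc
  have E := eq_two hp hq h
  rw [hPc, hSσ] at E
  simp only [ev_C, D_C, map_zero, mul_zero, add_zero, sub_zero, zero_add] at E
  have hb1 : D (((k : A) + 3) * C ϖ * d 1 p - 2 * C σ * d (k + 2) q) = 0 := by
    rw [map_sub, D_mul, D_mul, D_mul, D_mul, D_C, D_C, D_nk, D_two]
    have : (2 : A) * (((k : A) + 3) * C ϖ * D (d 1 p) - 2 * C σ * D (d (k + 2) q)) = 0 := by
      linear_combination E
    have h2 := (mul_eq_zero.1 this).resolve_left two_ne_zero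
    linear_combination h2
  obtain ⟨κ', hκ'⟩ := eq_C_of_D hb1
  obtain ⟨κ, hκ⟩ : ∃ κ : ℝ, κ = -κ' := ⟨_, rfl⟩
  have hbκ : 2 * C σ * d (k + 2) q = ((k : A) + 3) * C ϖ * d 1 p + C κ := by
    rw [hκ, C_neg]
    linear_combination -hκ'
  have E3 := eq_three hp hq h
  rw [extra_term hp hS0] at E3
  have hevb : 2 * C σ * ev p (d (k + 2) q) = ((k : A) + 3) * C ϖ * ev p (d 1 p) := by
    have h1 := congrArg (ev p) hbκ
    have h2 : ev p (2 : A) = 0 := by
      have := (ev p).map_natCast 2
      simpa using this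
    have h3 : ev p ((k : A) + 3) = 0 := by
      have h4 : ev p (3 : A) = 0 := by
        have := (ev p).map_natCast 3
        simpa using this
      rw [map_add, (ev p).map_natCast, h4, add_zero]
    simp only [map_add, ev_mul, h2, h3, ev_C, mul_zero, add_zero, zero_add, zero_mul] at h1
    linear_combination h1
  have hDb : 2 * C σ * D (d (k + 2) q) = ((k : A) + 3) * C ϖ * D (d 1 p) := by
    have h1 := congrArg D hbκ
    simp only [map_add, D_mul, D_two, D_three, D_natCast, D_nk, D_C, mul_zero, add_zero,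
      zero_add, zero_mul] at h1
    linear_combination h1
  have d0S : d 0 (C σ : A) = 0 := pderiv_C
  rw [hPc, hSσ] at E3
  simp only [D_C, map_zero, mul_zero, add_zero, sub_zero, zero_add, d0S, zero_mul] at E3
  -- the primitive
  set G0 : A := -(2 * C σ * C ϖ * (6 * ((k : A) + 3) * d 0 p +
      3 * ((k : A) + 3) * ((k : A) + 2) * D (d 1 p)) +
      3 * ((k : A) + 3) * ((k : A) + 2) * C ϖ * (d 1 p * d 1 p) +
      6 * ((k : A) + 2) * C κ * d 1 p - 12 * C σ * C σ * D (d (k + 2) q) -
      24 * C σ * C σ * d (k + 1) q - 3 * ((k : A) + 3) * C ϖ * (d 1 p * d 1 p)) with hG0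
  have hDk2 : D ((k : A) + 2) = 0 := by rw [map_add, D_natCast, D_ofNat, add_zero]
  have hD12 : D (12 : A) = 0 := D_ofNat 12
  have hD24 : D (24 : A) = 0 := D_ofNat 24
  have hD : (6 * ((k : A) + 3) * C ϖ) * ev p (d 1 p) = D G0 := by
    rw [hG0]
    simp only [map_neg, map_add, map_sub, D_mul, D_two, D_three, D_six, hD12, hD24, D_C, D_nk,
      D_natCast, hDk2, mul_zero, add_zero, zero_add, zero_mul]
    linear_combination 2 * C σ * E3 - 6 * hevb - 6 * ((k : A) + 2) * D (d 1 p) * hbκ +
      6 * d 1 p * hDb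
  have hinv : ∃ μ : ℝ, C μ * (6 * ((k : A) + 3) * C ϖ) = 1 := by
    refine ⟨(6 * ((k : ℝ) + 3) * ϖ)⁻¹, ?_⟩
    have h1 : (6 * ((k : A) + 3) * C ϖ) = C (6 * ((k : ℝ) + 3) * ϖ) := by
      rw [C_mul, C_mul, C_add, map_natCast, map_ofNat, map_ofNat]
    rw [h1, ← C_mul, inv_mul_cancel₀, C_1]
    positivity
  obtain ⟨μ, hμ⟩ := hinv
  refine ⟨ϖ, κ, C μ * G0, hϖ0, hPc, ?_, hbκ⟩
  rw [D_C_mul, ← hD]
  linear_combination -(ev p (d 1 p)) * hμ

/-- the final condition when `β` is constant -/
theorem const_last (hp : Ord 2 p) (hS : d 2 p ≠ 0) (hq : Ord (k + 3) q) (hq0 : d (k + 3) q ≠ 0)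
    (h : ev p q = ev q p) {σ : ℝ} (hSσ : d 2 p = C σ)
    (hβ : Polynomial.derivative (eps (d 1 p)) = 0) :
    Polynomial.derivative (eps (d 1 (d 1 p)) * eps p +
      2 * Polynomial.C σ * Polynomial.derivative (eps p)) * eps p = 0 := by
  obtain ⟨hS0, hP0, hb⟩ := sep_ord0 hp hS hq hq0 h
  obtain ⟨ϖ, κ, G, hϖ, hP, hG, hbκ⟩ := exists_G hp hS hq hq0 h hSσ
  have hσ0 : σ ≠ 0 := by
    rintro rfl
    rw [C_0] at hSσ
    exact hS hSσ
  obtain ⟨h3, -, -⟩ := const_step hσ0 hp hSσ hG
  -- `eps(e)' γ = 0`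
  have he : Polynomial.derivative (eps (d (k + 1) q)) * eps p = 0 := by
    rw [eps_symm h (k + 1)]
    have h1 : Polynomial.derivative (eps (d (k + 1) p)) = 0 := by
      rcases Nat.eq_zero_or_pos k with rfl | hk
      · exact hβ
      · rcases Nat.lt_or_ge 1 k with hk1 | hk1
        · rw [hp (k + 1) (by omega), map_zero, map_zero]
        · obtain rfl : k = 1 := by omega
          rw [show (1 + 1 : ℕ) = 2 from rfl, hSσ, eps_C, Polynomial.derivative_C]
    rw [h1, zero_mul]
  have E3 := eq_three hp hq h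
  rw [extra_term hp hS0, ev_ord1 p hb, hP, hSσ] at E3
  have d0S : ∀ j, d j (C σ : A) = 0 := fun j => pderiv_C
  have d0P : ∀ j, d j (C ϖ : A) = 0 := fun j => pderiv_C
  have d0κ : ∀ j, d j (C κ : A) = 0 := fun j => pderiv_C
  simp only [D_C, map_zero, mul_zero, add_zero, sub_zero, zero_add, d0S, zero_mul] at E3
  have hk2 : ∀ j, d j ((k : A) + 2) = 0 := fun j => by
    rw [map_add, d_natCast, d_ofNat, add_zero]
  have c10 : ∀ f : A, d 1 (d 0 f) = d 0 (d 1 f) := fun f => d_comm 1 0 f
  have b1 := congrArg (d 1) hbκ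
  have b0 := congrArg (d 0) hbκ
  simp only [map_add, d_mul, d_two, d_three, d_natCast, d_nk, d0S, d0P, d0κ, mul_zero, add_zero, zero_add,
    zero_mul] at b1 b0
  have b11 := congrArg (d 1) b1
  have b01 := congrArg (d 0) b1
  simp only [map_add, d_mul, d_two, d_three, d_natCast, d_nk, d0S, d0P, d0κ, mul_zero, add_zero, zero_add,
    zero_mul, h3] at b11 b01
  have B0 := congrArg eps b0
  have B1 := congrArg eps b1
  have B01 := congrArg eps b01
  simp only [map_add, map_mul, eps_C, eps_d0, map_natCast, map_ofNat, hβ, mul_zero] at B0 B1 B01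
  have Q1 := congrArg (d 1) E3
  simp only [map_add, map_sub, d_mul, d_two, d_three, d_four, d_six, d_twelve, d_natCast, d_nk,
    hk2, d1_D, d_zero_D, d0S, d0P, c10, map_zero, mul_zero, zero_add, add_zero] at Q1
  have Q2 := congrArg eps Q1
  simp only [map_add, map_sub, map_mul, eps_D, eps_d0, eps_C, map_zero, mul_zero, zero_add,
    add_zero, zero_mul, sub_zero, map_natCast, map_ofNat, hβ, Polynomial.derivative_zero] at Q2
  have hC : (Polynomial.C σ : Polynomial ℝ) ≠ 0 := by rwa [Ne, Polynomial.C_eq_zero]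
  have hCϖ : (Polynomial.C ϖ : Polynomial ℝ) ≠ 0 := by rwa [Ne, Polynomial.C_eq_zero]
  have hn : ((k : Polynomial ℝ) + 3) ≠ 0 := by
    have : ((k + 3 : ℕ) : Polynomial ℝ) ≠ 0 := by exact_mod_cast (by omega : k + 3 ≠ 0)
    push_cast at this
    exact this
  have hbp : Polynomial.derivative (eps (d (k + 2) q)) = 0 := by
    exact (mul_eq_zero.1 B0).resolve_left (mul_ne_zero two_ne_zero hC)
  rw [Polynomial.derivative_add, Polynomial.derivative_mul, Polynomial.derivative_mul,
    Polynomial.derivative_mul, Polynomial.derivative_C, Polynomial.derivative_ofNat]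
  generalize eps (d (k + 2) q) = bb at *
  generalize eps (d 1 (d (k + 2) q)) = b1e at *
  generalize eps (d (k + 1) q) = ee at *
  generalize eps (d 1 (d 1 p)) = r1e at *
  generalize eps (d 1 p) = βe at *
  generalize eps p = γe at *
  rw [hbp] at Q2
  refine (mul_eq_zero.1 ?_).resolve_left
    (mul_ne_zero (by norm_num : (6 : Polynomial ℝ) ≠ 0) (mul_ne_zero hn hCϖ))
  linear_combination γe * (2 * Polynomial.C σ * Q2 - 6 * γe * B01 -
    6 * Polynomial.derivative γe * B1) + 24 * Polynomial.C σ ^ 2 * he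

/-- constant separant: the list -/
theorem case_const (hp : Ord 2 p) (hS : d 2 p ≠ 0) (hq : Ord (k + 3) q) (hq0 : d (k + 3) q ≠ 0)
    (h : ev p q = ev q p) (hS' : d 0 (d 2 p) = 0) :
    ∃ σ : ℝ, σ ≠ 0 ∧
      ((∃ b₁ b₀ : ℝ, b₁ ≠ 0 ∧ p = C σ * X 2 + (C b₁ * X 0 + C b₀) * X 1) ∨
       (∃ b κ g : ℝ, p = C σ * X 2 + C b * X 1 + C κ * X 0 + C g) ∨
       (∃ (α : Polynomial ℝ) (b : ℝ), p = C σ * X 2 + iota α * X 1 ^ 2 + C b * X 1) ∨
       (∃ a b g : ℝ, p = C σ * X 2 + C a * X 1 ^ 2 + C b * X 1 + C g)) := by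
  obtain ⟨hS0, hP0, hb⟩ := sep_ord0 hp hS hq hq0 h
  have hSσ := const_of_ord0 hS0 hS'
  generalize constantCoeff (d 2 p) = σ at hSσ
  have hσ0 : σ ≠ 0 := by
    rintro rfl
    rw [C_0] at hSσ
    exact hS hSσ
  obtain ⟨ϖ, κ, G, hϖ, hP, hG, hbκ⟩ := exists_G hp hS hq hq0 h hSσ
  obtain ⟨h3, hβ2, hβγ⟩ := const_step hσ0 hp hSσ hG
  obtain ⟨hpe, hr1, hr⟩ := structure_p hp hS0 h3
  rw [hSσ] at hpe
  have hCσ : (Polynomial.C σ : Polynomial ℝ) ≠ 0 := by rwa [Ne, Polynomial.C_eq_zero]
  refine ⟨σ, hσ0, ?_⟩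
  by_cases hβ : Polynomial.derivative (eps (d 1 p)) = 0
  · -- `β` constant
    obtain ⟨b, hb⟩ := Polynomial.natDegree_eq_zero.1 (Polynomial.derivative_eq_zero.1 hβ)
    rw [← hb, iota_C] at hpe
    have hr1e : C (1 / 2 : ℝ) * d 1 (d 1 p) =
        iota (Polynomial.C (1 / 2 : ℝ) * eps (d 1 (d 1 p))) := by
      rw [map_mul, iota_C, iota_eps hr1]
    by_cases hγ : eps p = 0
    · right; right; left
      refine ⟨Polynomial.C (1 / 2 : ℝ) * eps (d 1 (d 1 p)), b, ?_⟩
      rw [hγ, map_zero, add_zero, hr1e] at hpe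
      exact hpe
    · have hl := const_last hp hS hq hq0 h hSσ hβ
      have hl2 := (mul_eq_zero.1 hl).resolve_right hγ
      obtain ⟨m, hm⟩ := Polynomial.natDegree_eq_zero.1 (Polynomial.derivative_eq_zero.1 hl2)
      by_cases hr1z : eps (d 1 (d 1 p)) = 0
      · -- linear
        right; left
        rw [hr1z, zero_mul, zero_add] at hm
        have hγ' : Polynomial.derivative (eps p - Polynomial.C (m / (2 * σ)) * Polynomial.X) = 0 := by
          rw [Polynomial.derivative_sub, Polynomial.derivative_mul, Polynomial.derivative_C,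
            Polynomial.derivative_X]
          have h5 : (2 * Polynomial.C σ : Polynomial ℝ) * Polynomial.C (m / (2 * σ)) =
              Polynomial.C m := by
            rw [show (2 : Polynomial ℝ) = Polynomial.C 2 by rw [map_ofNat], ← Polynomial.C_mul,
              ← Polynomial.C_mul]
            congr 1
            field_simp
          refine (mul_eq_zero.1 ?_).resolve_left (mul_ne_zero two_ne_zero hCσ)
          linear_combination -hm - h5
        obtain ⟨g, hg⟩ := Polynomial.natDegree_eq_zero.1 (Polynomial.derivative_eq_zero.1 hγ')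
        refine ⟨b, m / (2 * σ), g, ?_⟩
        have hγv : iota (eps p) = C (m / (2 * σ)) * X 0 + C g := by
          have h6 : eps p = Polynomial.C (m / (2 * σ)) * Polynomial.X + Polynomial.C g := by
            rw [hg]; ring
          rw [h6, map_add, map_mul, iota_C, iota_C, iota_X]
        rw [hγv, hr1e, hr1z, mul_zero, map_zero] at hpe
        linear_combination hpe
      · -- everything constant
        right; right; right
        have hdeg : (eps (d 1 (d 1 p)) * eps p).natDegree = 0 := by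
          by_contra hne
          have h6 : (eps (d 1 (d 1 p)) * eps p).natDegree =
              (eps (d 1 (d 1 p))).natDegree + (eps p).natDegree :=
            Polynomial.natDegree_mul hr1z hγ
          have h7 : (2 * Polynomial.C σ * Polynomial.derivative (eps p)).natDegree ≤
              (eps p).natDegree - 1 := by
            rw [show (2 : Polynomial ℝ) = Polynomial.C 2 by rw [map_ofNat], ← Polynomial.C_mul]
            exact (Polynomial.natDegree_C_mul_le _ _).trans
              (Polynomial.natDegree_derivative_le _)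
          have h8 : (2 * Polynomial.C σ * Polynomial.derivative (eps p)).natDegree <
              (eps (d 1 (d 1 p)) * eps p).natDegree := by omega
          have h9 := Polynomial.natDegree_add_eq_left_of_natDegree_lt h8
          rw [← hm, Polynomial.natDegree_C] at h9
          exact hne h9.symm
        rw [Polynomial.natDegree_mul hr1z hγ] at hdeg
        obtain ⟨a, ha⟩ := Polynomial.natDegree_eq_zero.1
          (show (eps (d 1 (d 1 p))).natDegree = 0 by omega)
        obtain ⟨g, hg⟩ := Polynomial.natDegree_eq_zero.1 (show (eps p).natDegree = 0 by omega)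
        refine ⟨1 / 2 * a, b, g, ?_⟩
        rw [hr1e, ← ha, ← hg, ← Polynomial.C_mul, iota_C, iota_C] at hpe
        exact hpe
  · -- Burgers
    left
    have hγ := (mul_eq_zero.1 hβγ).resolve_left hβ
    have hβ'' : Polynomial.derivative (Polynomial.derivative (eps (d 1 p))) = 0 := by
      by_contra hne
      have h6 : (Polynomial.derivative (eps (d 1 p))) ∣
          2 * Polynomial.C σ * Polynomial.derivative (Polynomial.derivative (eps (d 1 p))) :=
        ⟨eps (d 1 (d 1 p)), by rw [hβ2]; ring⟩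
      have h7 : (2 * Polynomial.C σ *
          Polynomial.derivative (Polynomial.derivative (eps (d 1 p)))) ≠ 0 :=
        mul_ne_zero (mul_ne_zero two_ne_zero hCσ) hne
      have h8 := Polynomial.natDegree_le_of_dvd h6 h7
      have h9 : (2 * Polynomial.C σ *
          Polynomial.derivative (Polynomial.derivative (eps (d 1 p)))).natDegree ≤
          (Polynomial.derivative (Polynomial.derivative (eps (d 1 p)))).natDegree := by
        rw [show (2 : Polynomial ℝ) = Polynomial.C 2 by rw [map_ofNat], ← Polynomial.C_mul]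
        exact Polynomial.natDegree_C_mul_le _ _
      have h10 : (Polynomial.derivative (eps (d 1 p))).natDegree ≠ 0 := by
        intro h0
        exact hne (Polynomial.derivative_eq_zero.2 h0)
      have h11 := Polynomial.natDegree_derivative_lt h10
      omega
    have hr1z : eps (d 1 (d 1 p)) = 0 := by
      rw [hβ'', mul_zero] at hβ2
      exact (mul_eq_zero.1 hβ2.symm).resolve_right hβ
    obtain ⟨b₁, hb₁⟩ := Polynomial.natDegree_eq_zero.1 (Polynomial.derivative_eq_zero.1 hβ'')
    have hb₁0 : b₁ ≠ 0 := by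
      rintro rfl
      rw [Polynomial.C_0] at hb₁
      exact hβ hb₁.symm
    have h12 : Polynomial.derivative (eps (d 1 p) - Polynomial.C b₁ * Polynomial.X) = 0 := by
      rw [Polynomial.derivative_sub, Polynomial.derivative_mul, Polynomial.derivative_C,
        Polynomial.derivative_X, ← hb₁]
      ring
    obtain ⟨b₀, hb₀⟩ := Polynomial.natDegree_eq_zero.1 (Polynomial.derivative_eq_zero.1 h12)
    refine ⟨b₁, b₀, hb₁0, ?_⟩
    have hβv : iota (eps (d 1 p)) = C b₁ * X 0 + C b₀ := by
      have h6 : eps (d 1 p) = Polynomial.C b₁ * Polynomial.X + Polynomial.C b₀ := by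
        rw [hb₀]; ring
      rw [h6, map_add, map_mul, iota_C, iota_C, iota_X]
    have hr1v : d 1 (d 1 p) = 0 := by rw [← iota_eps hr1, hr1z, map_zero]
    rw [hγ, hr1v, hβv, map_zero] at hpe
    linear_combination hpe

end Pool.Agent.Helper90.Evo
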