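import Pool.Agent.Helper90.Evo.Sep2

/-!
# Evaluation at constants (MP_ff793d_mp)

`eps` sets `u_j = 0` for `j ≥ 1`, `iota` embeds polynomials in `u_0`.
-/

set_option autoImplicit false
set_option linter.unusedSimpArgs false

open MvPolynomial

namespace Pool.Agent.Helper90.Evo

/-- evaluation at `u_1 = u_2 = ... = 0` -/
noncomputable def eps : A →ₐ[ℝ] Polynomial ℝ :=
  aeval (fun j : ℕ => if j = 0 then (Polynomial.X : Polynomial ℝ) else 0)

/-- polynomials in `u_0` -/
noncomputable def iota : Polynomial ℝ →ₐ[ℝ] A := Polynomial.aeval (X 0 : A)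

@[simp] theorem eps_X0 : eps (X 0) = Polynomial.X := by simp [eps]

theorem eps_X_succ (j : ℕ) : eps (X (j + 1)) = 0 := by simp [eps]

@[simp] theorem eps_C (r : ℝ) : eps (C r) = Polynomial.C r := by
  simp [eps]

@[simp] theorem eps_D (f : A) : eps (D f) = 0 := by
  obtain ⟨n, hn⟩ := exists_ord f
  rw [D_eq_range hn, map_sum]
  refine Finset.sum_eq_zero ?_
  intro i _
  rw [map_mul, eps_X_succ, mul_zero]

theorem eps_d0 (f : A) : eps (d 0 f) = Polynomial.derivative (eps f) := by
  induction f using MvPolynomial.induction_on with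
  | C a => simp
  | add p q hp hq => rw [map_add, map_add, map_add, map_add, hp, hq]
  | mul_X p i hp =>
    rw [d_mul, map_add, map_mul, map_mul, map_mul, Polynomial.derivative_mul, hp]
    by_cases hi : i = 0
    · subst hi
      rw [pderiv_X_self, eps_X0]
      simp
      ring
    · obtain ⟨j, rfl⟩ : ∃ j, i = j + 1 := ⟨i - 1, by omega⟩
      rw [pderiv_X_of_ne (by omega), eps_X_succ]
      simp

theorem eps_iter_succ (n : ℕ) (f : A) : eps ((⇑D)^[n + 1] f) = 0 := by
  rw [iter_succ, eps_D]

theorem eps_ev (p f : A) : eps (ev p f) = Polynomial.derivative (eps f) * eps p := by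
  obtain ⟨n, hn⟩ := exists_ord f
  rw [ev_eq_range p hn, map_sum, Finset.sum_range_succ', Finset.sum_eq_zero]
  · rw [map_mul, zero_add, eps_d0]; rfl
  · intro i _
    rw [map_mul, eps_iter_succ, mul_zero]

@[simp] theorem iota_C (r : ℝ) : iota (Polynomial.C r) = C r := by
  simp [iota]

@[simp] theorem iota_X : iota Polynomial.X = X 0 := by simp [iota]

@[simp] theorem eps_iota (f : Polynomial ℝ) : eps (iota f) = f := by
  induction f using Polynomial.induction_on' with
  | add p q hp hq => rw [map_add, map_add, hp, hq]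
  | monomial n a =>
    rw [← Polynomial.C_mul_X_pow_eq_monomial, map_mul, map_mul, map_pow, map_pow, iota_C, iota_X,
      eps_C, eps_X0]

theorem ord_iota (f : Polynomial ℝ) : Ord 0 (iota f) := by
  induction f using Polynomial.induction_on' with
  | add p q hp hq => rw [map_add]; exact hp.add hq
  | monomial n a =>
    rw [← Polynomial.C_mul_X_pow_eq_monomial, map_mul, map_pow, iota_C, iota_X]
    exact (ord_C a 0).mul ((ord_X 0).pow n)

theorem iota_eps {f : A} (hf : Ord 0 f) : iota (eps f) = f := by
  have h : (iota.comp eps : A →ₐ[ℝ] A) f = (AlgHom.id ℝ A) f := by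
    have h1 : f ∈ supported ℝ ({0} : Set ℕ) := by
      rw [mem_supported]
      intro i hi
      by_contra h
      have hi0 : i ≠ 0 := by simpa using h
      exact hf.notMem (Nat.pos_of_ne_zero hi0) (by simpa using hi)
    have h2 : ∀ g ∈ supported ℝ ({0} : Set ℕ), (iota.comp eps : A →ₐ[ℝ] A) g =
        (AlgHom.id ℝ A) g := by
      intro g hg
      have h3 : supported ℝ ({0} : Set ℕ) ≤ AlgHom.equalizer (iota.comp eps) (AlgHom.id ℝ A) := by
        rw [supported]
        refine Algebra.adjoin_le ?_
        rintro _ ⟨i, hi, rfl⟩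
        have hi0 : i = 0 := by simpa using hi
        subst hi0
        show (iota.comp eps : A →ₐ[ℝ] A) (X 0) = (AlgHom.id ℝ A) (X 0)
        simp
      exact h3 hg
    exact h2 f h1
  simpa using h

theorem d0_iota (f : Polynomial ℝ) : d 0 (iota f) = iota (Polynomial.derivative f) := by
  have h : Ord 0 (d 0 (iota f)) := (ord_iota f).d 0
  rw [← iota_eps h, eps_d0, eps_iota]

theorem D_iota (f : Polynomial ℝ) : D (iota f) = iota (Polynomial.derivative f) * X 1 := by
  rw [D_ord0 (ord_iota f), d0_iota]

theorem eps_injective {f g : A} (hf : Ord 0 f) (hg : Ord 0 g) (h : eps f = eps g) : f = g := by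
  rw [← iota_eps hf, ← iota_eps hg, h]

/-- `eps` of `∂_j D^i f` -/
theorem eps_d_iter (i j : ℕ) (f : A) :
    eps (d j ((⇑D)^[i] f)) = if i ≤ j then eps (d (j - i) f) else 0 := by
  induction i generalizing j with
  | zero => simp
  | succ i ih =>
    rw [iter_succ]
    cases j with
    | zero =>
      rw [d_zero_D, eps_D]
      simp
    | succ j =>
      rw [d_succ_D, map_add, eps_D, zero_add, ih]
      simp [Nat.succ_le_succ_iff]

/-- The symmetry condition on the linearisations at constants. -/
theorem eps_symm {p q : A} (h : ev p q = ev q p) (j : ℕ) :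
    Polynomial.derivative (eps (d j q)) * eps p =
      Polynomial.derivative (eps (d j p)) * eps q := by
  have key : ∀ p q : A, eps (d j (ev p q)) = Polynomial.derivative (eps (d j q)) * eps p +
      ∑ i ∈ Finset.range (j + 1), eps (d i q) * eps (d (j - i) p) := by
    intro p q
    obtain ⟨n, hn⟩ := exists_ord q
    have hn' : Ord (n + j) q := hn.mono (by omega)
    rw [d_ev j p hn', map_add, eps_ev, map_sum]
    congr 1
    have h1 : ∀ i ∈ Finset.range (n + j + 1), i ∉ Finset.range (j + 1) →
        eps (d i q * d j ((⇑D)^[i] p)) = 0 := by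
      intro i _ hi
      rw [Finset.mem_range, not_lt] at hi
      rw [map_mul, eps_d_iter, if_neg (by omega), mul_zero]
    rw [← Finset.sum_subset (Finset.range_subset_range.2 (by omega)) h1]
    refine Finset.sum_congr rfl ?_
    intro i hi
    rw [Finset.mem_range] at hi
    rw [map_mul, eps_d_iter, if_pos (by omega)]
  have h1 := congrArg (fun f => eps (d j f)) h
  simp only [key] at h1
  have h2 : ∑ i ∈ Finset.range (j + 1), eps (d i q) * eps (d (j - i) p) =
      ∑ i ∈ Finset.range (j + 1), eps (d i p) * eps (d (j - i) q) := by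
    rw [← Finset.sum_range_reflect (fun i => eps (d i p) * eps (d (j - i) q)) (j + 1)]
    refine Finset.sum_congr rfl ?_
    intro i hi
    rw [Finset.mem_range] at hi
    rw [show j + 1 - 1 - i = j - i by omega, show j - (j - i) = i by omega, mul_comm]
  rw [h2] at h1
  exact add_right_cancel h1

end Pool.Agent.Helper90.Evo
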