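import Pool.Agent.Helper90.Evo.Basic

/-!
# The first three symmetry conditions for a second order `p` (MP_ff793d_mp)
-/

set_option autoImplicit false

open MvPolynomial

namespace Pool.Agent.Helper90.Evo

theorem D_natCast_mul (m : ℕ) (f : A) : D ((m : A) * f) = (m : A) * D f := by
  rw [D_mul, Derivation.map_natCast]; ring

theorem D_ofNat_mul (m : ℕ) [m.AtLeastTwo] (f : A) :
    D ((OfNat.ofNat m : A) * f) = (OfNat.ofNat m : A) * D f := by
  have h := D_natCast_mul (OfNat.ofNat m) f
  simpa using h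

theorem it_zero {p : A} (hp : Ord 2 p) (m j : ℕ) (h : m + 2 < j) : d j ((⇑D)^[m] p) = 0 :=
  hp.iter m j (by omega)

theorem it_top {p : A} (hp : Ord 2 p) (m : ℕ) : d (m + 2) ((⇑D)^[m] p) = d 2 p := by
  induction m with
  | zero => rfl
  | succ m ih =>
    rw [iter_succ, d_succ_D, it_zero hp m (m + 2 + 1) (by omega), map_zero, zero_add, ih]

theorem it_b {p : A} (hp : Ord 2 p) (m : ℕ) :
    d (m + 1) ((⇑D)^[m] p) = (m : A) * D (d 2 p) + d 1 p := by
  induction m with
  | zero => simp
  | succ m ih =>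
    rw [iter_succ, d_succ_D, it_top hp, ih]
    push_cast
    ring

theorem it_c {p : A} (hp : Ord 2 p) (m : ℕ) :
    2 * d m ((⇑D)^[m] p) =
      (m : A) * ((m : A) - 1) * D (D (d 2 p)) + 2 * (m : A) * D (d 1 p) + 2 * d 0 p := by
  induction m with
  | zero => simp
  | succ m ih =>
    rw [iter_succ, d_succ_D, it_b hp, map_add, D_natCast_mul, mul_add, ih]
    push_cast
    ring

theorem it_e {p : A} (hp : Ord 2 p) (m : ℕ) :
    6 * d m ((⇑D)^[m + 1] p) =
      ((m : A) + 1) * (m : A) * ((m : A) - 1) * D (D (D (d 2 p))) +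
        3 * ((m : A) + 1) * (m : A) * D (D (d 1 p)) + 6 * ((m : A) + 1) * D (d 0 p) := by
  induction m with
  | zero => simp [d_zero_D]
  | succ m ih =>
    rw [iter_succ, d_succ_D, mul_add, ih]
    have h := it_c hp (m + 1)
    have h2 : 2 * D (d (m + 1) ((⇑D)^[m + 1] p)) =
        ((m : A) + 1) * (m : A) * D (D (D (d 2 p))) + 2 * ((m : A) + 1) * D (D (d 1 p)) +
          2 * D (d 0 p) := by
      have h3 := congrArg D h
      have e1 : ∀ f : A, D (2 * f) = 2 * D f := fun f => by
        rw [D_mul]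
        have : D (2 : A) = 0 := by
          have := D.map_natCast 2
          simpa using this
        rw [this]; ring
      have e2 : ∀ f : A, D (((m + 1 : ℕ) : A) * (((m + 1 : ℕ) : A) - 1) * f) =
          ((m : A) + 1) * (m : A) * D f := fun f => by
        have : (((m + 1 : ℕ) : A) - 1) = ((m : ℕ) : A) := by push_cast; ring
        rw [this, mul_assoc, D_natCast_mul, D_natCast_mul]
        push_cast
        ring
      rw [map_add, map_add, e1, e1, e2, mul_assoc 2, e1, D_natCast_mul] at h3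
      rw [h3]
      push_cast
      ring
    push_cast at h2 ⊢
    linear_combination 3 * h2

section
variable {k : ℕ} {p q : A}

theorem dD1 (hq : Ord (k + 3) q) : d (k + 4) (D q) = d (k + 3) q := by
  rw [d_succ_D, hq _ (by omega), map_zero, zero_add]

theorem dD2 (hq : Ord (k + 3) q) : d (k + 5) (D (D q)) = d (k + 3) q := by
  rw [d_succ_D, hq.D _ (by omega), map_zero, zero_add, dD1 hq]

theorem dD3 (hq : Ord (k + 3) q) : d (k + 4) (D (D q)) = 2 * D (d (k + 3) q) + d (k + 2) q := by
  rw [d_succ_D, dD1 hq, d_succ_D]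
  ring

theorem dD4 : d (k + 3) (D (D q)) =
    D (D (d (k + 3) q)) + 2 * D (d (k + 2) q) + d (k + 1) q := by
  rw [d_succ_D, d_succ_D, d_succ_D, map_add]
  ring

theorem dD5 : d (k + 2) (D (D q)) =
    D (D (d (k + 2) q)) + 2 * D (d (k + 1) q) + d k q := by
  rw [d_succ_D, d_succ_D, d_succ_D, map_add]
  ring

/-- first symmetry condition -/
theorem eq_one (hp : Ord 2 p) (hq : Ord (k + 3) q) (h : ev p q = ev q p) :
    ((k : A) + 3) * d (k + 3) q * D (d 2 p) = 2 * d 2 p * D (d (k + 3) q) := by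
  have h1 := congrArg (d (k + 4)) h
  rw [d_ev (k + 4) p hq, ev_ord2 q hp, Finset.sum_range_succ, Finset.sum_range_succ,
    Finset.sum_eq_zero] at h1
  · rw [hq (k + 4) (by omega), map_zero, map_add, map_add, d_mul, d_mul, d_mul,
      (hp.d 0) (k + 4) (by omega), (hp.d 1) (k + 4) (by omega), (hp.d 2) (k + 4) (by omega),
      hq (k + 4) (by omega), dD1 hq, dD3 hq, it_top hp (k + 2), it_b hp (k + 3)] at h1
    push_cast at h1
    linear_combination h1
  · intro i hi
    rw [Finset.mem_range] at hi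
    rw [it_zero hp i (k + 4) (by omega), mul_zero]

/-- second symmetry condition -/
theorem eq_two (hp : Ord 2 p) (hq : Ord (k + 3) q) (h : ev p q = ev q p) :
    2 * ev p (d (k + 3) q) + d (k + 3) q * (2 * ((k : A) + 3) * D (d 1 p) +
        ((k : A) + 3) * ((k : A) + 2) * D (D (d 2 p))) +
      2 * ((k : A) + 2) * d (k + 2) q * D (d 2 p) - 2 * d 2 p * D (D (d (k + 3) q)) -
      4 * d 2 p * D (d (k + 2) q) - 2 * d 1 p * D (d (k + 3) q) = 0 := by
  have h1 := congrArg (d (k + 3)) h
  rw [d_ev (k + 3) p hq, ev_ord2 q hp, Finset.sum_range_succ, Finset.sum_range_succ,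
    Finset.sum_range_succ, Finset.sum_eq_zero] at h1
  · have hc := it_c hp (k + 3)
    rw [map_add, map_add, d_mul, d_mul, d_mul,
      (hp.d 0) (k + 3) (by omega), (hp.d 1) (k + 3) (by omega), (hp.d 2) (k + 3) (by omega),
      d_succ_D (k + 2) q, dD4, it_top hp (k + 1), it_b hp (k + 2)] at h1
    push_cast at h1 hc
    linear_combination 2 * h1 - d (k + 3) q * hc
  · intro i hi
    rw [Finset.mem_range] at hi
    rw [it_zero hp i (k + 3) (by omega), mul_zero]

/-- third symmetry condition -/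
theorem eq_three (hp : Ord 2 p) (hq : Ord (k + 3) q) (h : ev p q = ev q p) :
    6 * ev p (d (k + 2) q) + d (k + 3) q * (6 * ((k : A) + 3) * D (d 0 p) +
        3 * ((k : A) + 3) * ((k : A) + 2) * D (D (d 1 p)) +
        ((k : A) + 3) * ((k : A) + 2) * ((k : A) + 1) * D (D (D (d 2 p)))) +
      d (k + 2) q * (6 * ((k : A) + 2) * D (d 1 p) +
        3 * ((k : A) + 2) * ((k : A) + 1) * D (D (d 2 p))) +
      6 * ((k : A) + 1) * d (k + 1) q * D (d 2 p) - 6 * d 2 p * D (D (d (k + 2) q)) -
      12 * d 2 p * D (d (k + 1) q) - 6 * d 1 p * D (d (k + 2) q) -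
      6 * (d (k + 2) (d 2 p) * D (D q) + d (k + 2) (d 1 p) * D q + d (k + 2) (d 0 p) * q)
        = 0 := by
  have h1 := congrArg (d (k + 2)) h
  rw [d_ev (k + 2) p hq, ev_ord2 q hp, Finset.sum_range_succ, Finset.sum_range_succ,
    Finset.sum_range_succ, Finset.sum_range_succ, Finset.sum_eq_zero] at h1
  · have hc := it_c hp (k + 2)
    have he := it_e hp (k + 2)
    rw [map_add, map_add, d_mul, d_mul, d_mul,
      d_succ_D (k + 1) q, dD5, it_top hp k, it_b hp (k + 1)] at h1
    push_cast at h1 hc he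
    linear_combination 6 * h1 - 3 * d (k + 2) q * hc - d (k + 3) q * he
  · intro i hi
    rw [Finset.mem_range] at hi
    rw [it_zero hp i (k + 2) (by omega), mul_zero]

end

end Pool.Agent.Helper90.Evo
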