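import Pool.Agent.Helper90.Evo.Hier

/-!
# The Burgers hierarchy and the hierarchies of `σ u_2 + α(u_0) u_1^2` (MP_ff793d_mp)
-/

set_option autoImplicit false
set_option linter.unusedSimpArgs false

open MvPolynomial

namespace Pool.Agent.Helper90.Evo

/-- the polynomials `(D + z)^n 1` -/
noncomputable def BZ (z : A) : ℕ → A
  | 0 => 1
  | n + 1 => D (BZ z n) + z * BZ z n

theorem BZ_comm {z : A} {c : ℝ} (hz : ∀ p : A, ev p z = C c * p) {μ : ℝ} (hμ : c * μ = 1)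
    (n m : ℕ) : ev (C μ * D (BZ z n)) (BZ z m) = BZ z (n + m) - BZ z n * BZ z m := by
  induction m with
  | zero =>
    have h1 : ∀ p : A, ev p (1 : A) = 0 := fun p => (ev p).map_one_eq_zero
    rw [BZ, h1]
    simp
  | succ m ih =>
    have hz' : ev (C μ * D (BZ z n)) z = D (BZ z n) := by
      rw [hz, ← mul_assoc, ← C_mul, hμ, C_1, one_mul]
    rw [show BZ z (m + 1) = D (BZ z m) + z * BZ z m from rfl, map_add, ev_mul, ev_D, ih, hz',
      map_sub, D_mul, show n + (m + 1) = (n + m) + 1 from rfl,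
      show BZ z ((n + m) + 1) = D (BZ z (n + m)) + z * BZ z (n + m) from rfl]
    ring

theorem hier_burgers {σ b₁ b₀ : ℝ} (hσ : σ ≠ 0) (hb : b₁ ≠ 0) :
    ∃ H, Hier (C σ * X 2 + (C b₁ * X 0 + C b₀) * X 1) H := by
  set z : A := C (b₁ / (2 * σ)) * X 0 + C (b₀ / (2 * σ)) with hz
  have hc : b₁ / (2 * σ) ≠ 0 := div_ne_zero hb (by positivity)
  set μ : ℝ := (b₁ / (2 * σ))⁻¹ with hμ
  have hcμ : b₁ / (2 * σ) * μ = 1 := mul_inv_cancel₀ hc
  have hev : ∀ p : A, ev p z = C (b₁ / (2 * σ)) * p := by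
    intro p
    rw [hz, map_add, ev_C_mul, ev_C, ev_X0, add_zero]
  have hDz : D z = C (b₁ / (2 * σ)) * X 1 := by
    rw [hz, map_add, D_C_mul, D_C, D_X, add_zero]
  have hd0 : ∀ (r : ℝ) (j : ℕ), d j (C r : A) = 0 := fun r j => pderiv_C
  have hzo : Ord 0 z := by
    intro j hj
    rw [hz, map_add, d_mul, hd0, hd0, pderiv_X_of_ne (by omega)]; ring
  have hz0 : d 0 z = C (b₁ / (2 * σ)) := by
    rw [hz, map_add, d_mul, hd0, hd0, pderiv_X_self]; ring
  set p : A := C σ * X 2 + (C b₁ * X 0 + C b₀) * X 1 with hp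
  have hpd : ∀ i, d i p = C σ * d i (X 2) + (C b₁ * X 0 + C b₀) * d i (X 1) +
      X 1 * (C b₁ * d i (X 0)) := by
    intro i
    rw [hp, map_add, d_mul, d_mul, map_add, d_mul, hd0, hd0, hd0]; ring
  have hpo : Ord 2 p := by
    intro j hj
    rw [hpd, pderiv_X_of_ne (by omega), pderiv_X_of_ne (by omega), pderiv_X_of_ne (by omega)]
    ring
  have hS : d 2 p = C σ := by
    rw [hpd, pderiv_X_self, pderiv_X_of_ne (by omega), pderiv_X_of_ne (by omega)]
    ring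
  have hp0 : d 0 p = C b₁ * X 1 := by
    rw [hpd, pderiv_X_self, pderiv_X_of_ne (by omega), pderiv_X_of_ne (by omega)]
    ring
  have hp1 : d 1 p = C b₁ * X 0 + C b₀ := by
    rw [hpd, pderiv_X_self, pderiv_X_of_ne (by omega), pderiv_X_of_ne (by omega)]
    ring
  have hCb : (C b₁ : A) ≠ 0 := by rwa [Ne, C_eq_zero]
  have hCσ : (C σ : A) ≠ 0 := by rwa [Ne, C_eq_zero]
  have hlin : ¬ Lin p := by
    intro h
    obtain ⟨c, hc⟩ := h 1
    have h1 := congrArg (d 0) hc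
    rw [hp1, map_add, d_mul, hd0, hd0, hd0, pderiv_X_self] at h1
    exact hCb (by linear_combination h1)
  have e2 : (2 * C σ : A) * z = C b₁ * X 0 + C b₀ := by
    have h2 : (2 * C σ : A) = C (2 * σ) := by rw [C_mul, map_ofNat]
    rw [h2, hz, mul_add, ← mul_assoc, ← C_mul, ← C_mul]
    congr 2
    · congr 1; field_simp
    · congr 1; field_simp
  have eμ : (C μ * C (b₁ / (2 * σ)) : A) = 1 := by rw [← C_mul, mul_comm, hcμ, C_1]
  have hpH : p = C σ * (C μ * D (BZ z 2)) := by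
    have h1 : BZ z 2 = D z + z * z := by
      show D (D 1 + z * 1) + z * (D 1 + z * 1) = _
      rw [D_one]
      simp
    rw [h1, map_add, D_mul, hDz, D_C_mul, D_X, hp]
    linear_combination (-X 1) * e2 - (C σ * X 2 + 2 * C σ * z * X 1) * eμ
  have hord : ∀ n, Ord n (BZ z (n + 1)) ∧ d n (BZ z (n + 1)) = C (b₁ / (2 * σ)) := by
    intro n
    induction n with
    | zero =>
      have h1 : BZ z 1 = z := by
        show D 1 + z * 1 = z
        rw [D_one]; ring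
      rw [h1]
      exact ⟨hzo, hz0⟩
    | succ n ih =>
      obtain ⟨h1, h2⟩ := ih
      rw [show BZ z (n + 1 + 1) = D (BZ z (n + 1)) + z * BZ z (n + 1) from rfl]
      refine ⟨h1.D.add ((hzo.mono (by omega)).mul (h1.mono (by omega))), ?_⟩
      rw [map_add, d_mul, h1.d_D, h2, h1 (n + 1) (by omega), hzo (n + 1) (by omega)]
      ring
  have hHord : ∀ n, Ord (n + 1) (C μ * D (BZ z (n + 1))) ∧
      d (n + 1) (C μ * D (BZ z (n + 1))) = 1 := by
    intro n
    obtain ⟨h1, h2⟩ := hord n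
    refine ⟨(ord_C μ _).mul h1.D, ?_⟩
    rw [d_mul, hd0, h1.d_D, h2, eμ]; ring
  have hcomm : ∀ n m : ℕ, ev (C μ * D (BZ z n)) (C μ * D (BZ z m)) =
      ev (C μ * D (BZ z m)) (C μ * D (BZ z n)) := by
    intro n m
    rw [ev_C_mul, ev_C_mul, ev_D, ev_D, BZ_comm hev hcμ, BZ_comm hev hcμ, add_comm m n,
      mul_comm (BZ z m)]
  refine ⟨{e | ∃ n : ℕ, e = C μ * D (BZ z (n + 1))}, ?_⟩
  constructor
  · rintro e ⟨n, rfl⟩
    rw [hpH, ev_C_mul, ev_C_mul_left σ, hcomm]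
  · rintro e ⟨n, rfl⟩ e' ⟨m, rfl⟩
    exact hcomm _ _
  · intro m q hq hq0 hpq
    obtain ⟨c, hc⟩ := lead_const hσ hpo hS hq hpq
    obtain ⟨h1, h2⟩ := hHord (m + 1)
    exact ⟨_, ⟨m + 1, rfl⟩, h1, c, by rw [hc, h2, mul_one]⟩
  · exact base_of hpo (by rw [hS]; exact hCσ) hlin (Or.inl (by
      rw [hp0]
      exact mul_ne_zero hCb (X_ne_zero 1)))
  · intro K
    obtain ⟨h1, h2⟩ := hHord K
    refine ⟨_, ⟨K, rfl⟩, K + 1, by omega, ?_⟩
    rw [h2]
    exact one_ne_zero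

/-- the hierarchy `(D + a u_1)^n u_1` -/
noncomputable def YZ (a : A) : ℕ → A
  | 0 => X 1
  | n + 1 => D (YZ a n) + a * X 1 * YZ a n

theorem YZ_comm {a : A} (ha : Ord 0 a) (n m : ℕ) :
    ev (YZ a n) (YZ a m) = YZ a (n + m + 1) - a * YZ a n * YZ a m := by
  induction m with
  | zero =>
    rw [show YZ a 0 = X 1 from rfl, ev_X1, show n + 0 + 1 = n + 1 from rfl,
      show YZ a (n + 1) = D (YZ a n) + a * X 1 * YZ a n from rfl]
    ring
  | succ m ih =>
    rw [show YZ a (m + 1) = D (YZ a m) + a * X 1 * YZ a m from rfl, map_add, ev_mul, ev_mul, ev_D,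
      ih, ev_X1, map_sub, D_mul, D_mul, ev_ord0 _ ha, D_ord0 ha,
      show n + (m + 1) + 1 = (n + m + 1) + 1 from rfl,
      show YZ a ((n + m + 1) + 1) = D (YZ a (n + m + 1)) + a * X 1 * YZ a (n + m + 1) from rfl]
    ring

/-- the hierarchy of `σ u_2 + σ a u_1^2 + b u_1 + g`, `a` a polynomial in `u_0`, nonzero, and `g = 0` or
`a` constant -/
theorem hier_Y {σ b g : ℝ} {a : A} (hσ : σ ≠ 0) (ha : Ord 0 a) (ha0 : a ≠ 0)
    (hg : g = 0 ∨ d 0 a = 0) :
    ∃ H, Hier (C σ * X 2 + C σ * a * X 1 ^ 2 + C b * X 1 + C g) H := by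
  have hd0 : ∀ (r : ℝ) (j : ℕ), d j (C r : A) = 0 := fun r j => pderiv_C
  set p : A := C σ * X 2 + C σ * a * X 1 ^ 2 + C b * X 1 + C g with hp
  have hCσ : (C σ : A) ≠ 0 := by rwa [Ne, C_eq_zero]
  have hpd : ∀ i, d i p = C σ * d i (X 2) + C σ * X 1 ^ 2 * d i a + 2 * C σ * a * X 1 * d i (X 1) +
      C b * d i (X 1) := by
    intro i
    rw [hp, map_add, map_add, map_add, d_mul, d_mul, d_mul, d_mul, pow_two, d_mul, hd0, hd0, hd0]
    ring
  have hpo : Ord 2 p := by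
    intro j hj
    rw [hpd, pderiv_X_of_ne (by omega), pderiv_X_of_ne (by omega), ha j (by omega)]
    ring
  have hS : d 2 p = C σ := by
    rw [hpd, pderiv_X_self, pderiv_X_of_ne (by omega), ha 2 (by omega)]
    ring
  have hp0 : d 0 p = C σ * X 1 ^ 2 * d 0 a := by
    rw [hpd, pderiv_X_of_ne (by omega), pderiv_X_of_ne (by omega)]
    ring
  have hp1 : d 1 p = 2 * C σ * a * X 1 + C b := by
    rw [hpd, pderiv_X_self, pderiv_X_of_ne (by omega), ha 1 (by omega)]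
    ring
  have hlin : ¬ Lin p := by
    intro h
    obtain ⟨c, hc⟩ := h 1
    have h1 := congrArg (d 1) hc
    rw [hp1, map_add, d_mul, d_mul, d_mul, hd0, hd0, hd0, pderiv_X_self, ha 1 (by omega),
      d_two] at h1
    have h2 : (2 * C σ) * a = 0 := by linear_combination h1
    exact ha0 ((mul_eq_zero.1 h2).resolve_left (mul_ne_zero two_ne_zero hCσ))
  have hord : ∀ n, Ord (n + 1) (YZ a n) ∧ d (n + 1) (YZ a n) = 1 := by
    intro n
    induction n with
    | zero => exact ⟨ord_X 1, pderiv_X_self 1⟩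
    | succ n ih =>
      obtain ⟨h1, h2⟩ := ih
      rw [show YZ a (n + 1) = D (YZ a n) + a * X 1 * YZ a n from rfl]
      refine ⟨h1.D.add (((ha.mono (by omega)).mul ((ord_X 1).mono (by omega))).mul
        (h1.mono (by omega))), ?_⟩
      rw [map_add, d_mul, h1.d_D, h2, h1 (n + 1 + 1) (by omega), d_mul,
        ha (n + 1 + 1) (by omega), pderiv_X_of_ne (by omega)]
      ring
  have hcomm : ∀ n m : ℕ, ev (YZ a n) (YZ a m) = ev (YZ a m) (YZ a n) := by
    intro n m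
    rw [YZ_comm ha, YZ_comm ha, add_comm m n]
    ring
  have hpH : p = C σ * YZ a 1 + C b * X 1 + C g * 1 := by
    rw [show YZ a 1 = D (X 1) + a * X 1 * X 1 from rfl, D_X, hp]
    ring
  have hd0Y : d 0 a = 0 → ∀ n, d 0 (YZ a n) = 0 := by
    intro h0 n
    induction n with
    | zero =>
      show d 0 (X 1 : A) = 0
      rw [pderiv_X_of_ne (by omega)]
    | succ n ih =>
      rw [show YZ a (n + 1) = D (YZ a n) + a * X 1 * YZ a n from rfl, map_add, d_zero_D, ih,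
        d_mul, ih, d_mul, h0, pderiv_X_of_ne (by omega), map_zero]
      ring
  refine ⟨{e | ∃ n : ℕ, e = YZ a n}, ?_⟩
  constructor
  · rintro e ⟨n, rfl⟩
    rw [hpH, map_add, map_add, ev_C_mul, ev_C_mul, ev_C_mul, ev_add_left, ev_add_left,
      ev_C_mul_left, ev_C_mul_left, ev_C_mul_left, ev_X1_left, ev_one_left, ev_X1, hcomm n 1,
      (ev (YZ a n)).map_one_eq_zero]
    rcases hg with rfl | hg
    · rw [C_0]; ring
    · rw [hd0Y hg]
  · rintro e ⟨n, rfl⟩ e' ⟨m, rfl⟩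
    exact hcomm _ _
  · intro m q hq hq0 hpq
    obtain ⟨c, hc⟩ := lead_const hσ hpo hS hq hpq
    obtain ⟨h1, h2⟩ := hord (m + 1)
    exact ⟨_, ⟨m + 1, rfl⟩, h1, c, by rw [hc, h2, mul_one]⟩
  · refine base_of hpo (by rw [hS]; exact hCσ) hlin ?_
    by_cases h0 : d 0 a = 0
    · right
      rintro e ⟨n, rfl⟩
      exact hd0Y h0 n
    · left
      rw [hp0]
      exact mul_ne_zero (mul_ne_zero hCσ (pow_ne_zero 2 (X_ne_zero 1))) h0
  · intro K
    obtain ⟨h1, h2⟩ := hord K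
    refine ⟨_, ⟨K, rfl⟩, K + 1, by omega, ?_⟩
    rw [h2]
    exact one_ne_zero

end Pool.Agent.Helper90.Evo
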