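import Pool.Agent.Helper90.Evo.HierM

/-!
# The hierarchies with nonconstant separant, conclusion (MP_ff793d_mp)
-/

set_option autoImplicit false
set_option linter.unusedSimpArgs false

open MvPolynomial

namespace Pool.Agent.Helper90.Evo

open Polynomial in
theorem poly_homog2 {t : ℝ[X]} {a : ℝ} {K : ℕ} (ht : t ≠ 0)
    (h : 2 * ((Polynomial.X - Polynomial.C a) * derivative t) = (K : ℝ[X]) * t) :
    ∃ (M : ℕ) (c : ℝ), 2 * M = K ∧ t = Polynomial.C c * (Polynomial.X - Polynomial.C a) ^ M := by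
  rcases Nat.even_or_odd' K with ⟨M, hM | hM⟩
  · refine ⟨M, ?_⟩
    have h1 : (Polynomial.X - Polynomial.C a) * derivative t = (M : ℝ[X]) * t := by
      refine mul_left_cancel₀ (two_ne_zero : (2 : ℝ[X]) ≠ 0) ?_
      rw [h, hM]
      push_cast
      ring
    obtain ⟨c, hc⟩ := poly_homog h1
    exact ⟨c, hM.symm, hc⟩
  · exfalso
    set w := t.comp (Polynomial.X + Polynomial.C a) with hw
    have h1 : 2 * (Polynomial.X * derivative w) = (K : ℝ[X]) * w := by
      have h2 := congrArg (fun f => f.comp (Polynomial.X + Polynomial.C a)) h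
      simp only [mul_comp, sub_comp, X_comp, C_comp, natCast_comp, ofNat_comp] at h2
      have hdw : derivative w = (derivative t).comp (Polynomial.X + Polynomial.C a) := by
        rw [hw, derivative_comp]
        simp
      have h3 : (Polynomial.X + Polynomial.C a - Polynomial.C a : ℝ[X]) = Polynomial.X := by ring
      rw [h3] at h2
      rw [hdw]
      exact h2
    have h2 : w = 0 := by
      ext i
      have h3 := congrArg (fun f => Polynomial.coeff f i) h1
      have e2 : (2 : ℝ[X]) = Polynomial.C 2 := by rw [map_ofNat]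
      rw [← C_eq_natCast, e2] at h3
      simp only [Polynomial.coeff_C_mul] at h3
      rw [Polynomial.coeff_zero]
      have hK : (K : ℝ) = 2 * (M : ℝ) + 1 := by rw [hM]; push_cast; ring
      cases i with
      | zero =>
        rw [mul_coeff_zero, coeff_X_zero, zero_mul, mul_zero] at h3
        have : (K : ℝ) ≠ 0 := by rw [hK]; positivity
        exact (mul_eq_zero.1 h3.symm).resolve_left this
      | succ i =>
        rw [Polynomial.coeff_X_mul, coeff_derivative] at h3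
        have h4 : (2 : ℝ) * ((i : ℝ) + 1) - (K : ℝ) ≠ 0 := by
          rw [hK]
          intro h0
          have h5 : ((2 * (i + 1) : ℕ) : ℝ) = ((2 * M + 1 : ℕ) : ℝ) := by
            push_cast
            linarith
          have h6 := Nat.cast_injective h5
          omega
        have h5 : (2 * ((i : ℝ) + 1) - (K : ℝ)) * w.coeff (i + 1) = 0 := by
          linear_combination h3
        exact (mul_eq_zero.1 h5).resolve_left h4
    have h4 : t = w.comp (Polynomial.X - Polynomial.C a) := by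
      rw [hw, comp_assoc]
      simp
    rw [h2, zero_comp] at h4
    exact ht h4

section
variable {r : ℝ}

theorem w_facts (r : ℝ) : (∀ p : A, ev p (X 0 - C r) = p) ∧ D (X 0 - C r : A) = X 1 ∧
    Ord 0 (X 0 - C r : A) ∧ d 0 (X 0 - C r : A) = 1 := by
  refine ⟨?_, ?_, ?_, ?_⟩
  · intro p; rw [map_sub, ev_C, ev_X0, sub_zero]
  · rw [map_sub, D_C, D_X, sub_zero]
  · intro j hj
    have h1 : d j (C r : A) = 0 := pderiv_C
    rw [map_sub, h1, pderiv_X_of_ne (by omega), sub_zero]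
  · have h1 : d 0 (C r : A) = 0 := pderiv_C
    rw [map_sub, h1, pderiv_X_self, sub_zero]

theorem d0_pow {w : A} (hw : d 0 w = 1) (n : ℕ) : d 0 (w ^ (n + 1)) = ((n : A) + 1) * w ^ n := by
  rw [Derivation.leibniz_pow, hw]
  simp only [Nat.add_sub_cancel, nsmul_eq_mul, smul_eq_mul]
  push_cast
  ring

theorem w_mul_d0_pow {w : A} (hw : d 0 w = 1) (n : ℕ) : w * d 0 (w ^ n) = (n : A) * w ^ n := by
  cases n with
  | zero => simp
  | succ n => rw [d0_pow hw]; push_cast; ring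

/-- leading coefficients of symmetries -/
theorem lead_K {p q : A} {m N : ℕ} {c : ℝ} (hc : c ≠ 0) (hp : Ord 2 p)
    (hS : d 2 p = C c * (X 0 - C r) ^ N) (hq : Ord (m + 2) q) (hq0 : d (m + 2) q ≠ 0)
    (h : ev p q = ev q p) :
    ∃ (M : ℕ) (e : ℝ), 2 * M = (m + 2) * N ∧ d (m + 2) q = C e * (X 0 - C r) ^ M := by
  obtain ⟨-, -, hw0, hw1⟩ := w_facts r
  have hX : (X 0 - C r : A) ≠ 0 := by
    intro h0
    rw [h0, map_zero] at hw1
    exact zero_ne_one hw1
  have hCc : (C c : A) ≠ 0 := by rwa [Ne, C_eq_zero]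
  have hSne : d 2 p ≠ 0 := by rw [hS]; exact mul_ne_zero hCc (pow_ne_zero _ hX)
  have hSo : Ord 0 (d 2 p) := by rw [hS]; exact (ord_C c 0).mul (hw0.pow N)
  have hP0 : Ord 0 (d (m + 2) q) := by
    intro j hj
    have h1 := rel_one' hp hSne hq h j
    rw [hSo j hj, mul_zero] at h1
    exact (mul_eq_zero.1 h1.symm).resolve_left (mul_ne_zero two_ne_zero hSne)
  have h1 := rel_one' hp hSne hq h 0
  have h2 : (2 * d 2 p) * (2 * ((X 0 - C r) * d 0 (d (m + 2) q)) -
      (((m : A) + 2) * (N : A)) * d (m + 2) q) = 0 := by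
    have h3 : (X 0 - C r) * d 0 (d 2 p) = (N : A) * d 2 p := by
      have h4 : d 0 (C c : A) = 0 := pderiv_C
      rw [hS, d_mul, h4]
      linear_combination C c * w_mul_d0_pow hw1 N
    linear_combination -2 * (X 0 - C r) * h1 + 2 * ((m : A) + 2) * d (m + 2) q * h3
  have h3 := (mul_eq_zero.1 h2).resolve_left (mul_ne_zero two_ne_zero hSne)
  have h4 := congrArg eps h3
  simp only [map_sub, map_mul, map_add, map_ofNat, map_natCast, eps_X0, eps_C, eps_d0,
    map_zero] at h4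
  have hπ : eps (d (m + 2) q) ≠ 0 := by
    intro h0
    apply hq0
    rw [← iota_eps hP0, h0, map_zero]
  obtain ⟨M, e, hM, he⟩ := poly_homog2 (K := (m + 2) * N) hπ (by
    push_cast
    linear_combination h4)
  refine ⟨M, e, hM, ?_⟩
  rw [← iota_eps hP0, he]
  simp only [map_mul, map_pow, map_sub, iota_C, iota_X]

/-- the elements with nonconstant separant are not linear, and depend on `u_0` -/
theorem core_facts {N : ℕ} {c a b : ℝ} (hc : c ≠ 0) :
    let p : A := C c * ((X 0 - C r) ^ (N + 1) * X 2 +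
      C ((((N + 1 : ℕ) : ℝ)) / 2 - 1) * (X 0 - C r) ^ N * X 1 ^ 2 +
      C a * (X 0 - C r) ^ (N + 1) * X 1) + C b * X 1
    Ord 2 p ∧ d 2 p = C c * (X 0 - C r) ^ (N + 1) ∧ ¬ Lin p ∧ d 0 p ≠ 0 := by
  intro p
  obtain ⟨-, -, hw0, hw1⟩ := w_facts r
  have hX : (X 0 - C r : A) ≠ 0 := by
    intro h0
    rw [h0, map_zero] at hw1
    exact zero_ne_one hw1
  have hCc : (C c : A) ≠ 0 := by rwa [Ne, C_eq_zero]
  have hd0 : ∀ (r : ℝ) (j : ℕ), d j (C r : A) = 0 := fun r j => pderiv_C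
  have hwp : ∀ n j, 0 < j → d j ((X 0 - C r : A) ^ n) = 0 := fun n j hj => hw0.pow n j hj
  have hp2 : Ord 2 p := by
    refine (((ord_C c 2).mul ((((hw0.mono (by omega)).pow _).mul (ord_X 2)).add
      (((ord_C _ 2).mul ((hw0.mono (by omega)).pow _)).mul
        (((ord_X 1).mono (by omega)).pow 2)) |>.add
      (((ord_C a 2).mul ((hw0.mono (by omega)).pow _)).mul ((ord_X 1).mono (by omega))))).add
      ((ord_C b 2).mul ((ord_X 1).mono (by omega))))
  have hS : d 2 p = C c * (X 0 - C r) ^ (N + 1) := by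
    simp only [p, map_add, d_mul, hd0, hwp _ 2 (by omega), pow_two, pderiv_X_self,
      pderiv_X_of_ne (show (1 : ℕ) ≠ 2 by omega)]
    ring
  have h02 : d 0 (d 2 p) ≠ 0 := by
    rw [hS, d_mul, hd0, d0_pow hw1, mul_zero, add_zero]
    refine mul_ne_zero hCc (mul_ne_zero ?_ (pow_ne_zero _ hX))
    have : ((N + 1 : ℕ) : A) ≠ 0 := by exact_mod_cast (by omega : N + 1 ≠ 0)
    push_cast at this
    exact this
  refine ⟨hp2, hS, ?_, ?_⟩
  · intro h
    obtain ⟨e, he⟩ := h 2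
    apply h02
    rw [he]
    exact hd0 e 0
  · intro h
    apply h02
    rw [d_comm, h, map_zero]

/-- even case -/
theorem hier_even {M : ℕ} {c a b : ℝ} (hc : c ≠ 0) :
    ∃ H, Hier (C c * ((X 0 - C r) ^ (2 * M + 1 + 1) * X 2 +
      C ((((2 * M + 1 + 1 : ℕ) : ℝ)) / 2 - 1) * (X 0 - C r) ^ (2 * M + 1) * X 1 ^ 2 +
      C a * (X 0 - C r) ^ (2 * M + 1 + 1) * X 1) + C b * X 1) H := by
  obtain ⟨hp2, hS, hlin, hp0⟩ := core_facts (r := r) (N := 2 * M + 1) (a := a) (b := b) hc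
  obtain ⟨hev, hDw, hw0, hw1⟩ := w_facts r
  have hX : (X 0 - C r : A) ≠ 0 := by
    intro h0
    rw [h0, map_zero] at hw1
    exact zero_ne_one hw1
  have hCc : (C c : A) ≠ 0 := by rwa [Ne, C_eq_zero]
  have hd0 : ∀ (r : ℝ) (j : ℕ), d j (C r : A) = 0 := fun r j => pderiv_C
  have hlK := fun (m : ℕ) (q : A) (h1 : Ord (m + 2) q) (h2 : d (m + 2) q ≠ 0)
    (h3 : ev _ q = ev q _) => lead_K (r := r) hc hp2 hS h1 h2 h3
  generalize (X 0 - C r : A) = w at *
  set p : A := C c * (w ^ (2 * M + 1 + 1) * X 2 +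
      C ((((2 * M + 1 + 1 : ℕ) : ℝ)) / 2 - 1) * w ^ (2 * M + 1) * X 1 ^ 2 +
      C a * w ^ (2 * M + 1 + 1) * X 1) + C b * X 1 with hp
  set R : A := w ^ (M + 1) with hR
  set μ : ℝ := 1 / ((M : ℝ) + 1) with hμ
  have hM1 : ((M : ℝ) + 1) ≠ 0 := by positivity
  have eμ : (C μ : A) * ((M : A) + 1) = 1 := by
    have h1 : ((M : A) + 1) = C ((M : ℝ) + 1) := by rw [C_add, map_natCast, C_1]
    rw [h1, ← C_mul, hμ]
    have h2 : 1 / ((M : ℝ) + 1) * ((M : ℝ) + 1) = 1 := by field_simp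
    rw [h2, C_1]
  have hRo : Ord 0 R := hw0.pow _
  have hR' : d 0 R = ((M : A) + 1) * w ^ M := d0_pow hw1 M
  have hwR : C μ * w * d 0 R = R := by
    rw [hR', hR]
    linear_combination w ^ (M + 1) * eμ
  have hstep : ∀ n, KK R a (n + 1) = D (R * KK R a n) + C a * (R * KK R a n) := fun n => rfl
  have hk1 : KK R a 1 = D R + C a * R := by
    show D (R * 1) + C a * (R * 1) = _
    rw [mul_one]
  -- the element itself
  have hpF : p = C c * KF w R a μ 1 + C b * X 1 := by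
    have hDR : D R = ((M : A) + 1) * w ^ M * X 1 := by rw [D_ord0 hRo, hR']
    have hwT : w * D (w ^ M) = (M : A) * w ^ M * X 1 := by
      rw [D_ord0 (hw0.pow M), ← mul_assoc, w_mul_d0_pow hw1]
    have h2 : KF w R a μ 1 = w ^ (2 * M + 1 + 1) * X 2 +
        (M : A) * w ^ (2 * M + 1) * X 1 ^ 2 + C a * w ^ (2 * M + 1 + 1) * X 1 := by
      rw [KF, hstep 1, hk1, D_mul, map_add, D_C_mul, hDR, D_mul, D_mul, D_X, map_add, D_natCast,
        D_one, hR, C_mul]
      have h3 : w ^ (2 * M + 1 + 1) = w * w * (w ^ M * w ^ M) := by ring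
      have h4 : w ^ (2 * M + 1) = w * (w ^ M * w ^ M) := by ring
      rw [h3, h4, pow_succ w M]
      generalize w ^ M = T at *
      generalize (C μ : A) = μ' at *
      generalize (C a : A) = a' at *
      generalize D T = DT at *
      generalize (M : A) = m' at *
      linear_combination (μ' * (m' + 1) * w * T * X 1) * hwT +
        (w * w * T * T * X 2 + (2 * m' + 1) * w * T * T * X 1 ^ 2 + 2 * a' * w * w * T * T * X 1)
          * eμ
    have h5 : (C ((((2 * M + 1 + 1 : ℕ) : ℝ)) / 2 - 1) : A) = (M : A) := by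
      have : (((2 * M + 1 + 1 : ℕ) : ℝ)) / 2 - 1 = ((M : ℕ) : ℝ) := by push_cast; ring
      rw [this, map_natCast]
    rw [hp, h2, h5]
  have hlead : ∀ i, Ord (i + 1) (KK R a (i + 1)) ∧
      C μ * w * d (i + 1) (KK R a (i + 1)) = R ^ (i + 1) := by
    intro i
    induction i with
    | zero =>
      rw [hk1]
      refine ⟨hRo.D.add ((ord_C a 1).mul (hRo.mono (by omega))), ?_⟩
      rw [map_add, d_mul, hRo 1 (by omega), hd0, hRo.d_D]
      linear_combination hwR
    | succ i ih =>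
      obtain ⟨h1, h2⟩ := ih
      have h3 : Ord (i + 1) (R * KK R a (i + 1)) := (hRo.mono (by omega)).mul h1
      rw [hstep (i + 1)]
      refine ⟨h3.D.add ((ord_C a _).mul (h3.mono (by omega))), ?_⟩
      rw [map_add, d_mul, h3 (i + 1 + 1) (by omega), hd0, h3.d_D, d_mul, hRo (i + 1) (by omega)]
      linear_combination R * h2
  have hF : ∀ i, Ord (i + 2) (KF w R a μ (i + 1)) ∧
      d (i + 2) (KF w R a μ (i + 1)) = R ^ (i + 2) := by
    intro i
    obtain ⟨h1, h2⟩ := hlead (i + 1)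
    obtain ⟨h3, -⟩ := hlead i
    have h4 : Ord (i + 1) (R * KK R a (i + 1)) := (hRo.mono (by omega)).mul h3
    have h5 : Ord (i + 1) (X 1 + C (μ * a) * w) :=
      ((ord_X 1).mono (by omega)).add ((ord_C _ _).mul (hw0.mono (by omega)))
    refine ⟨(((ord_C μ _).mul (hw0.mono (by omega))).mul h1).sub
      ((h5.mul h4).mono (by omega)), ?_⟩
    rw [KF, map_sub, (h5.mul h4) (i + 2) (by omega), d_mul, d_mul, hd0, hw0 (i + 2) (by omega)]
    linear_combination h2
  refine ⟨{e | ∃ i : ℕ, e = KF w R a μ (i + 1)}, ?_⟩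
  constructor
  · rintro e ⟨i, rfl⟩
    rw [hpF, map_add, ev_C_mul, ev_C_mul, ev_add_left, ev_C_mul_left, ev_C_mul_left, ev_X1_left,
      ev_X1, KF_symm hev hRo hwR (i + 1) 1]
  · rintro e ⟨i, rfl⟩ e' ⟨j, rfl⟩
    exact KF_symm hev hRo hwR _ _
  · intro m q hq hq0 hpq
    obtain ⟨M', e, hM', he⟩ := hlK m q hq hq0 hpq
    have h1 : M' = (M + 1) * (m + 2) := by
      have h2 : 2 * M' = 2 * ((M + 1) * (m + 2)) := by rw [hM']; ring
      omega
    obtain ⟨h3, h4⟩ := hF m
    refine ⟨_, ⟨m, rfl⟩, h3, e, ?_⟩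
    rw [he, h4, h1, pow_mul]
  · exact base_of hp2 (by rw [hS]; exact mul_ne_zero hCc (pow_ne_zero _ hX)) hlin (Or.inl hp0)
  · intro K
    obtain ⟨h1, h2⟩ := hF K
    refine ⟨_, ⟨K, rfl⟩, K + 2, by omega, ?_⟩
    rw [h2]
    exact pow_ne_zero _ (pow_ne_zero _ hX)

/-- odd case -/
theorem hier_odd {N : ℕ} {c a b : ℝ} (hc : c ≠ 0) (hN : ¬ 2 ∣ (N + 1)) :
    ∃ H, Hier (C c * ((X 0 - C r) ^ (N + 1) * X 2 +
      C ((((N + 1 : ℕ) : ℝ)) / 2 - 1) * (X 0 - C r) ^ N * X 1 ^ 2 +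
      C a * (X 0 - C r) ^ (N + 1) * X 1) + C b * X 1) H := by
  obtain ⟨hp2, hS, hlin, hp0⟩ := core_facts (r := r) (N := N) (a := a) (b := b) hc
  obtain ⟨hev, hDw, hw0, hw1⟩ := w_facts r
  have hX : (X 0 - C r : A) ≠ 0 := by
    intro h0
    rw [h0, map_zero] at hw1
    exact zero_ne_one hw1
  have hCc : (C c : A) ≠ 0 := by rwa [Ne, C_eq_zero]
  have hd0 : ∀ (r : ℝ) (j : ℕ), d j (C r : A) = 0 := fun r j => pderiv_C
  have hlK := fun (m : ℕ) (q : A) (h1 : Ord (m + 2) q) (h2 : d (m + 2) q ≠ 0)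
    (h3 : ev _ q = ev q _) => lead_K (r := r) hc hp2 hS h1 h2 h3
  generalize (X 0 - C r : A) = w at *
  set p : A := C c * (w ^ (N + 1) * X 2 +
      C ((((N + 1 : ℕ) : ℝ)) / 2 - 1) * w ^ N * X 1 ^ 2 +
      C a * w ^ (N + 1) * X 1) + C b * X 1 with hp
  set R : A := w ^ (N + 1) with hR
  set ν : ℝ := 2 / ((N : ℝ) + 1) with hν
  have hN1 : ((N : ℝ) + 1) ≠ 0 := by positivity
  have eν : (C ν : A) * ((N : A) + 1) = 2 := by
    have h1 : ((N : A) + 1) = C ((N : ℝ) + 1) := by rw [C_add, map_natCast, C_1]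
    rw [h1, ← C_mul, hν]
    have h2 : 2 / ((N : ℝ) + 1) * ((N : ℝ) + 1) = 2 := by field_simp
    rw [h2, map_ofNat]
  have hh := half_add
  have hRo : Ord 0 R := hw0.pow _
  have hR' : d 0 R = ((N : A) + 1) * w ^ N := d0_pow hw1 N
  have hwR : C ν * w * d 0 R = 2 * R := by
    rw [hR', hR]
    linear_combination w ^ (N + 1) * eν
  have hstep : ∀ n, MM R a (n + 1) = D (nn R a (MM R a n)) + C a * nn R a (MM R a n) :=
    fun n => rfl
  have hn1 : nn R a (MM R a 0) = C a * R + C (1 / 2 : ℝ) * D R := by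
    show R * (D 1 + C a * 1) + C (1 / 2 : ℝ) * D R * 1 = _
    rw [D_one]; ring
  -- the element itself
  have hpF : p = C c * MF w R a ν 0 + C b * X 1 := by
    have hDR : D R = ((N : A) + 1) * w ^ N * X 1 := by rw [D_ord0 hRo, hR']
    have hwT : w * D (w ^ N) = (N : A) * w ^ N * X 1 := by
      rw [D_ord0 (hw0.pow N), ← mul_assoc, w_mul_d0_pow hw1]
    have h2 : MF w R a ν 0 = w ^ (N + 1) * X 2 +
        (C (1 / 2 : ℝ) * ((N : A) + 1) - 1) * w ^ N * X 1 ^ 2 + C a * w ^ (N + 1) * X 1 := by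
      rw [MF, hstep 0, hn1, map_add, D_C_mul, D_C_mul, hDR, D_mul, D_mul, D_X, map_add,
        D_natCast, D_one, hR, C_mul]
      have h3 : w ^ (N + 1) = w * w ^ N := by ring
      rw [h3]
      generalize w ^ N = T at *
      generalize (C ν : A) = μ' at *
      generalize (C a : A) = a' at *
      generalize (C (1 / 2 : ℝ) : A) = h' at *
      generalize D T = DT at *
      generalize (N : A) = m' at *
      linear_combination (a' * w * T * X 1 + h' * w * T * X 2 + h' * X 1 * w * DT) * eν +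
        2 * h' * X 1 * hwT + (w * T * X 2 - T * X 1 ^ 2) * hh
    have h5 : (C ((((N + 1 : ℕ) : ℝ)) / 2 - 1) : A) = C (1 / 2 : ℝ) * ((N : A) + 1) - 1 := by
      have : (((N + 1 : ℕ) : ℝ)) / 2 - 1 = 1 / 2 * (((N : ℕ) : ℝ) + 1) - 1 := by push_cast; ring
      rw [this, C_sub, C_mul, C_add, map_natCast, C_1]
    rw [hp, h2, h5]
  have hlead : ∀ i, Ord (2 * i + 1) (nn R a (MM R a i)) ∧ Ord (2 * i + 2) (MM R a (i + 1)) ∧
      C ν * w * d (2 * i + 2) (MM R a (i + 1)) = R ^ (i + 1) := by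
    intro i
    induction i with
    | zero =>
      have h1 : Ord 1 (nn R a (MM R a 0)) := by
        rw [hn1]
        exact ((ord_C a 1).mul (hRo.mono (by omega))).add ((ord_C _ 1).mul hRo.D)
      refine ⟨h1, ?_, ?_⟩
      · rw [hstep 0]
        exact h1.D.add ((ord_C a 2).mul (h1.mono (by omega)))
      · show C ν * w * d 2 (MM R a (0 + 1)) = _
        have h2 : d 1 (nn R a (MM R a 0)) = C (1 / 2 : ℝ) * d 0 R := by
          rw [hn1, map_add, d_mul, d_mul, hRo 1 (by omega), hd0, hd0, hRo.d_D]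
          ring
        rw [hstep 0, map_add, d_mul, h1 2 (by omega), hd0, h1.d_D, h2]
        linear_combination C (1 / 2 : ℝ) * hwR + R * hh
    | succ i ih =>
      obtain ⟨-, h1, h2⟩ := ih
      have h3 : Ord (2 * i + 3) (nn R a (MM R a (i + 1))) := by
        rw [nn]
        exact (((hRo.mono (by omega)).mul (h1.D.add ((ord_C a _).mul (h1.mono (by omega)))))).add
          (((ord_C _ _).mul (hRo.D.mono (by omega))).mul (h1.mono (by omega)))
      have h4 : d (2 * i + 3) (nn R a (MM R a (i + 1))) = R * d (2 * i + 2) (MM R a (i + 1)) := by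
        have h5 : d (2 * i + 3) (D R) = 0 := hRo.D _ (by omega)
        rw [nn, map_add, d_mul, d_mul, d_mul, map_add, d_mul, h1 (2 * i + 3) (by omega), hd0, hd0,
          hRo (2 * i + 3) (by omega), h5, h1.d_D]
        ring
      refine ⟨h3, ?_, ?_⟩
      · rw [hstep (i + 1)]
        exact h3.D.add ((ord_C a _).mul (h3.mono (by omega)))
      · show C ν * w * d (2 * i + 4) (MM R a (i + 1 + 1)) = _
        rw [hstep (i + 1), map_add, d_mul, h3 (2 * i + 4) (by omega), hd0, h3.d_D, h4]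
        linear_combination R * h2
  have hF : ∀ i, Ord (2 * i + 2) (MF w R a ν i) ∧
      d (2 * i + 2) (MF w R a ν i) = R ^ (i + 1) := by
    intro i
    obtain ⟨h1, h2, h3⟩ := hlead i
    have h5 : Ord (2 * i + 1) (X 1 + C (ν * a) * w) :=
      ((ord_X 1).mono (by omega)).add ((ord_C _ _).mul (hw0.mono (by omega)))
    refine ⟨(((ord_C ν _).mul (hw0.mono (by omega))).mul h2).sub
      ((h5.mul h1).mono (by omega)), ?_⟩
    rw [MF, map_sub, (h5.mul h1) (2 * i + 2) (by omega), d_mul, d_mul, hd0,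
      hw0 (2 * i + 2) (by omega)]
    linear_combination h3
  refine ⟨{e | ∃ i : ℕ, e = MF w R a ν i}, ?_⟩
  constructor
  · rintro e ⟨i, rfl⟩
    rw [hpF, map_add, ev_C_mul, ev_C_mul, ev_add_left, ev_C_mul_left, ev_C_mul_left, ev_X1_left,
      ev_X1, MF_symm hev hRo hwR i 0]
  · rintro e ⟨i, rfl⟩ e' ⟨j, rfl⟩
    exact MF_symm hev hRo hwR _ _
  · intro m q hq hq0 hpq
    obtain ⟨M', e, hM', he⟩ := hlK m q hq hq0 hpq
    have h0 : 2 ∣ (m + 2) := by
      have h1 : 2 ∣ (m + 2) * (N + 1) := ⟨M', hM'.symm⟩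
      exact (Nat.Prime.dvd_mul Nat.prime_two).1 h1 |>.resolve_right hN
    obtain ⟨l, hl⟩ : ∃ l, m + 2 = 2 * l + 2 := by
      obtain ⟨t, ht⟩ := h0
      exact ⟨t - 1, by omega⟩
    have h1 : M' = (N + 1) * (l + 1) := by
      have h2 : 2 * M' = 2 * ((N + 1) * (l + 1)) := by rw [hM', hl]; ring
      omega
    obtain ⟨h3, h4⟩ := hF l
    refine ⟨_, ⟨l, rfl⟩, by rw [hl]; exact h3, e, ?_⟩
    rw [he, hl, h4, h1, pow_mul]
  · exact base_of hp2 (by rw [hS]; exact mul_ne_zero hCc (pow_ne_zero _ hX)) hlin (Or.inl hp0)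
  · intro K
    obtain ⟨h1, h2⟩ := hF K
    refine ⟨_, ⟨K, rfl⟩, 2 * K + 2, by omega, ?_⟩
    rw [h2]
    exact pow_ne_zero _ (pow_ne_zero _ hX)

end

end Pool.Agent.Helper90.Evo
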