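import Pool.Agent.Helper90.Evo.Cls4
import Pool.Agent.Helper90.Evo.HierB
import Pool.Agent.Helper90.Evo.HierN

/-!
# The order two theorem (MP_ff793d_mp)
-/

set_option autoImplicit false
set_option linter.unusedSimpArgs false

open MvPolynomial

namespace Pool.Agent.Helper90.Evo

/-- The four families of second order elements (written without normalisation). -/
inductive Listed : A → Prop
  | lin (σ b κ g : ℝ) (hσ : σ ≠ 0) : Listed (C σ * X 2 + C b * X 1 + C κ * X 0 + C g)
  | burgers (σ b₁ b₀ : ℝ) (hσ : σ ≠ 0) (hb : b₁ ≠ 0) :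
      Listed (C σ * X 2 + (C b₁ * X 0 + C b₀) * X 1)
  | point (σ b : ℝ) (α : Polynomial ℝ) (hσ : σ ≠ 0) :
      Listed (C σ * X 2 + Polynomial.aeval (X 0) α * X 1 ^ 2 + C b * X 1)
  | pointc (σ a b g : ℝ) (hσ : σ ≠ 0) :
      Listed (C σ * X 2 + C a * X 1 ^ 2 + C b * X 1 + C g)
  | power (N : ℕ) (c r a b : ℝ) (hN : 1 ≤ N) (hc : c ≠ 0) :
      Listed (C c * ((X 0 - C r) ^ N * X 2 + C ((N : ℝ) / 2 - 1) * (X 0 - C r) ^ (N - 1) * X 1 ^ 2 +
        C a * (X 0 - C r) ^ N * X 1) + C b * X 1)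

theorem Listed.of_symmetry {k : ℕ} {p q : A} (hp : Ord 2 p) (hS : d 2 p ≠ 0)
    (hq : Ord (k + 3) q) (hq0 : d (k + 3) q ≠ 0) (h : ev p q = ev q p) : Listed p := by
  by_cases hS' : d 0 (d 2 p) = 0
  · obtain ⟨σ, hσ, h1⟩ := case_const hp hS hq hq0 h hS'
    rcases h1 with ⟨b₁, b₀, hb, rfl⟩ | ⟨b, κ, g, rfl⟩ | ⟨α, b, rfl⟩ | ⟨a, b, g, rfl⟩
    · exact Listed.burgers σ b₁ b₀ hσ hb
    · exact Listed.lin σ b κ g hσ
    · exact Listed.point σ b α hσ
    · exact Listed.pointc σ a b g hσ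
  · obtain ⟨N, c, r, a, b, hN, hc, rfl⟩ := case_K hp hS hq hq0 h hS'
    exact Listed.power N c r a b hN hc

theorem Listed.hier {p : A} (h : Listed p) : ∃ H, Hier p H := by
  cases h with
  | lin σ b κ g hσ => exact ⟨_, hier_lin hσ⟩
  | burgers σ b₁ b₀ hσ hb => exact hier_burgers hσ hb
  | point σ b α hσ =>
    by_cases hα : α = 0
    · subst hα
      obtain h1 := hier_lin (σ := σ) (b := b) (κ := 0) (g := 0) hσ
      refine ⟨{e | ∃ j : ℕ, e = X (j + 1)}, ?_⟩
      have h2 : (C σ * X 2 + Polynomial.aeval (X 0) (0 : Polynomial ℝ) * X 1 ^ 2 + C b * X 1 : A)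
            = C σ * X 2 + C b * X 1 + C 0 * X 0 + C 0 := by
        rw [map_zero, C_0]; ring
      rw [h2]
      exact h1
    · have ha : Ord 0 (C σ⁻¹ * iota α) := (ord_C _ 0).mul (ord_iota α)
      have ha0 : C σ⁻¹ * iota α ≠ 0 := by
        refine mul_ne_zero (by rw [Ne, C_eq_zero]; exact inv_ne_zero hσ) ?_
        intro h0
        apply hα
        rw [← eps_iota α, h0, map_zero]
      obtain ⟨H, hH⟩ := hier_Y (σ := σ) (b := b) (g := 0) hσ ha ha0 (Or.inl rfl)
      refine ⟨H, ?_⟩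
      have h2 : (C σ * X 2 + Polynomial.aeval (X 0) α * X 1 ^ 2 + C b * X 1 : A)
          = C σ * X 2 + C σ * (C σ⁻¹ * iota α) * X 1 ^ 2 + C b * X 1 + C 0 := by
        rw [← mul_assoc (C σ) (C σ⁻¹) (iota α), ← C_mul, mul_inv_cancel₀ hσ, C_1, one_mul, C_0,
          add_zero]
        rfl
      rw [h2]
      exact hH
  | pointc σ a b g hσ =>
    by_cases ha : a = 0
    · subst ha
      obtain h1 := hier_lin (σ := σ) (b := b) (κ := 0) (g := g) hσ
      refine ⟨{e | ∃ j : ℕ, e = X (j + 1)}, ?_⟩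
      have h2 : (C σ * X 2 + C 0 * X 1 ^ 2 + C b * X 1 + C g : A)
            = C σ * X 2 + C b * X 1 + C 0 * X 0 + C g := by
        rw [C_0]; ring
      rw [h2]
      exact h1
    · have hao : Ord 0 (C (σ⁻¹ * a)) := ord_C _ 0
      have ha0 : (C (σ⁻¹ * a) : A) ≠ 0 := by
        rw [Ne, C_eq_zero]
        exact mul_ne_zero (inv_ne_zero hσ) ha
      obtain ⟨H, hH⟩ := hier_Y (σ := σ) (b := b) (g := g) hσ hao ha0 (Or.inr pderiv_C)
      refine ⟨H, ?_⟩
      have h2 : (C σ * X 2 + C a * X 1 ^ 2 + C b * X 1 + C g : A)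
          = C σ * X 2 + C σ * C (σ⁻¹ * a) * X 1 ^ 2 + C b * X 1 + C g := by
        rw [← C_mul, mul_inv_cancel_left₀ hσ]
      rw [h2]
      exact hH
  | power N c r a b hN hc =>
    obtain ⟨N, rfl⟩ : ∃ M, N = M + 1 := ⟨N - 1, by omega⟩
    rw [Nat.add_sub_cancel]
    by_cases h2 : 2 ∣ (N + 1)
    · obtain ⟨M, hM⟩ : ∃ M, N = 2 * M + 1 := by
        obtain ⟨t, ht⟩ := h2
        exact ⟨t - 1, by omega⟩
      subst hM
      exact hier_even hc
    · exact hier_odd hc h2

theorem Listed.ord {p : A} (h : Listed p) : Ord 2 p ∧ d 2 p ≠ 0 := by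
  have hd0 : ∀ (r : ℝ) (j : ℕ), d j (C r : A) = 0 := fun r j => pderiv_C
  cases h with
  | lin σ b κ g hσ =>
    refine ⟨((((ord_C _ _).mul (ord_X 2)).add ((ord_C _ _).mul ((ord_X 1).mono (by omega)))).add
      ((ord_C _ _).mul ((ord_X 0).mono (by omega)))).add (ord_C _ _), ?_⟩
    rw [map_add, map_add, map_add, d_mul, d_mul, d_mul, hd0, hd0, hd0, hd0, pderiv_X_self,
      pderiv_X_of_ne (by omega), pderiv_X_of_ne (by omega)]
    have : (C σ * 1 + X 2 * 0 + (C b * 0 + X 1 * 0) + (C κ * 0 + X 0 * 0) + 0 : A) = C σ := by ring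
    rw [this, Ne, C_eq_zero]
    exact hσ
  | burgers σ b₁ b₀ hσ hb =>
    refine ⟨((ord_C _ _).mul (ord_X 2)).add ((((ord_C _ _).mul ((ord_X 0).mono (by omega))).add
      (ord_C _ _)).mul ((ord_X 1).mono (by omega))), ?_⟩
    rw [map_add, d_mul, d_mul, map_add, d_mul, hd0, hd0, hd0, pderiv_X_self,
      pderiv_X_of_ne (by omega), pderiv_X_of_ne (by omega)]
    have : (C σ * 1 + X 2 * 0 + ((C b₁ * X 0 + C b₀) * 0 + X 1 * (C b₁ * 0 + X 0 * 0 + 0)) : A) =
      C σ := by ring
    rw [this, Ne, C_eq_zero]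
    exact hσ
  | point σ b α hσ =>
    have hα : Ord 0 (Polynomial.aeval (X 0 : A) α) := ord_iota α
    refine ⟨(((ord_C _ _).mul (ord_X 2)).add ((hα.mono (by omega)).mul
      (((ord_X 1).mono (by omega)).pow 2))).add ((ord_C _ _).mul ((ord_X 1).mono (by omega))), ?_⟩
    rw [map_add, map_add, d_mul, d_mul, d_mul, pow_two, d_mul, hd0, hd0, hα 2 (by omega),
      pderiv_X_self, pderiv_X_of_ne (by omega)]
    intro h
    apply hσ
    rw [← C_eq_zero (σ := ℕ) (R := ℝ)]
    linear_combination h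
  | pointc σ a b g hσ =>
    refine ⟨((((ord_C _ _).mul (ord_X 2)).add ((ord_C _ _).mul
      (((ord_X 1).mono (by omega)).pow 2))).add ((ord_C _ _).mul
        ((ord_X 1).mono (by omega)))).add (ord_C _ _), ?_⟩
    rw [map_add, map_add, map_add, d_mul, d_mul, d_mul, pow_two, d_mul, hd0, hd0, hd0, hd0,
      pderiv_X_self, pderiv_X_of_ne (by omega)]
    intro h
    apply hσ
    rw [← C_eq_zero (σ := ℕ) (R := ℝ)]
    linear_combination h
  | power N c r a b hN hc =>
    obtain ⟨N, rfl⟩ : ∃ M, N = M + 1 := ⟨N - 1, by omega⟩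
    rw [Nat.add_sub_cancel]
    obtain ⟨h1, h2, -, -⟩ := core_facts (r := r) (N := N) (a := a) (b := b) hc
    obtain ⟨-, -, -, hw1⟩ := w_facts r
    have hX : (X 0 - C r : A) ≠ 0 := by
      intro h0
      rw [h0, map_zero] at hw1
      exact zero_ne_one hw1
    refine ⟨h1, ?_⟩
    rw [h2]
    exact mul_ne_zero (by rwa [Ne, C_eq_zero]) (pow_ne_zero _ hX)

/-- composite partial derivatives -/
noncomputable def dl (l : List ℕ) (f : A) : A := l.foldr (fun i x => d i x) f

theorem dl_ratio {S T : A} (hS : S ≠ 0) (h : ∀ i, S * d i T = T * d i S) (l : List ℕ) :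
    S * dl l T = T * dl l S := by
  induction l with
  | nil => show S * T = T * S; ring
  | cons i l ih =>
    show S * d i (dl l T) = T * d i (dl l S)
    have h1 := congrArg (d i) ih
    rw [d_mul, d_mul] at h1
    have h2 : S * (dl l T * d i S - dl l S * d i T) = 0 := by
      linear_combination d i S * ih - dl l S * h i
    have h3 := (mul_eq_zero.1 h2).resolve_left hS
    linear_combination h1 - h3

theorem exists_dl (k : ℕ) : ∀ S : A, S ≠ 0 → Ord k S → ∃ (l : List ℕ) (c : ℝ), c ≠ 0 ∧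
    dl l S = C c := by
  have hrep : ∀ (i n : ℕ) (S : A), (⇑(d i))^[n] S = dl (List.replicate n i) S := by
    intro i n S
    induction n with
    | zero => rfl
    | succ n ih =>
      rw [Function.iterate_succ_apply', ih]
      rfl
  have happ : ∀ (l l' : List ℕ) (S : A), dl l (dl l' S) = dl (l ++ l') S := by
    intro l l' S
    simp [dl, List.foldr_append]
  induction k with
  | zero =>
    intro S hS hSo
    obtain ⟨n, hn, hn1⟩ := exists_last 0 hS
    have h1 : (⇑(d 0))^[n] S = C (constantCoeff ((⇑(d 0))^[n] S)) := by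
      apply eq_C_of_d
      intro j
      rcases Nat.eq_zero_or_pos j with rfl | hj
      · rw [← Function.iterate_succ_apply' (⇑(d 0)) n S]
        exact hn1
      · exact hSo.iter_d 0 n j hj
    refine ⟨List.replicate n 0, _, ?_, by rw [← hrep]; exact h1⟩
    intro h0
    rw [h0, C_0] at h1
    exact hn h1
  | succ k ih =>
    intro S hS hSo
    obtain ⟨n, hn, hn1⟩ := exists_last (k + 1) hS
    obtain ⟨l, c, hc, hl⟩ := ih ((⇑(d (k + 1)))^[n] S) hn (by
      intro j hj
      rcases Nat.lt_or_ge (k + 1) j with h1 | h1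
      · exact hSo.iter_d (k + 1) n j h1
      · obtain rfl : j = k + 1 := by omega
        rw [← Function.iterate_succ_apply' (⇑(d (k + 1))) n S]
        exact hn1)
    refine ⟨l ++ List.replicate n (k + 1), c, hc, ?_⟩
    rw [← happ, ← hrep, hl]

theorem ratio_const {S T : A} (hS : S ≠ 0) (h : ∀ i, S * d i T = T * d i S) :
    ∃ c : ℝ, T = C c * S := by
  obtain ⟨k, hk⟩ := exists_ord S
  obtain ⟨l, c, hc, hl⟩ := exists_dl k S hS hk
  have h1 := dl_ratio hS h l
  rw [hl] at h1
  set U := C c⁻¹ * dl l T with hU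
  have hT : T = S * U := by
    have h2 : (C c⁻¹ * C c : A) = 1 := by rw [← C_mul, inv_mul_cancel₀ hc, C_1]
    rw [hU]
    linear_combination (-C c⁻¹) * h1 - T * h2
  have hUc : ∀ i, d i U = 0 := by
    intro i
    have h2 := h i
    rw [hT, d_mul] at h2
    have h3 : (S * S) * d i U = 0 := by linear_combination h2
    exact (mul_eq_zero.1 h3).resolve_left (mul_ne_zero hS hS)
  refine ⟨constantCoeff U, ?_⟩
  rw [← eq_C_of_d hUc, hT]
  ring

/-- a linear element of order at least two has an infinite-dimensional centralizer -/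
theorem Lin.unb {g : A} (hg : Lin g) (K : ℕ) : ∃ e, ev e g = ev g e ∧ ∃ j, K < j ∧ d j e ≠ 0 := by
  refine ⟨X (K + 1), hg.comm_X K, K + 1, by omega, ?_⟩
  rw [pderiv_X_self]
  exact one_ne_zero

/-- The order two theorem, in terms of `ev`. -/
theorem main_ev (f g : A) (hc : ev g f = ev f g)
    (hf : f ∉ Submodule.span ℝ ({1, X 1, g} : Set A))
    (hf2 : ∃ k, 1 < k ∧ d k f ≠ 0) (hg2 : ∃ m, 1 < m ∧ d m g ≠ 0)
    (hcomb : ∃ x y : ℝ, (x ≠ 0 ∨ y ≠ 0) ∧ Ord 2 (C x * f + C y * g)) (K : ℕ) :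
    ∃ e, ev e g = ev g e ∧ ∃ j, K < j ∧ d j e ≠ 0 := by
  have hd0 : ∀ (r : ℝ) (j : ℕ), d j (C r : A) = 0 := fun r j => pderiv_C
  -- exact orders
  have hexact : ∀ f : A, (∃ k, 1 < k ∧ d k f ≠ 0) → ∃ m, Ord (m + 2) f ∧ d (m + 2) f ≠ 0 := by
    intro f hf2
    obtain ⟨N, hN⟩ := exists_ord f
    obtain ⟨k, hk, hkf⟩ := hf2
    have key : ∀ n, Ord (n + 1) f → ∃ m, Ord (m + 2) f ∧ d (m + 2) f ≠ 0 := by
      intro n
      induction n with
      | zero => intro h; exact absurd (h k hk) hkf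
      | succ n ih =>
        intro h
        by_cases h0 : d (n + 2) f = 0
        · apply ih
          intro j hj
          rcases Nat.lt_or_ge (n + 2) j with h1 | h1
          · exact h j h1
          · obtain rfl : j = n + 2 := by omega
            exact h0
        · exact ⟨n, h, h0⟩
    exact key N (hN.mono (by omega))
  obtain ⟨m, hgo, hg0⟩ := hexact g hg2
  obtain ⟨n, hfo, hf0⟩ := hexact f hf2
  -- elements of order at most one
  have hlow : ∀ h : A, Ord 1 h → ev h g = ev g h →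
      (∀ a c : ℝ, h ≠ C a * X 1 + C c) → ∃ e, ev e g = ev g e ∧ ∃ j, K < j ∧ d j e ≠ 0 := by
    intro h hh hcg hne
    rcases low_main hh hgo hg0 hcg with ⟨a, c, h1⟩ | ⟨-, h1⟩
    · exact absurd h1 (hne a c)
    · exact h1.unb K
  have hmem : ∀ a b c : ℝ, f ≠ C a * X 1 + C b + C c * g := by
    intro a b c h
    apply hf
    rw [h]
    have e1 : (C a * X 1 : A) = a • X 1 := by rw [smul_eq_C_mul]
    have e2 : (C b : A) = b • 1 := by rw [smul_eq_C_mul, mul_one]
    have e3 : (C c * g : A) = c • g := by rw [smul_eq_C_mul]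
    rw [e1, e2, e3]
    refine Submodule.add_mem _ (Submodule.add_mem _ ?_ ?_) ?_
    · exact Submodule.smul_mem _ _ (Submodule.subset_span (by simp))
    · exact Submodule.smul_mem _ _ (Submodule.subset_span (by simp))
    · exact Submodule.smul_mem _ _ (Submodule.subset_span (by simp))
  -- from a hierarchy
  have hhier : ∀ p H, Hier p H → ev p g = ev g p →
      ∃ e, ev e g = ev g e ∧ ∃ j, K < j ∧ d j e ≠ 0 := by
    intro p H hH hpg
    obtain ⟨e, he, j, hj, hje⟩ := hH.unb K
    exact ⟨e, hH.all g hpg e he, j, hj, hje⟩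
  -- commuting elements of order two
  have h22 : Ord 2 f → Ord 2 g → d 2 g ≠ 0 → ∃ e, ev e g = ev g e ∧ ∃ j, K < j ∧ d j e ≠ 0 := by
    intro hf2' hg2' hg20
    have h1 := rel_one' (m := 0) hg2' hg20 hf2' hc
    obtain ⟨c, hcc⟩ := ratio_const (S := d 2 g) (T := d 2 f) hg20 (by
      intro i
      have h2 := h1 i
      push_cast at h2
      refine mul_left_cancel₀ (two_ne_zero : (2 : A) ≠ 0) ?_
      linear_combination -h2)
    refine hlow (f - C c * g) ?_ ?_ ?_
    · intro j hj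
      rcases Nat.lt_or_ge 2 j with h3 | h3
      · rw [map_sub, d_mul, hf2' j h3, hg2' j h3, hd0]; ring
      · obtain rfl : j = 2 := by omega
        rw [map_sub, d_mul, hcc, hd0]; ring
    · have h3 : f - C c * g = f + C (-c) * g := by rw [C_neg]; ring
      rw [h3, ev_add_left, ev_C_mul_left, map_add, ev_C_mul, hc]
    · intro a b h3
      exact hmem a b c (by linear_combination h3)
  obtain ⟨x, y, hxy, hpo⟩ := hcomb
  by_cases hp2 : d 2 (C x * f + C y * g) = 0
  · -- a combination of order at most one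
    have hp1 : Ord 1 (C x * f + C y * g) := by
      intro j hj
      rcases Nat.lt_or_ge 2 j with h3 | h3
      · exact hpo j h3
      · obtain rfl : j = 2 := by omega
        exact hp2
    refine hlow _ hp1 ?_ ?_
    · rw [ev_add_left, ev_C_mul_left, ev_C_mul_left, map_add, ev_C_mul, ev_C_mul, hc]
    · intro a c h3
      by_cases hx : x = 0
      · have hy : y ≠ 0 := by
          rcases hxy with h | h
          · exact absurd hx h
          · exact h
        have h4 := hp1 (m + 2) (by omega)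
        rw [hx, C_0, zero_mul, zero_add, d_mul, hd0, mul_zero, add_zero] at h4
        rcases mul_eq_zero.1 h4 with h5 | h5
        · rw [C_eq_zero] at h5
          exact hy h5
        · exact hg0 h5
      · have hC : (C x⁻¹ * C x : A) = 1 := by rw [← C_mul, inv_mul_cancel₀ hx, C_1]
        apply hmem (x⁻¹ * a) (x⁻¹ * c) (-(x⁻¹ * y))
        rw [C_mul, C_mul, C_neg, C_mul]
        linear_combination C x⁻¹ * h3 - f * hC
  · -- a combination of order two
    have hcp : ev (C x * f + C y * g) g = ev g (C x * f + C y * g) := by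
      rw [ev_add_left, ev_C_mul_left, ev_C_mul_left, map_add, ev_C_mul, ev_C_mul, hc]
    have hcp2 : ev (C x * f + C y * g) f = ev f (C x * f + C y * g) := by
      rw [ev_add_left, ev_C_mul_left, ev_C_mul_left, map_add, ev_C_mul, ev_C_mul, hc]
    rcases Nat.eq_zero_or_pos m with rfl | hm
    · rcases Nat.eq_zero_or_pos n with rfl | hn
      · exact h22 hfo hgo hg0
      · -- `g` has order two, `f` has larger order
        obtain ⟨k, rfl⟩ : ∃ k, n = k + 1 := ⟨n - 1, by omega⟩
        obtain ⟨H, hH⟩ := (Listed.of_symmetry hgo hg0 hfo hf0 hc).hier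
        exact hhier g H hH rfl
    · obtain ⟨k, rfl⟩ : ∃ k, m = k + 1 := ⟨m - 1, by omega⟩
      obtain ⟨H, hH⟩ := (Listed.of_symmetry hpo hp2 hgo hg0 hcp).hier
      exact hhier _ H hH hcp

/-- unbounded orders exclude a finite spanning set -/
theorem not_finite (g : A) (h : ∀ K, ∃ e, ev e g = ev g e ∧ ∃ j, K < j ∧ d j e ≠ 0) :
    ¬ ∃ S : Finset A, ∀ e : A, ev g e - ev e g = 0 → e ∈ Submodule.span ℝ (S : Set A) := by
  rintro ⟨S, hS⟩
  choose o ho using exists_ord
  obtain ⟨e, he, j, hj, hje⟩ := h (S.sup o)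
  have h1 := hS e (by rw [he, sub_self])
  apply hje
  refine Submodule.span_induction (p := fun x _ => d j x = 0) ?_ (map_zero _) ?_ ?_ h1
  · intro x hx
    have h2 := Finset.le_sup (f := o) hx
    exact ho x j (by omega)
  · intro x y _ _ hx hy
    rw [map_add, hx, hy, add_zero]
  · intro a x _ hx
    rw [Derivation.map_smul, hx, smul_zero]

end Pool.Agent.Helper90.Evo
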