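import Pool.Agent.Helper90.Evo.Low2

/-!
# Hierarchies (MP_ff793d_mp)
-/

set_option autoImplicit false
set_option linter.unusedSimpArgs false

open MvPolynomial

namespace Pool.Agent.Helper90.Evo

/-- `H` is a commuting family of symmetries of `p` which determines the centralizer of `p`. -/
structure Hier (p : A) (H : Set A) : Prop where
  cent : ∀ e ∈ H, ev e p = ev p e
  comm : ∀ e ∈ H, ∀ e' ∈ H, ev e e' = ev e' e
  lead : ∀ (m : ℕ) (q : A), Ord (m + 2) q → d (m + 2) q ≠ 0 → ev p q = ev q p →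
    ∃ e ∈ H, Ord (m + 2) e ∧ ∃ c : ℝ, d (m + 2) q = C c * d (m + 2) e
  base : ∀ h : A, Ord 1 h → ev p h = ev h p → ∀ e ∈ H, ev e h = ev h e
  unb : ∀ K : ℕ, ∃ e ∈ H, ∃ j, K < j ∧ d j e ≠ 0

theorem Hier.all {p : A} {H : Set A} (hH : Hier p H) (q : A) (hq : ev p q = ev q p) :
    ∀ e ∈ H, ev e q = ev q e := by
  have key : ∀ m : ℕ, ∀ q : A, Ord (m + 1) q → ev p q = ev q p → ∀ e ∈ H, ev e q = ev q e := by
    intro m
    induction m with
    | zero => intro q hq hpq; exact hH.base q hq hpq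
    | succ m ih =>
      intro q hqo hpq e he
      by_cases h0 : d (m + 2) q = 0
      · refine ih q ?_ hpq e he
        intro j hj
        rcases Nat.lt_or_ge (m + 2) j with h1 | h1
        · exact hqo j h1
        · obtain rfl : j = m + 2 := by omega
          exact h0
      · obtain ⟨e', he', heo, c, hc⟩ := hH.lead m q hqo h0 hpq
        have h2 := ih (q - C c * e') (by
          intro j hj
          have hCj : d j (C c : A) = 0 := pderiv_C
          rcases Nat.lt_or_ge (m + 2) j with h1 | h1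
          · rw [map_sub, d_mul, hqo j h1, heo j h1, hCj]; ring
          · obtain rfl : j = m + 2 := by omega
            rw [map_sub, d_mul, hc, hCj]; ring) (by
          have e1 : ev (q - C c * e') p = ev q p - C c * ev e' p := by
            have : q - C c * e' = q + C (-c) * e' := by rw [C_neg]; ring
            rw [this, ev_add_left, ev_C_mul_left, C_neg]; ring
          rw [map_sub, ev_C_mul, e1, hpq, hH.cent e' he']) e he
        have h3 := hH.comm e he e' he'
        have e1 : ev (q - C c * e') e = ev q e - C c * ev e' e := by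
          have : q - C c * e' = q + C (-c) * e' := by rw [C_neg]; ring
          rw [this, ev_add_left, ev_C_mul_left, C_neg]; ring
        rw [map_sub, ev_C_mul, e1] at h2
        linear_combination h2 + C c * h3
  obtain ⟨k, hk⟩ := exists_ord q
  exact key k q (hk.mono (by omega)) hq

/-- first symmetry condition, all orders at least two -/
theorem eq_one' {p q : A} {m : ℕ} (hp : Ord 2 p) (hq : Ord (m + 2) q) (h : ev p q = ev q p) :
    ((m : A) + 2) * d (m + 2) q * D (d 2 p) = 2 * d 2 p * D (d (m + 2) q) := by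
  have h1 := congrArg (d (m + 3)) h
  have hq1 : d (m + 3) (D q) = d (m + 2) q := by
    rw [d_succ_D, hq _ (by omega), map_zero, zero_add]
  have hq2 : d (m + 3) (D (D q)) = 2 * D (d (m + 2) q) + d (m + 1) q := by
    rw [d_succ_D, hq1, d_succ_D]
    ring
  rw [d_ev (m + 3) p hq, ev_ord2 q hp, Finset.sum_range_succ, Finset.sum_range_succ,
    Finset.sum_eq_zero] at h1
  · rw [hq (m + 3) (by omega), map_zero, map_add, map_add, d_mul, d_mul, d_mul,
      (hp.d 0) (m + 3) (by omega), (hp.d 1) (m + 3) (by omega), (hp.d 2) (m + 3) (by omega),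
      hq (m + 3) (by omega), hq1, hq2, it_top hp (m + 1), it_b hp (m + 2)] at h1
    push_cast at h1
    linear_combination h1
  · intro i hi
    rw [Finset.mem_range] at hi
    rw [it_zero hp i (m + 3) (by omega), mul_zero]

theorem rel_one' {p q : A} {m : ℕ} (hp : Ord 2 p) (hS : d 2 p ≠ 0) (hq : Ord (m + 2) q)
    (h : ev p q = ev q p) (i : ℕ) :
    ((m : A) + 2) * d (m + 2) q * d i (d 2 p) = 2 * d 2 p * d i (d (m + 2) q) := by
  refine log_compare ?_ (D_ofNat 2) ?_ (fun j => d_ofNat j 2) two_ne_zero hS (eq_one' hp hq h) i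
  · rw [map_add, D_natCast, D_ofNat, add_zero]
  · intro j
    rw [map_add, d_natCast, d_ofNat, add_zero]

/-- with constant separant all leading coefficients are constant -/
theorem lead_const {p q : A} {m : ℕ} {σ : ℝ} (hσ : σ ≠ 0) (hp : Ord 2 p) (hS : d 2 p = C σ)
    (hq : Ord (m + 2) q) (h : ev p q = ev q p) : ∃ c : ℝ, d (m + 2) q = C c := by
  have hCσ : (C σ : A) ≠ 0 := by rwa [Ne, C_eq_zero]
  refine ⟨_, eq_C_of_d ?_⟩
  intro i
  have h1 := rel_one' hp (by rw [hS]; exact hCσ) hq h i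
  have h2 : d i (C σ : A) = 0 := pderiv_C
  rw [hS, h2, mul_zero] at h1
  exact (mul_eq_zero.1 h1.symm).resolve_left (mul_ne_zero two_ne_zero hCσ)

/-- the base of a hierarchy of a nonlinear `p` -/
theorem base_of {p : A} (hp : Ord 2 p) (hS : d 2 p ≠ 0) (hlin : ¬ Lin p) {H : Set A}
    (h0 : d 0 p ≠ 0 ∨ ∀ e ∈ H, d 0 e = 0) (h : A) (hh : Ord 1 h) (hc : ev p h = ev h p) :
    ∀ e ∈ H, ev e h = ev h e := by
  intro e he
  rcases low_main (m := 0) hh hp hS hc.symm with ⟨a, c, rfl⟩ | ⟨-, h1⟩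
  · have e1 : ∀ x : A, ev (C a * X 1 + C c) x = C a * D x + C c * d 0 x := by
      intro x
      have : (C a * X 1 + C c : A) = C a * X 1 + C c * 1 := by ring
      rw [this, ev_add_left, ev_C_mul_left, ev_C_mul_left, ev_X1_left, ev_one_left]
    rw [e1, map_add, ev_C, ev_C_mul, ev_X1, add_zero]
    rw [e1, map_add, ev_C, ev_C_mul, ev_X1, add_zero] at hc
    have h2 : C c * d 0 p = 0 := by linear_combination -hc
    rcases mul_eq_zero.1 h2 with h3 | h3
    · rw [h3]; ring
    · rcases h0 with h0 | h0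
      · exact absurd h3 h0
      · rw [h0 e he]; ring
  · exact absurd h1 hlin

/-- linear elements commute with all `u_j`, `j ≥ 1` -/
theorem Lin.ev_D_left {g : A} (hg : Lin g) (f : A) : ev (D f) g = D (ev f g) := by
  obtain ⟨n, hn⟩ := exists_ord g
  rw [ev_eq_range (D f) hn, ev_eq_range f hn, map_sum]
  refine Finset.sum_congr rfl ?_
  intro i _
  obtain ⟨c, hc⟩ := hg i
  rw [hc, D_C_mul, ← iter_succ, Function.iterate_succ_apply]

theorem Lin.comm_X {g : A} (hg : Lin g) (j : ℕ) : ev (X (j + 1)) g = ev g (X (j + 1)) := by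
  rw [ev_X]
  induction j with
  | zero => rw [zero_add, ev_X1_left]; rfl
  | succ j ih => rw [← D_X (j + 1), hg.ev_D_left, ih, ← iter_succ]

theorem hier_lin {σ b κ g : ℝ} (hσ : σ ≠ 0) :
    Hier (C σ * X 2 + C b * X 1 + C κ * X 0 + C g) {e | ∃ j : ℕ, e = X (j + 1)} := by
  have hd : ∀ i, d i (C σ * X 2 + C b * X 1 + C κ * X 0 + C g : A) =
      C σ * d i (X 2) + C b * d i (X 1) + C κ * d i (X 0) := by
    intro i
    have h1 : ∀ r : ℝ, d i (C r : A) = 0 := fun r => pderiv_C
    rw [map_add, map_add, map_add, d_mul, d_mul, d_mul, h1, h1, h1, h1]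
    ring
  have hdX : ∀ i j : ℕ, ∃ c : ℝ, d i (X j : A) = C c := by
    intro i j
    by_cases hij : j = i
    · subst hij; exact ⟨1, by rw [pderiv_X_self, C_1]⟩
    · exact ⟨0, by rw [pderiv_X_of_ne hij, C_0]⟩
  have hlin : Lin (C σ * X 2 + C b * X 1 + C κ * X 0 + C g) := by
    intro i
    obtain ⟨c2, h2⟩ := hdX i 2
    obtain ⟨c1, h1⟩ := hdX i 1
    obtain ⟨c0, h0⟩ := hdX i 0
    refine ⟨σ * c2 + b * c1 + κ * c0, ?_⟩
    rw [hd, h2, h1, h0, C_add, C_add, C_mul, C_mul, C_mul]
  have hp : Ord 2 (C σ * X 2 + C b * X 1 + C κ * X 0 + C g) := by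
    intro j hj
    rw [hd, pderiv_X_of_ne (by omega), pderiv_X_of_ne (by omega), pderiv_X_of_ne (by omega)]
    ring
  have hS : d 2 (C σ * X 2 + C b * X 1 + C κ * X 0 + C g : A) = C σ := by
    rw [hd, pderiv_X_self, pderiv_X_of_ne (by omega), pderiv_X_of_ne (by omega)]
    ring
  have hXX : ∀ i j : ℕ, ev (X (i + 1)) (X j) = X (i + j + 1) := by
    intro i j
    rw [ev_X]
    induction j with
    | zero => rfl
    | succ j ih => rw [iter_succ, ih, D_X]; rfl
  constructor
  · rintro e ⟨j, rfl⟩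
    exact hlin.comm_X j
  · rintro e ⟨i, rfl⟩ e' ⟨j, rfl⟩
    rw [hXX, hXX]
    congr 1
    omega
  · intro m q hq hq0 hpq
    obtain ⟨c, hc⟩ := lead_const hσ hp hS hq hpq
    refine ⟨X (m + 1 + 1), ⟨m + 1, rfl⟩, ord_X _, c, ?_⟩
    rw [hc, show m + 1 + 1 = m + 2 from rfl, pderiv_X_self, mul_one]
  · intro h hh hc
    rintro e ⟨j, rfl⟩
    have hl : Lin h := by
      rcases low_main (m := 0) hh hp (by rw [hS]; rwa [Ne, C_eq_zero]) hc.symm with
        ⟨a, c, rfl⟩ | ⟨⟨a, k, c, rfl⟩, -⟩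
      · intro i
        obtain ⟨c1, h1⟩ := hdX i 1
        refine ⟨a * c1, ?_⟩
        have h2 : ∀ r : ℝ, d i (C r : A) = 0 := fun r => pderiv_C
        rw [map_add, d_mul, h1, h2, h2, C_mul]; ring
      · intro i
        obtain ⟨c1, h1⟩ := hdX i 1
        obtain ⟨c0, h0⟩ := hdX i 0
        refine ⟨a * c1 + k * c0, ?_⟩
        have h2 : ∀ r : ℝ, d i (C r : A) = 0 := fun r => pderiv_C
        rw [map_add, map_add, d_mul, d_mul, h1, h0, h2, h2, h2, C_add, C_mul, C_mul]; ring
    exact hl.comm_X j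
  · intro K
    refine ⟨X (K + 1), ⟨K, rfl⟩, K + 1, by omega, ?_⟩
    rw [pderiv_X_self]
    exact one_ne_zero

end Pool.Agent.Helper90.Evo
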