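import Pool.Agent.Helper90.Evo.Hier
import Pool.Agent.Helper90.Evo.Poly

/-!
# The hierarchies with nonconstant separant (MP_ff793d_mp)
-/

set_option autoImplicit false
set_option linter.unusedSimpArgs false

open MvPolynomial

namespace Pool.Agent.Helper90.Evo

/-- the recursion `k_{i+1} = (D + a)(R k_i)` -/
noncomputable def KK (R : A) (a : ℝ) : ℕ → A
  | 0 => 1
  | i + 1 => D (R * KK R a i) + C a * (R * KK R a i)

/-- the symmetries -/
noncomputable def KF (w R : A) (a μ : ℝ) (i : ℕ) : A :=
  C μ * w * KK R a (i + 1) - (X 1 + C (μ * a) * w) * (R * KK R a i)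

theorem KF_comm {w R : A} {a μ : ℝ} (hw : ∀ p, ev p w = p) (hR : Ord 0 R)
    (hwR : C μ * w * d 0 R = R) (i j : ℕ) :
    ev (KF w R a μ i) (KK R a j) = KK R a (i + 1 + j) - KK R a (i + 1) * KK R a j -
      R * KK R a i * D (KK R a j) := by
  have hk1 : KK R a 1 = D R + C a * R := by
    show D (R * 1) + C a * (R * 1) = _
    rw [mul_one]
  have hFR : ev (KF w R a μ i) R = R * KK R a (i + 1) - KK R a 1 * (R * KK R a i) := by
    rw [ev_ord0 _ hR, hk1, D_ord0 hR, KF, C_mul]
    linear_combination (KK R a (i + 1) - C a * (R * KK R a i)) * hwR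
  induction j with
  | zero =>
    have h1 : ev (KF w R a μ i) (1 : A) = 0 := (ev _).map_one_eq_zero
    rw [show KK R a 0 = 1 from rfl, h1, D_one, add_zero]
    ring
  | succ j ih =>
    have hstep : ∀ n, KK R a (n + 1) = D (R * KK R a n) + C a * (R * KK R a n) := fun n => rfl
    have hin : ev (KF w R a μ i) (R * KK R a j) =
        R * KK R a (i + 1 + j) - R * KK R a i * KK R a (j + 1) := by
      rw [ev_mul, ih, hFR, hstep j, D_mul, hk1]
      ring
    have hDR : D (R * KK R a i) = KK R a (i + 1) - C a * (R * KK R a i) := by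
      rw [hstep i]; ring
    rw [hstep j, map_add, ev_C_mul, ev_D, hin, map_sub, D_mul (R * KK R a i), hDR,
      show i + 1 + (j + 1) = (i + 1 + j) + 1 from rfl, hstep (i + 1 + j), ← hstep j]
    ring

theorem KF_symm {w R : A} {a μ : ℝ} (hw : ∀ p, ev p w = p) (hR : Ord 0 R)
    (hwR : C μ * w * d 0 R = R) (i j : ℕ) :
    ev (KF w R a μ i) (KF w R a μ j) = ev (KF w R a μ j) (KF w R a μ i) := by
  have key : ∀ i j, ev (KF w R a μ i) (KF w R a μ j) =
      C μ * (w * (KK R a (i + 1 + (j + 1)) - KK R a (i + 1) * KK R a (j + 1) -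
        R * KK R a i * D (KK R a (j + 1))) + KF w R a μ i * KK R a (j + 1)) -
      ((X 1 + C (μ * a) * w) * (R * KK R a (i + 1 + j) - R * KK R a i * KK R a (j + 1)) +
        (D (KF w R a μ i) + C (μ * a) * KF w R a μ i) * (R * KK R a j)) := by
    intro i j
    have hstep : ∀ n, KK R a (n + 1) = D (R * KK R a n) + C a * (R * KK R a n) := fun n => rfl
    have hk1 : KK R a 1 = D R + C a * R := by
      show D (R * 1) + C a * (R * 1) = _
      rw [mul_one]
    have hFR : ev (KF w R a μ i) R = R * KK R a (i + 1) - KK R a 1 * (R * KK R a i) := by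
      rw [ev_ord0 _ hR, hk1, D_ord0 hR, KF, C_mul]
      linear_combination (KK R a (i + 1) - C a * (R * KK R a i)) * hwR
    have hin : ev (KF w R a μ i) (R * KK R a j) =
        R * KK R a (i + 1 + j) - R * KK R a i * KK R a (j + 1) := by
      rw [ev_mul, KF_comm hw hR hwR i j, hFR, hstep j, D_mul, hk1]
      ring
    conv_lhs => rw [show KF w R a μ j = C μ * w * KK R a (j + 1) -
      (X 1 + C (μ * a) * w) * (R * KK R a j) from rfl]
    rw [map_sub, ev_mul, ev_C_mul, hw, KF_comm hw hR hwR i (j + 1), ev_mul (KF w R a μ i)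
      (X 1 + C (μ * a) * w), hin, map_add, ev_X1, ev_C_mul, hw]
    ring
  have hstep : ∀ n, D (R * KK R a n) = KK R a (n + 1) - C a * (R * KK R a n) := fun n => by
    show _ = (D (R * KK R a n) + C a * (R * KK R a n)) - C a * (R * KK R a n)
    ring
  have hDw : D w = X 1 := by rw [← ev_X1_left, hw]
  have hDF : ∀ i, D (KF w R a μ i) = C μ * (X 1 * KK R a (i + 1) + w * D (KK R a (i + 1))) -
      ((X 2 + C (μ * a) * X 1) * (R * KK R a i) +
        (X 1 + C (μ * a) * w) * (KK R a (i + 1) - C a * (R * KK R a i))) := by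
    intro i
    rw [KF, map_sub, D_mul, D_mul (X 1 + C (μ * a) * w), hstep, D_C_mul, hDw, map_add, D_X,
      D_C_mul, hDw]
    ring
  rw [key, key, hDF, hDF, show i + 1 + (j + 1) = j + 1 + (i + 1) by ring,
    show i + 1 + j = j + 1 + i by ring]
  simp only [KF, C_mul]
  ring

end Pool.Agent.Helper90.Evo
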