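import Pool.Agent.Helper90.Evo.HierK

/-!
# The hierarchies with nonconstant separant, second part (MP_ff793d_mp)
-/

set_option autoImplicit false
set_option linter.unusedSimpArgs false

open MvPolynomial

namespace Pool.Agent.Helper90.Evo

/-- the operator `S (D + a) + D S / 2` -/
noncomputable def nn (S : A) (a : ℝ) (m : A) : A := S * (D m + C a * m) + C (1 / 2 : ℝ) * D S * m

/-- the recursion `m_{j+1} = (D + a)(S (D + a) + D S / 2) m_j` -/
noncomputable def MM (S : A) (a : ℝ) : ℕ → A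
  | 0 => 1
  | j + 1 => D (nn S a (MM S a j)) + C a * nn S a (MM S a j)

/-- the symmetries -/
noncomputable def MF (w S : A) (a ν : ℝ) (l : ℕ) : A :=
  C ν * w * MM S a (l + 1) - (X 1 + C (ν * a) * w) * nn S a (MM S a l)

theorem half_add : (C (1 / 2 : ℝ) : A) * 2 = 1 := by
  rw [show (2 : A) = C 2 by rw [map_ofNat], ← C_mul]
  norm_num

theorem MF_S {w S : A} {a ν : ℝ} (hS : Ord 0 S) (hwS : C ν * w * d 0 S = 2 * S) (l : ℕ) :
    ev (MF w S a ν l) S = 2 * S * MM S a (l + 1) - (D S + 2 * C a * S) * nn S a (MM S a l) := by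
  rw [ev_ord0 _ hS, D_ord0 hS, MF, C_mul]
  linear_combination (MM S a (l + 1) - C a * nn S a (MM S a l)) * hwS

theorem MF_nn {w S : A} {a ν : ℝ} (hS : Ord 0 S) (hwS : C ν * w * d 0 S = 2 * S) (l j : ℕ)
    (hj : ev (MF w S a ν l) (MM S a j) = MM S a (j + l + 1) - MM S a (l + 1) * MM S a j -
      nn S a (MM S a l) * D (MM S a j)) :
    ev (MF w S a ν l) (nn S a (MM S a j)) = nn S a (MM S a (j + l + 1)) -
      nn S a (MM S a l) * MM S a (j + 1) := by
  have hDn : D (nn S a (MM S a l)) = MM S a (l + 1) - C a * nn S a (MM S a l) := by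
    show _ = (D (nn S a (MM S a l)) + C a * nn S a (MM S a l)) - C a * nn S a (MM S a l)
    ring
  have hm : MM S a (j + 1) = S * D (D (MM S a j)) + D S * D (MM S a j) +
      2 * C a * S * D (MM S a j) + C a * D S * MM S a j + C a * C a * S * MM S a j +
      C (1 / 2 : ℝ) * D (D S) * MM S a j + C (1 / 2 : ℝ) * D S * D (MM S a j) +
      C a * C (1 / 2 : ℝ) * D S * MM S a j := by
    show D (nn S a (MM S a j)) + C a * nn S a (MM S a j) = _
    rw [nn, map_add, D_mul, D_mul, map_add, D_C_mul, D_C_mul]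
    ring
  have hh := half_add
  rw [hm]
  conv_lhs => rw [nn]
  rw [map_add, ev_mul, ev_mul, map_add, ev_C_mul, ev_C_mul, ev_D, ev_D, hj, MF_S hS hwS, map_sub,
    map_sub, map_sub, D_mul, D_mul, D_mul, D_mul, D_mul, hDn, map_add, D_mul, D_mul,
    show D (2 : A) = 0 from D_two, D_C]
  simp only [nn]
  generalize MM S a (j + l + 1) = m1
  generalize MM S a (l + 1) = m2
  generalize MM S a l = m3
  generalize MM S a j = m4
  generalize D S = S1 at *
  generalize D S1 = S2 at *
  generalize C (1 / 2 : ℝ) = h2 at *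
  generalize (C a : A) = aa at *
  linear_combination (S * m4 * D m2 - aa * S * m2 * m4 +
    aa ^ 2 * S * (S * (D m3 + aa * m3) + h2 * S1 * m3) * m4) * hh

theorem MF_comm {w S : A} {a ν : ℝ} (hS : Ord 0 S) (hwS : C ν * w * d 0 S = 2 * S) (l j : ℕ) :
    ev (MF w S a ν l) (MM S a j) = MM S a (j + l + 1) - MM S a (l + 1) * MM S a j -
      nn S a (MM S a l) * D (MM S a j) := by
  induction j with
  | zero =>
    have h1 : ev (MF w S a ν l) (1 : A) = 0 := (ev _).map_one_eq_zero
    rw [show MM S a 0 = 1 from rfl, h1, D_one, Nat.zero_add]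
    ring
  | succ j ih =>
    have hn := MF_nn hS hwS l j ih
    have hstep : ∀ n, MM S a (n + 1) = D (nn S a (MM S a n)) + C a * nn S a (MM S a n) :=
      fun n => rfl
    have hDn : D (nn S a (MM S a l)) = MM S a (l + 1) - C a * nn S a (MM S a l) := by
      rw [hstep l]; ring
    rw [hstep j, map_add, ev_C_mul, ev_D, hn, map_sub, D_mul (nn S a (MM S a l)), hDn,
      show j + 1 + l + 1 = (j + l + 1) + 1 by ring, hstep (j + l + 1), ← hstep j]
    ring

theorem MF_symm {w S : A} {a ν : ℝ} (hw : ∀ p, ev p w = p) (hS : Ord 0 S)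
    (hwS : C ν * w * d 0 S = 2 * S) (i j : ℕ) :
    ev (MF w S a ν i) (MF w S a ν j) = ev (MF w S a ν j) (MF w S a ν i) := by
  have key : ∀ i j, ev (MF w S a ν i) (MF w S a ν j) =
      C ν * (w * (MM S a (j + 1 + i + 1) - MM S a (i + 1) * MM S a (j + 1) -
        nn S a (MM S a i) * D (MM S a (j + 1))) + MF w S a ν i * MM S a (j + 1)) -
      ((X 1 + C (ν * a) * w) * (nn S a (MM S a (j + i + 1)) - nn S a (MM S a i) * MM S a (j + 1)) +
        (D (MF w S a ν i) + C (ν * a) * MF w S a ν i) * nn S a (MM S a j)) := by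
    intro i j
    conv_lhs => rw [show MF w S a ν j = C ν * w * MM S a (j + 1) -
      (X 1 + C (ν * a) * w) * nn S a (MM S a j) from rfl]
    rw [map_sub, ev_mul, ev_C_mul, hw, MF_comm hS hwS i (j + 1), ev_mul (MF w S a ν i)
      (X 1 + C (ν * a) * w), MF_nn hS hwS i j (MF_comm hS hwS i j), map_add, ev_X1, ev_C_mul, hw]
    ring
  have hstep : ∀ n, D (nn S a (MM S a n)) = MM S a (n + 1) - C a * nn S a (MM S a n) := fun n => by
    show _ = (D (nn S a (MM S a n)) + C a * nn S a (MM S a n)) - C a * nn S a (MM S a n)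
    ring
  have hDw : D w = X 1 := by rw [← ev_X1_left, hw]
  have hDF : ∀ i, D (MF w S a ν i) = C ν * (X 1 * MM S a (i + 1) + w * D (MM S a (i + 1))) -
      ((X 2 + C (ν * a) * X 1) * nn S a (MM S a i) +
        (X 1 + C (ν * a) * w) * (MM S a (i + 1) - C a * nn S a (MM S a i))) := by
    intro i
    rw [MF, map_sub, D_mul, D_mul (X 1 + C (ν * a) * w), hstep, D_C_mul, hDw, map_add, D_X,
      D_C_mul, hDw]
    ring
  rw [key, key, hDF, hDF, show j + 1 + i + 1 = i + 1 + j + 1 by ring,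
    show j + i + 1 = i + j + 1 by ring]
  simp only [MF, C_mul]
  ring

end Pool.Agent.Helper90.Evo
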