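import Pool.Agent.Helper90.Evo.Eps

/-!
# Symmetries of order at most one (MP_ff793d_mp)
-/

set_option autoImplicit false
set_option linter.unusedSimpArgs false

open MvPolynomial

namespace Pool.Agent.Helper90.Evo

variable {h : A}

theorem it1_zero (hh : Ord 1 h) (m j : ℕ) (hj : m + 1 < j) : d j ((⇑D)^[m] h) = 0 :=
  hh.iter m j (by omega)

theorem it1_top (hh : Ord 1 h) (m : ℕ) : d (m + 1) ((⇑D)^[m] h) = d 1 h := by
  rw [it_b (hh.mono (by omega)) m, hh 2 (by omega), map_zero, mul_zero, zero_add]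

theorem it1_b (hh : Ord 1 h) (m : ℕ) : d m ((⇑D)^[m] h) = (m : A) * D (d 1 h) + d 0 h := by
  have h1 := it_c (hh.mono (by omega) : Ord 2 h) m
  rw [hh 2 (by omega), map_zero, map_zero] at h1
  refine mul_left_cancel₀ (two_ne_zero : (2 : A) ≠ 0) ?_
  linear_combination h1

/-- the operator `ev h - h_1 D` -/
noncomputable def del (h x : A) : A := ev h x - d 1 h * D x

theorem d_del (hh : Ord 1 h) {k : ℕ} {x : A} (hx : Ord (k + 1) x)
    (hk : d (k + 1) (d 1 h) = 0) :
    d (k + 1) (del h x) = del h (d (k + 1) x) +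
      (((k : A) + 1) * D (d 1 h) + d 0 h) * d (k + 1) x := by
  rw [del, del, map_sub, d_ev (k + 1) h hx, Finset.sum_range_succ, Finset.sum_range_succ,
    Finset.sum_eq_zero]
  · rw [it1_top hh k, it1_b hh (k + 1), d_mul, hk, d_succ_D]
    push_cast
    ring
  · intro i hi
    rw [Finset.mem_range] at hi
    rw [it1_zero hh i (k + 1) (by omega), mul_zero]

/-- for a nonzero polynomial the last nonzero iterated derivative -/
theorem exists_last (k : ℕ) {x : A} (hx : x ≠ 0) :
    ∃ n, (⇑(d k))^[n] x ≠ 0 ∧ (⇑(d k))^[n + 1] x = 0 := by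
  obtain ⟨n, hn⟩ := exists_iter_d k x
  classical
  have hex : ∃ n, (⇑(d k))^[n] x = 0 := ⟨n, hn⟩
  have h1 := Nat.find_spec hex
  have h2 : Nat.find hex ≠ 0 := by
    intro h0
    rw [h0] at h1
    exact hx h1
  obtain ⟨m, hm⟩ := Nat.exists_eq_succ_of_ne_zero h2
  refine ⟨m, ?_, ?_⟩
  · exact Nat.find_min hex (by omega)
  · rw [← Nat.succ_eq_add_one, ← hm]
    exact h1

theorem Ord.iter_d {k : ℕ} {x : A} (hx : Ord k x) (i n : ℕ) : Ord k ((⇑(Evo.d i))^[n] x) := by
  induction n with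
  | zero => exact hx
  | succ n ih => rw [Function.iterate_succ_apply']; exact ih.d i

/-- lowering the order when `∂_k c = 0 = ∂_k w` -/
theorem lower {k : ℕ} {c w x : A} (hh : Ord 1 h) (hk : d (k + 1) (d 1 h) = 0)
    (hw : w = ((k : A) + 1) * D (d 1 h) + d 0 h) (hc : d (k + 1) c = 0) (hw' : d (k + 1) w = 0)
    (hx : Ord (k + 1) x) (hx0 : x ≠ 0) (hrel : del h x = c * x) :
    ∃ (n : ℕ) (y : A), y ≠ 0 ∧ Ord k y ∧ del h y = (c - (n : A) * w) * y ∧ (n = 0 → y = x) := by
  obtain ⟨n, hn, hn1⟩ := exists_last (k + 1) hx0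
  have key : ∀ j : ℕ, del h ((⇑(d (k + 1)))^[j] x) =
      (c - (j : A) * w) * (⇑(d (k + 1)))^[j] x := by
    intro j
    induction j with
    | zero => simpa using hrel
    | succ j ih =>
      have h1 := congrArg (d (k + 1)) ih
      rw [d_del hh (hx.iter_d (k + 1) j) hk, d_mul, map_sub, d_mul, hc, hw', d_natCast, ← hw,
        ← Function.iterate_succ_apply' (⇑(d (k + 1))) j x] at h1
      push_cast
      linear_combination h1
  refine ⟨n, _, hn, ?_, key n, ?_⟩
  · intro j hj
    rcases Nat.lt_or_ge (k + 1) j with h1 | h1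
    · exact hx.iter_d (k + 1) n j h1
    · obtain rfl : j = k + 1 := by omega
      rw [← Function.iterate_succ_apply' (⇑(d (k + 1))) n x]
      exact hn1
  · rintro rfl
    rfl

/-- the obstruction -/
theorem obstruct {k : ℕ} {c w t x : A} {μ : ℕ} (hh : Ord 1 h) (hk : d (k + 1) (d 1 h) = 0)
    (hw : w = ((k : A) + 1) * D (d 1 h) + d 0 h) (hc : d (k + 1) c = -(μ : A) * t)
    (hw' : d (k + 1) w = 2 * t) (ht : d (k + 1) t = 0) (hμ : 0 < μ)
    (hx : Ord (k + 1) x) (hx0 : x ≠ 0) (hrel : del h x = c * x) : t = 0 := by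
  obtain ⟨n, hn, hn1⟩ := exists_last (k + 1) hx0
  have key : ∀ j : ℕ, del h ((⇑(d (k + 1)))^[j + 1] x) =
      (c - ((j : A) + 1) * w) * (⇑(d (k + 1)))^[j + 1] x -
        ((j : A) + 1) * ((μ : A) + (j : A)) * t * (⇑(d (k + 1)))^[j] x := by
    intro j
    induction j with
    | zero =>
      have h1 := congrArg (d (k + 1)) hrel
      rw [d_del hh hx hk, d_mul, hc, ← hw] at h1
      simp only [zero_add, Function.iterate_one, Nat.cast_zero, Function.iterate_zero, id]
      linear_combination h1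
    | succ j ih =>
      have h1 := congrArg (d (k + 1)) ih
      rw [d_del hh (hx.iter_d (k + 1) (j + 1)) hk, map_sub, d_mul, map_sub, d_mul, hc, hw', d_mul,
        d_mul, d_mul, map_add, map_add, d_natCast, d_natCast, d_one, ht, ← hw,
        ← Function.iterate_succ_apply' (⇑(d (k + 1))) (j + 1) x,
        ← Function.iterate_succ_apply' (⇑(d (k + 1))) j x] at h1
      push_cast
      linear_combination h1
  have h1 := key n
  rw [hn1, del, map_zero, map_zero, mul_zero, mul_zero, sub_zero, zero_sub] at h1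
  have h2 : (((n + 1) * (μ + n) : ℕ) : A) * (t * (⇑(d (k + 1)))^[n] x) = 0 := by
    push_cast
    linear_combination h1
  have h3 : (((n + 1) * (μ + n) : ℕ) : A) ≠ 0 := by
    have : (n + 1) * (μ + n) ≠ 0 := by positivity
    exact_mod_cast this
  exact (mul_eq_zero.1 ((mul_eq_zero.1 h2).resolve_left h3)).resolve_right hn

/-- the relation satisfied by the leading coefficient -/
theorem rel_lead {g : A} {m : ℕ} (hh : Ord 1 h) (hg : Ord (m + 2) g) (hc : ev h g = ev g h) :
    del h (d (m + 2) g) = (-(((m + 2 : ℕ) : A) * D (d 1 h))) * d (m + 2) g := by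
  have h1 := congrArg (d (m + 2)) hc
  rw [d_ev (m + 2) h hg, ev_ord1 g hh, Finset.sum_range_succ, Finset.sum_range_succ,
    Finset.sum_eq_zero] at h1
  · rw [it1_top hh (m + 1), it1_b hh (m + 2), map_add, d_mul, d_mul, hh.d 0 (m + 2) (by omega),
      hh.d 1 (m + 2) (by omega), d_succ_D] at h1
    rw [del]
    push_cast at h1 ⊢
    linear_combination h1
  · intro i hi
    rw [Finset.mem_range] at hi
    rw [it1_zero hh i (m + 2) (by omega), mul_zero]

/-- descent to order two -/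
theorem descend2 (hh : Ord 1 h) (k : ℕ) : ∀ (M N : ℕ) (x : A), x ≠ 0 → Ord (k + 2) x →
    del h x = (-((M : A) * D (d 1 h) + (N : A) * d 0 h)) * x →
    ∃ (M' N' : ℕ) (y : A), M ≤ M' ∧ y ≠ 0 ∧ Ord 2 y ∧
      del h y = (-((M' : A) * D (d 1 h) + (N' : A) * d 0 h)) * y := by
  induction k with
  | zero =>
    intro M N x hx hxo hrel
    exact ⟨M, N, x, le_rfl, hx, hxo, hrel⟩
  | succ k ih =>
    intro M N x hx hxo hrel
    have h0 : ∀ j, d j (d 1 h) = d 1 (d j h) := fun j => d_comm j 1 h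
    have hD : d (k + 3) (D (d 1 h)) = 0 := (hh.d 1).D (k + 3) (by omega)
    have hD0 : d (k + 3) (d 0 h) = 0 := (hh.d 0) (k + 3) (by omega)
    obtain ⟨n, y, hy, hyo, hyr, -⟩ := lower (k := k + 2) (w := (((k + 2 : ℕ) : A) + 1) *
      D (d 1 h) + d 0 h) hh ((hh.d 1) (k + 3) (by omega)) rfl
      (by
        simp only [map_neg, map_add, d_mul, d_natCast, hD, hD0]
        ring)
      (by
        simp only [map_add, d_mul, d_natCast, d_one, hD, hD0]
        ring) hxo hx hrel
    obtain ⟨M', N', z, hM, hz, hzo, hzr⟩ := ih (M + n * (k + 3)) (N + n) y hy hyo (by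
      rw [hyr]
      push_cast
      ring)
    exact ⟨M', N', z, le_trans (Nat.le_add_right _ _) hM, hz, hzo, hzr⟩

/-- a symmetry of order at most one is linear in `u_1` with constant coefficient -/
theorem low_struct {g : A} {m : ℕ} (hh : Ord 1 h) (hg : Ord (m + 2) g) (hg0 : d (m + 2) g ≠ 0)
    (hc : ev h g = ev g h) : d 1 (d 1 h) = 0 ∧ d 0 (d 1 h) = 0 := by
  have hrel := rel_lead hh hg hc
  obtain ⟨M, N, y, hM, hy, hyo, hyr⟩ := descend2 hh m (m + 2) 0 (d (m + 2) g) hg0 (hg.d (m + 2))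
    (by rw [hrel]; push_cast; ring)
  have hM0 : 0 < M := by omega
  have hh2 : d 2 h = 0 := hh 2 (by omega)
  have e21 : d 2 (d 1 h) = 0 := (hh.d 1) 2 (by omega)
  have e20 : d 2 (d 0 h) = 0 := (hh.d 0) 2 (by omega)
  have h11 : d 1 (d 1 h) = 0 := by
    refine obstruct (k := 1) (w := (((1 : ℕ) : A) + 1) * D (d 1 h) + d 0 h) (μ := M) hh e21 rfl
      ?_ ?_ (((hh.d 1).d 1) 2 (by omega)) hM0 hyo hy hyr
    · show d 2 _ = _
      simp only [map_neg, map_add, d_mul, d_natCast, e20, d2_D, e21, map_zero]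
      ring
    · show d 2 _ = _
      simp only [map_add, d_mul, d_natCast, d_one, e20, d2_D, e21, map_zero]
      push_cast
      ring
  refine ⟨h11, ?_⟩
  have e10 : d 1 (d 0 h) = d 0 (d 1 h) := d_comm 1 0 h
  obtain ⟨n, z, hz, hzo, hzr, -⟩ := lower (k := 1) (w := (((1 : ℕ) : A) + 1) * D (d 1 h) + d 0 h)
    hh e21 rfl
    (by
      show d 2 _ = _
      simp only [map_neg, map_add, d_mul, d_natCast, e20, d2_D, e21, map_zero, h11]
      ring)
    (by
      show d 2 _ = _
      simp only [map_add, d_mul, d_natCast, d_one, e20, d2_D, e21, map_zero, h11]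
      ring) hyo hy hyr
  have hzr' : del h z = (-(((M + 2 * n : ℕ) : A) * D (d 1 h) + ((N + n : ℕ) : A) * d 0 h)) * z := by
    rw [hzr]
    push_cast
    ring
  refine obstruct (k := 0) (w := (((0 : ℕ) : A) + 1) * D (d 1 h) + d 0 h)
    (μ := M + 2 * n + (N + n)) hh h11 rfl ?_ ?_ ?_ (by omega) hzo hz hzr'
  · show d 1 _ = _
    simp only [map_neg, map_add, d_mul, d_natCast, d1_D, h11, map_zero, e10, zero_add]
    push_cast
    ring
  · show d 1 _ = _
    simp only [map_add, d_mul, d_natCast, d_one, d1_D, h11, map_zero, e10, zero_add]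
    push_cast
    ring
  · show d 1 (d 0 (d 1 h)) = 0
    rw [d_comm, h11, map_zero]

end Pool.Agent.Helper90.Evo
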