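import Pool.Agent.Helper90.Evo.Low

/-!
# Symmetries of order at most one, second part (MP_ff793d_mp)
-/

set_option autoImplicit false
set_option linter.unusedSimpArgs false

open MvPolynomial

namespace Pool.Agent.Helper90.Evo

variable {b : A}

theorem del_ord0 (hb : Ord 0 b) (x : A) : del b x = ev b x := by
  rw [del, hb 1 (by omega), zero_mul, sub_zero]

theorem poly_lead {β g : Polynomial ℝ} (hβ : Polynomial.derivative β ≠ 0) (hg : g ≠ 0) {N : ℕ}
    (h : β * Polynomial.derivative g = -((N : Polynomial ℝ) * Polynomial.derivative β * g)) :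
    N = 0 := by
  by_contra hN
  have hβ0 : β ≠ 0 := by
    rintro rfl
    simp at hβ
  have hm : β.natDegree ≠ 0 := by
    intro h0
    exact hβ (Polynomial.derivative_eq_zero.2 h0)
  have h1 := congrArg Polynomial.leadingCoeff h
  rw [Polynomial.leadingCoeff_neg, Polynomial.leadingCoeff_mul, Polynomial.leadingCoeff_mul,
    Polynomial.leadingCoeff_mul, Polynomial.leadingCoeff_derivative,
    Polynomial.leadingCoeff_derivative, ← Polynomial.C_eq_natCast, Polynomial.leadingCoeff_C] at h1
  have h2 : β.leadingCoeff * g.leadingCoeff *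
      ((g.natDegree : ℝ) + (N : ℝ) * (β.natDegree : ℝ)) = 0 := by
    linear_combination h1
  have h3 : β.leadingCoeff * g.leadingCoeff ≠ 0 :=
    mul_ne_zero (Polynomial.leadingCoeff_ne_zero.2 hβ0) (Polynomial.leadingCoeff_ne_zero.2 hg)
  have h4 := (mul_eq_zero.1 h2).resolve_left h3
  have h5 : (0 : ℝ) < (N : ℝ) * (β.natDegree : ℝ) := by positivity
  have h6 : (0 : ℝ) ≤ (g.natDegree : ℝ) := by positivity
  linarith

/-- eigenvectors of `ev b` -/
theorem eig (hb : Ord 0 b) (hb' : d 0 b ≠ 0) (k : ℕ) : ∀ (N : ℕ) (x : A), x ≠ 0 → Ord k x →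
    ev b x = -((N : A) * d 0 b) * x → N = 0 ∧ ∃ c : ℝ, x = C c := by
  induction k with
  | zero =>
    intro N x hx hxo hrel
    rw [ev_ord0 b hxo] at hrel
    have hβ : Polynomial.derivative (eps b) ≠ 0 := by
      rw [← eps_d0]
      intro h0
      apply hb'
      rw [← iota_eps (hb.d 0), h0, map_zero]
    have hg : eps x ≠ 0 := by
      intro h0
      apply hx
      rw [← iota_eps hxo, h0, map_zero]
    have h1 := congrArg eps hrel
    simp only [map_mul, map_neg, eps_d0, map_natCast] at h1
    have hN : N = 0 := poly_lead hβ hg (by linear_combination h1)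
    refine ⟨hN, ?_⟩
    subst hN
    have h2 : d 0 x * b = 0 := by
      rw [hrel]
      push_cast
      ring
    have hb0 : b ≠ 0 := by
      rintro rfl
      rw [map_zero] at hb'
      exact hb' rfl
    have h3 := (mul_eq_zero.1 h2).resolve_right hb0
    refine ⟨constantCoeff x, eq_C_of_d ?_⟩
    intro j
    rcases Nat.eq_zero_or_pos j with rfl | hj
    · exact h3
    · exact hxo j hj
  | succ k ih =>
    intro N x hx hxo hrel
    have hh : Ord 1 b := hb.mono (by omega)
    have h1 : d (k + 1) (d 0 b) = 0 := hb.d 0 (k + 1) (by omega)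
    have h2 : d 1 b = 0 := hb 1 (by omega)
    obtain ⟨n, y, hy, hyo, hyr, hyx⟩ := lower (k := k) (h := b) (w := ((k : A) + 1) * D (d 1 b) +
      d 0 b) (c := -((N : A) * d 0 b)) hh (by rw [h2, map_zero]) rfl
      (by simp only [map_neg, d_mul, d_natCast, h1]; ring)
      (by simp only [map_add, d_mul, d_natCast, d_one, h1, h2, map_zero]; ring)
      hxo hx (by rw [del_ord0 hb]; exact hrel)
    rw [del_ord0 hb, h2, map_zero] at hyr
    obtain ⟨hN, c, hc⟩ := ih (N + n) y hy hyo (by
      rw [hyr]
      push_cast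
      ring)
    have hn0 : n = 0 := by omega
    refine ⟨by omega, c, ?_⟩
    rw [← hyx hn0]
    exact hc

/-- `ev b x = 0` implies that `x` is constant -/
theorem eig0 (hb : Ord 0 b) (hb' : d 0 b ≠ 0) {x : A} (h : ev b x = 0) : ∃ c : ℝ, x = C c := by
  by_cases hx : x = 0
  · exact ⟨0, by rw [hx, C_0]⟩
  · obtain ⟨k, hk⟩ := exists_ord x
    exact (eig hb hb' k 0 x hx hk (by rw [h]; push_cast; ring)).2

/-- `ev b x = - N b' x` with `N > 0` implies `x = 0` -/
theorem eigN (hb : Ord 0 b) (hb' : d 0 b ≠ 0) {x : A} {N : ℕ} (hN : N ≠ 0)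
    (h : ev b x = -((N : A) * d 0 b) * x) : x = 0 := by
  by_contra hx
  obtain ⟨k, hk⟩ := exists_ord x
  exact hN (eig hb hb' k N x hx hk h).1

theorem d_ev_ord0 (hb : Ord 0 b) {k : ℕ} {x : A} (hx : Ord (k + 1) x) :
    d (k + 1) (ev b x) = ev b (d (k + 1) x) + d 0 b * d (k + 1) x := by
  have h2 : d 1 b = 0 := hb 1 (by omega)
  have h1 := d_del (hb.mono (by omega) : Ord 1 b) hx (by rw [h2, map_zero])
  rw [del_ord0 hb, del_ord0 hb, h2, map_zero] at h1
  rw [h1]
  ring

/-- all partial derivatives are constant -/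
def Lin (g : A) : Prop := ∀ i, ∃ c : ℝ, d i g = C c

theorem second_zero {g : A} {m : ℕ} (hb : Ord 0 b) (hb' : d 0 b ≠ 0) (hg : Ord (m + 2) g)
    (hg0 : d (m + 2) g ≠ 0) (hc : ev b g = ev g b) : d 0 (d 0 b) = 0 := by
  have hh : Ord 1 b := hb.mono (by omega)
  have hh2 : Ord 2 b := hb.mono (by omega)
  have h2 : d 1 b = 0 := hb 1 (by omega)
  have h3 : d 2 b = 0 := hb 2 (by omega)
  have h10 : d 1 (d 0 b) = 0 := hb.d 0 1 (by omega)
  have h100 : d 1 (d 0 (d 0 b)) = 0 := (hb.d 0).d 0 1 (by omega)
  -- the leading coefficient is constant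
  have hl := rel_lead hh hg hc
  rw [del_ord0 hb, h2, map_zero, mul_zero, neg_zero, zero_mul] at hl
  obtain ⟨γ, hγ⟩ := eig0 hb hb' hl
  have hγ0 : γ ≠ 0 := by
    rintro rfl
    rw [C_0] at hγ
    exact hg0 hγ
  -- the relation for the next coefficient
  have hrel : ev b (d (m + 1) g) = -(((m : A) + 2) * C γ * D (d 0 b)) := by
    have h4 := congrArg (d (m + 1)) hc
    rw [d_ev (m + 1) b hg, ev_ord0 g hb, Finset.sum_range_succ, Finset.sum_range_succ,
      Finset.sum_eq_zero] at h4
    · have he := it_e hh2 (m + 1)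
      simp only [h3, h2, map_zero, mul_zero, zero_add] at he
      rw [it1_b hh (m + 1), h2, map_zero, d_mul, hb.d 0 (m + 1) (by omega), hγ] at h4
      refine mul_left_cancel₀ (by norm_num : (6 : A) ≠ 0) ?_
      push_cast at he h4
      linear_combination 6 * h4 - C γ * he
    · intro i hi
      rw [Finset.mem_range] at hi
      rw [hb.iter i (m + 1) (by omega), mul_zero]
  -- its order is at most one
  have hord : ∀ k, Ord (k + 1) (d (m + 1) g) → Ord 1 (d (m + 1) g) := by
    intro k
    induction k with
    | zero => exact fun h => h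
    | succ k ih =>
      intro h
      apply ih
      intro j hj
      rcases Nat.lt_or_ge (k + 2) j with h5 | h5
      · exact h j h5
      · obtain rfl : j = k + 2 := by omega
        have h6 := congrArg (d (k + 2)) hrel
        have h7 : d (k + 2) (D (d 0 b)) = 0 := (hb.d 0).D (k + 2) (by omega)
        rw [d_ev_ord0 hb h, map_neg, d_mul, d_mul, h7, map_add, d_natCast, d_two] at h6
        have h8 : d (k + 2) (C γ : A) = 0 := pderiv_C
        rw [h8] at h6
        exact eigN hb hb' one_ne_zero (by push_cast; linear_combination h6)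
  obtain ⟨k, hk⟩ := exists_ord (d (m + 1) g)
  have hφ : Ord 1 (d (m + 1) g) := hord k (hk.mono (by omega))
  generalize d (m + 1) g = φ at *
  have h6 := congrArg (d 1) hrel
  have hCγ : ∀ j, d j (C γ : A) = 0 := fun j => pderiv_C
  have hk2 : ∀ j, d j ((m : A) + 2) = 0 := fun j => by
    rw [map_add, d_natCast, d_ofNat, add_zero]
  rw [d_ev_ord0 (k := 0) hb hφ, map_neg, d_mul, d_mul, d1_D, h10, map_zero, hCγ, hk2] at h6
  have hφ11 : d 1 (d 1 φ) = 0 := by
    have h7 := congrArg (d 1) h6
    simp only [zero_add, map_add, map_neg, d_mul, h10, h100, hCγ, hk2, mul_zero, add_zero, zero_add,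
      neg_zero, map_zero] at h7
    have h8 := d_ev_ord0 (k := 0) hb (hφ.d 1)
    simp only [zero_add] at h8
    rw [h8] at h7
    exact eigN hb hb' two_ne_zero (by push_cast; linear_combination h7)
  have hφ1 : Ord 0 (d 1 φ) := by
    intro j hj
    rcases Nat.lt_or_ge 1 j with h7 | h7
    · exact hφ.d 1 j h7
    · obtain rfl : j = 1 := by omega
      exact hφ11
  simp only [zero_add] at h6
  rw [ev_ord0 b hφ1] at h6
  have h7 := congrArg eps h6
  simp only [map_add, map_mul, map_neg, eps_d0, eps_C, map_natCast, map_ofNat, mul_zero,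
    add_zero, zero_add, map_zero] at h7
  have hβ' : Polynomial.derivative (eps b) ≠ 0 := by
    rw [← eps_d0]
    intro h0
    apply hb'
    rw [← iota_eps (hb.d 0), h0, map_zero]
  have hβ0 : eps b ≠ 0 := by
    intro h0
    rw [h0] at hβ'
    simp at hβ'
  have hdeg : (eps b).natDegree ≠ 0 := by
    intro h0
    exact hβ' (Polynomial.derivative_eq_zero.2 h0)
  have h8 : Polynomial.derivative (eps b * eps (d 1 φ) +
      Polynomial.C (((m : ℝ) + 2) * γ) * Polynomial.derivative (eps b)) = 0 := by
    rw [Polynomial.derivative_add, Polynomial.derivative_mul, Polynomial.derivative_mul,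
      Polynomial.derivative_C, Polynomial.C_mul, Polynomial.C_add, Polynomial.C_eq_natCast,
      show (Polynomial.C 2 : Polynomial ℝ) = 2 by rw [map_ofNat]]
    linear_combination h7
  obtain ⟨c, hc'⟩ := Polynomial.natDegree_eq_zero.1 (Polynomial.derivative_eq_zero.1 h8)
  have hf : eps (d 1 φ) = 0 := by
    by_contra hne
    have h9 : (eps b * eps (d 1 φ)).natDegree = (eps b).natDegree + (eps (d 1 φ)).natDegree :=
      Polynomial.natDegree_mul hβ0 hne
    have h10 : (Polynomial.C (((m : ℝ) + 2) * γ) * Polynomial.derivative (eps b)).natDegree ≤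
        (eps b).natDegree - 1 :=
      (Polynomial.natDegree_C_mul_le _ _).trans (Polynomial.natDegree_derivative_le _)
    have h11 : (Polynomial.C (((m : ℝ) + 2) * γ) * Polynomial.derivative (eps b)).natDegree <
        (eps b * eps (d 1 φ)).natDegree := by omega
    have h12 := Polynomial.natDegree_add_eq_left_of_natDegree_lt h11
    rw [← hc', Polynomial.natDegree_C] at h12
    omega
  have hfin : Polynomial.derivative (Polynomial.derivative (eps b)) = 0 := by
    rw [hf, Polynomial.derivative_zero, zero_mul, mul_zero, add_zero] at h7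
    have h9 : (((m : Polynomial ℝ) + 2) * Polynomial.C γ) *
        Polynomial.derivative (Polynomial.derivative (eps b)) = 0 := by
      linear_combination h7
    refine (mul_eq_zero.1 h9).resolve_left (mul_ne_zero ?_ ?_)
    · have : ((m + 2 : ℕ) : Polynomial ℝ) ≠ 0 := by exact_mod_cast (by omega : m + 2 ≠ 0)
      push_cast at this
      exact this
    · rwa [Ne, Polynomial.C_eq_zero]
  rw [← iota_eps ((hb.d 0).d 0), eps_d0, eps_d0, hfin, map_zero]

/-- The classification of symmetries of order at most one. -/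
theorem low_main {h g : A} {m : ℕ} (hh : Ord 1 h) (hg : Ord (m + 2) g) (hg0 : d (m + 2) g ≠ 0)
    (hc : ev h g = ev g h) :
    (∃ a c : ℝ, h = C a * X 1 + C c) ∨
      ((∃ a κ c : ℝ, h = C a * X 1 + C κ * X 0 + C c) ∧ Lin g) := by
  obtain ⟨h11, h01⟩ := low_struct hh hg hg0 hc
  obtain ⟨a, ha⟩ : ∃ a : ℝ, d 1 h = C a := by
    refine ⟨_, eq_C_of_d ?_⟩
    intro j
    rcases Nat.lt_or_ge 1 j with hj | hj
    · exact hh.d 1 j hj
    · interval_cases j
      · exact h01
      · exact h11
  set b : A := h - C a * X 1 with hbdef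
  have hb : Ord 0 b := by
    intro j hj
    rw [hbdef, map_sub, d_mul]
    have hCa : d j (C a : A) = 0 := pderiv_C
    rcases Nat.lt_or_ge 1 j with h5 | h5
    · rw [hh j h5, pderiv_X_of_ne (by omega), hCa]; ring
    · obtain rfl : j = 1 := by omega
      rw [ha, pderiv_X_self, hCa]; ring
  have hcb : ev b g = ev g b := by
    have e1 : ev h g = ev b g + C a * D g := by
      have : h = b + C a * X 1 := by rw [hbdef]; ring
      rw [this, ev_add_left, ev_C_mul_left, ev_X1_left]
    have e2 : ev g b = ev g h - C a * D g := by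
      rw [hbdef, map_sub, ev_C_mul, ev_X1]
    rw [e2, ← hc, e1]; ring
  by_cases hb' : d 0 b = 0
  · left
    refine ⟨a, constantCoeff b, ?_⟩
    have h1 : b = C (constantCoeff b) := by
      apply eq_C_of_d
      intro j
      rcases Nat.eq_zero_or_pos j with rfl | hj
      · exact hb'
      · exact hb j hj
    rw [← h1, hbdef]; ring
  · right
    have h00 := second_zero hb hb' hg hg0 hcb
    obtain ⟨κ, hκ⟩ : ∃ κ : ℝ, d 0 b = C κ := by
      refine ⟨_, eq_C_of_d ?_⟩
      intro j
      rcases Nat.eq_zero_or_pos j with rfl | hj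
      · exact h00
      · exact hb.d 0 j hj
    obtain ⟨c, hcc⟩ : ∃ c : ℝ, b = C κ * X 0 + C c := by
      have h1 : b - C κ * X 0 = C (constantCoeff (b - C κ * X 0)) := by
        apply eq_C_of_d
        intro j
        have hCκ : d j (C κ : A) = 0 := pderiv_C
        rcases Nat.eq_zero_or_pos j with rfl | hj
        · rw [map_sub, d_mul, hκ, pderiv_X_self, hCκ]; ring
        · rw [map_sub, d_mul, hb j hj, pderiv_X_of_ne (by omega), hCκ]; ring
      exact ⟨_, by rw [← h1]; ring⟩
    refine ⟨⟨a, κ, c, ?_⟩, ?_⟩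
    · rw [add_assoc, ← hcc, hbdef]; ring
    · intro i
      apply eig0 hb hb'
      obtain ⟨n, hn⟩ := exists_ord g
      have hn' : Ord (n + i) g := hn.mono (by omega)
      have h1 := congrArg (d i) hcb
      rw [d_ev i b hn', ev_ord0 g hb, d_mul, hκ] at h1
      have hCκ : ∀ j, d j (C κ : A) = 0 := fun j => pderiv_C
      have hit : ∀ j, (⇑D)^[j + 1] b = C κ * X (j + 1) := by
        intro j
        induction j with
        | zero =>
          show D b = _
          rw [hcc, map_add, D_C_mul, D_X, D_C]; ring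
        | succ j ih => rw [iter_succ, ih, D_C_mul, D_X]
      have hdit : ∀ j, d i ((⇑D)^[j] b) = if i = j then C κ else 0 := by
        intro j
        cases j with
        | zero =>
          show d i b = _
          by_cases hi : i = 0
          · subst hi; rw [if_pos rfl, hκ]
          · rw [if_neg hi, hb i (by omega)]
        | succ j =>
          rw [hit, d_mul, hCκ]
          by_cases hi : i = j + 1
          · subst hi; rw [if_pos rfl, pderiv_X_self]; ring
          · rw [if_neg hi, pderiv_X_of_ne (Ne.symm hi)]; ring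
      have hsum : ∑ j ∈ Finset.range (n + i + 1), d j g * d i ((⇑D)^[j] b) = d i g * C κ := by
        rw [Finset.sum_eq_single i]
        · rw [hdit, if_pos rfl]
        · intro j _ hji
          rw [hdit, if_neg (Ne.symm hji), mul_zero]
        · intro hi
          exact absurd (Finset.mem_range.2 (by omega)) hi
      rw [hsum, hCκ] at h1
      linear_combination h1

end Pool.Agent.Helper90.Evo
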