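import Pool.Agent.Helper90.Evo.Eqs

/-!
# The separant of a second order `p` with a symmetry depends on `u_0` only (MP_ff793d_mp)
-/

set_option autoImplicit false

open MvPolynomial

namespace Pool.Agent.Helper90.Evo

theorem d1_D (f : A) : d 1 (D f) = D (d 1 f) + d 0 f := d_succ_D 0 f
theorem d2_D (f : A) : d 2 (D f) = D (d 2 f) + d 1 f := d_succ_D 1 f
theorem d3_D (f : A) : d 3 (D f) = D (d 3 f) + d 2 f := d_succ_D 2 f
theorem d4_D (f : A) : d 4 (D f) = D (d 4 f) + d 3 f := d_succ_D 3 f
theorem d5_D (f : A) : d 5 (D f) = D (d 5 f) + d 4 f := d_succ_D 4 f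

theorem d_ofNat (j m : ℕ) [m.AtLeastTwo] : d j (OfNat.ofNat m : A) = 0 := by
  have := (d j).map_natCast (OfNat.ofNat m)
  simpa using this

theorem D_ofNat (m : ℕ) [m.AtLeastTwo] : D (OfNat.ofNat m : A) = 0 := by
  have := D.map_natCast (OfNat.ofNat m)
  simpa using this

theorem d_two (j : ℕ) : d j (2 : A) = 0 := d_ofNat j 2
theorem d_three (j : ℕ) : d j (3 : A) = 0 := d_ofNat j 3
theorem d_four (j : ℕ) : d j (4 : A) = 0 := d_ofNat j 4
theorem d_six (j : ℕ) : d j (6 : A) = 0 := d_ofNat j 6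
theorem d_twelve (j : ℕ) : d j (12 : A) = 0 := d_ofNat j 12
theorem D_two : D (2 : A) = 0 := D_ofNat 2
theorem D_three : D (3 : A) = 0 := D_ofNat 3
theorem D_four : D (4 : A) = 0 := D_ofNat 4
theorem D_six : D (6 : A) = 0 := D_ofNat 6

theorem d_natCast (j m : ℕ) : d j (m : A) = 0 := (d j).map_natCast m
theorem D_natCast (m : ℕ) : D (m : A) = 0 := D.map_natCast m
theorem d_one (j : ℕ) : d j (1 : A) = 0 := (d j).map_one_eq_zero
theorem D_one : D (1 : A) = 0 := D.map_one_eq_zero

/-- partial derivatives are locally nilpotent -/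
theorem exists_iter_d (k : ℕ) (f : A) : ∃ n, (⇑(d k))^[n] f = 0 := by
  induction f using MvPolynomial.induction_on with
  | C a => exact ⟨1, by simp⟩
  | add p q hp hq =>
    obtain ⟨n, hn⟩ := hp
    obtain ⟨m, hm⟩ := hq
    refine ⟨n + m, ?_⟩
    have h1 : ∀ (N : ℕ) (f g : A), (⇑(d k))^[N] (f + g) = (⇑(d k))^[N] f + (⇑(d k))^[N] g := by
      intro N
      induction N with
      | zero => intro f g; rfl
      | succ N ih =>
        intro f g
        rw [Function.iterate_succ_apply, map_add, ih, Function.iterate_succ_apply,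
          Function.iterate_succ_apply]
    have h2 : ∀ N : ℕ, (⇑(d k))^[N] (0 : A) = 0 := fun N => iterate_map_zero (d k) N
    rw [h1, add_comm n m, Function.iterate_add_apply, hn, h2, add_comm m n,
      Function.iterate_add_apply, hm, h2, add_zero]
  | mul_X p i hp =>
    obtain ⟨n, hn⟩ := hp
    by_cases hi : i = k
    · subst hi
      have h1 : ∀ N : ℕ, (⇑(d i))^[N + 1] (p * X i) =
          (⇑(d i))^[N + 1] p * X i + ((N : A) + 1) * (⇑(d i))^[N] p := by
        intro N
        induction N with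
        | zero =>
          simp only [zero_add, Function.iterate_one, Nat.cast_zero, Function.iterate_zero, id]
          rw [d_mul, pderiv_X_self]
          ring
        | succ N ih =>
          rw [Function.iterate_succ_apply', ih, map_add, d_mul, d_mul, pderiv_X_self, map_add,
            d_natCast, d_one, ← Function.iterate_succ_apply' (⇑(d i)) N p,
            ← Function.iterate_succ_apply' (⇑(d i)) (N + 1) p]
          push_cast
          ring
      refine ⟨n + 1, ?_⟩
      rw [h1, Function.iterate_succ_apply', hn, map_zero]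
      ring
    · refine ⟨n, ?_⟩
      have h1 : ∀ N : ℕ, (⇑(d k))^[N] (p * X i) = (⇑(d k))^[N] p * X i := by
        intro N
        induction N with
        | zero => rfl
        | succ N ih =>
          rw [Function.iterate_succ_apply', ih, d_mul, pderiv_X_of_ne hi,
            ← Function.iterate_succ_apply' (⇑(d k)) N p]
          ring
      rw [h1, hn, zero_mul]

/-- `2 S S'' = 3 S'^2` has only constant polynomial solutions. -/
theorem lemma_N (k : ℕ) (S : A) (h : 2 * S * d k (d k S) = 3 * (d k S) ^ 2) : d k S = 0 := by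
  have key : ∀ m : ℕ, ∃ c : ℕ, c ≠ 0 ∧
      (2 : A) ^ m * S ^ m * (⇑(d k))^[m + 1] S = (c : A) * (d k S) ^ (m + 1) := by
    intro m
    induction m with
    | zero => exact ⟨1, one_ne_zero, by simp⟩
    | succ m ih =>
      obtain ⟨c, hc, ih⟩ := ih
      refine ⟨c * (m + 3), by positivity, ?_⟩
      have h1 := congrArg (d k) ih
      have e1 : d k ((2 : A) ^ m) = 0 := by
        rw [Derivation.leibniz_pow, d_ofNat]; simp
      have e2 : S * d k (S ^ m) = (m : A) * S ^ m * d k S := by
        rw [Derivation.leibniz_pow]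
        cases m with
        | zero => simp
        | succ m =>
          simp only [Nat.add_sub_cancel, nsmul_eq_mul, smul_eq_mul]
          ring
      have e3 : d k ((d k S) ^ (m + 1)) = ((m : A) + 1) * (d k S) ^ m * d k (d k S) := by
        rw [Derivation.leibniz_pow]
        simp only [Nat.add_sub_cancel, nsmul_eq_mul, smul_eq_mul]
        push_cast
        ring
      rw [d_mul, d_mul, e1, d_mul, d_natCast, e3,
        ← Function.iterate_succ_apply' (⇑(d k)) (m + 1) S] at h1
      push_cast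
      linear_combination 2 * S * h1 - 2 * (2 : A) ^ m * (⇑(d k))^[m + 1] S * e2
        - 2 * (m : A) * (d k S) * ih + (c : A) * ((m : A) + 1) * (d k S) ^ m * h
  obtain ⟨n, hn⟩ := exists_iter_d k S
  obtain ⟨c, hc, hk⟩ := key n
  rw [Function.iterate_succ_apply', hn, map_zero, mul_zero] at hk
  have h2 : (c : A) ≠ 0 := by exact_mod_cast hc
  have h3 := (mul_eq_zero.1 hk.symm).resolve_left h2
  exact pow_eq_zero_iff (by omega) |>.1 h3

/-- Logarithmic comparison. -/
theorem log_compare {c₁ c₂ S P : A} (hc₁ : D c₁ = 0) (hc₂ : D c₂ = 0) (hd₁ : ∀ j, d j c₁ = 0)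
    (hd₂ : ∀ j, d j c₂ = 0) (h2 : c₂ ≠ 0) (hS : S ≠ 0) (h : c₁ * P * D S = c₂ * S * D P) (i : ℕ) :
    c₁ * P * d i S = c₂ * S * d i P := by
  obtain ⟨k, hk⟩ := exists_ord S
  obtain ⟨l, hl⟩ := exists_ord P
  have key : ∀ m i, k + l < i + m → c₁ * P * d i S = c₂ * S * d i P := by
    intro m
    induction m with
    | zero =>
      intro i hi
      rw [hk i (by omega), hl i (by omega), mul_zero, mul_zero]
    | succ m ih =>
      intro i hi
      have h1 := ih (i + 1) (by omega)
      have h3 := congrArg (d (i + 1)) h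
      rw [d_mul, d_mul, d_mul, d_mul, hd₁, hd₂, d_succ_D, d_succ_D] at h3
      have h4 := congrArg D h1
      rw [D_mul, D_mul, D_mul, D_mul, hc₁, hc₂] at h4
      have h5 : c₂ * S * (d (i + 1) P * D S - d (i + 1) S * D P) = 0 := by
        linear_combination -(D S) * h1 + (d (i + 1) S) * h
      have h6 := (mul_eq_zero.1 h5).resolve_left (mul_ne_zero h2 hS)
      linear_combination h3 - h4 - (c₁ + c₂) * h6
  exact key (k + l + 1) i (by omega)

/-- Bounding the order of a solution of a first order linear equation. -/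
theorem ord_desc {a s : ℕ} {c S b T : A} (hd : ∀ j, d j c = 0) (hS : Ord s S) (hS0 : S ≠ 0)
    (hsa : s ≤ a) (hT : Ord (a + 1) T) (h : 2 * S * D b = c * b * D S + T) : Ord a b := by
  obtain ⟨N, hN⟩ := exists_ord b
  have key : ∀ m, ∀ j, a < j → N < j + m → d j b = 0 := by
    intro m
    induction m with
    | zero => intro j _ hj; exact hN j (by omega)
    | succ m ih =>
      intro j hja hj
      have h1 := congrArg (d (j + 1)) h
      rw [map_add, d_mul, d_mul, d_mul, d_mul, d_ofNat, d_succ_D, ih (j + 1) (by omega) (by omega),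
        hd, hS.D (j + 1) (by omega), hT (j + 1) (by omega), hS (j + 1) (by omega)] at h1
      have h2 : S * d j b = 0 := by
        have h3 : (2 : A) * (S * d j b) = 0 := by
          rw [map_zero] at h1
          linear_combination h1
        exact (mul_eq_zero.1 h3).resolve_left two_ne_zero
      exact (mul_eq_zero.1 h2).resolve_left hS0
  intro j hj
  exact key (N + 1) j hj (by omega)

section
variable {k : ℕ} {p q : A}

theorem nk (k : ℕ) : ((k : A) + 3) ≠ 0 := by
  have : ((k + 3 : ℕ) : A) ≠ 0 := by exact_mod_cast (by omega : k + 3 ≠ 0)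
  push_cast at this
  exact this

theorem d_nk (k j : ℕ) : d j ((k : A) + 3) = 0 := by
  rw [map_add, d_natCast, d_ofNat, add_zero]

theorem D_nk (k : ℕ) : D ((k : A) + 3) = 0 := by
  rw [map_add, D_natCast, D_ofNat, add_zero]

theorem rel_one (hp : Ord 2 p) (hS : d 2 p ≠ 0) (hq : Ord (k + 3) q) (h : ev p q = ev q p)
    (i : ℕ) : ((k : A) + 3) * d (k + 3) q * d i (d 2 p) = 2 * d 2 p * d i (d (k + 3) q) :=
  log_compare (D_nk k) (D_ofNat 2) (d_nk k) (fun j => d_ofNat j 2) two_ne_zero hS
    (eq_one hp hq h) i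

theorem ord_P (hp : Ord 2 p) (hS : d 2 p ≠ 0) (hq : Ord (k + 3) q) (h : ev p q = ev q p) :
    Ord 2 (d (k + 3) q) := by
  intro j hj
  have h1 := rel_one hp hS hq h j
  rw [(hp.d 2) j hj, mul_zero] at h1
  exact (mul_eq_zero.1 h1.symm).resolve_left (mul_ne_zero two_ne_zero hS)

theorem ord_b (hp : Ord 2 p) (hS : d 2 p ≠ 0) (hq : Ord (k + 3) q) (h : ev p q = ev q p) :
    Ord 3 (d (k + 2) q) := by
  have hP := ord_P hp hS hq h
  have h2 := eq_two hp hq h
  rw [ev_ord2 p hP] at h2
  have hc : ∀ j, d j (((k : A) + 2)) = 0 := fun j => by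
    rw [map_add, d_natCast, d_ofNat, add_zero]
  refine ord_desc (c := (k : A) + 2) (S := d 2 p) (s := 2)
    (T := d 0 (d (k + 3) q) * p + d 1 (d (k + 3) q) * D p + d 2 (d (k + 3) q) * D (D p) +
      d (k + 3) q * (((k : A) + 3) * D (d 1 p)) +
      d (k + 3) q * (C (1/2 : ℝ) * ((k : A) + 3) * ((k : A) + 2) * D (D (d 2 p))) -
      d 2 p * D (D (d (k + 3) q)) - d 1 p * D (d (k + 3) q)) hc (hp.d 2) hS (by omega) ?_ ?_
  · have hn : Ord 4 ((k : A) + 3) := fun j _ => d_nk k j
    have hn2 : Ord 4 ((k : A) + 2) := fun j _ => hc j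
    have a1 : Ord 4 (d 0 (d (k + 3) q)) := (hP.d 0).mono (by omega)
    have a2 : Ord 4 (d 1 (d (k + 3) q)) := (hP.d 1).mono (by omega)
    have a3 : Ord 4 (d 2 (d (k + 3) q)) := (hP.d 2).mono (by omega)
    have a4 : Ord 4 p := hp.mono (by omega)
    have a5 : Ord 4 (D p) := hp.D.mono (by omega)
    have a6 : Ord 4 (D (D p)) := hp.D.D
    have a7 : Ord 4 (d (k + 3) q) := hP.mono (by omega)
    have a8 : Ord 4 (D (d 1 p)) := (hp.d 1).D.mono (by omega)
    have a9 : Ord 4 (D (D (d 2 p))) := (hp.d 2).D.D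
    have a10 : Ord 4 (d 2 p) := (hp.d 2).mono (by omega)
    have a11 : Ord 4 (D (D (d (k + 3) q))) := hP.D.D
    have a12 : Ord 4 (d 1 p) := (hp.d 1).mono (by omega)
    have a13 : Ord 4 (D (d (k + 3) q)) := hP.D.mono (by omega)
    exact ((((((a1.mul a4).add (a2.mul a5)).add (a3.mul a6)).add (a7.mul (hn.mul a8))).add
      (a7.mul ((((ord_C _ _).mul hn).mul hn2).mul a9))).sub (a10.mul a11)).sub (a12.mul a13)
  · have hC : (C (1/2 : ℝ) : A) * 2 = 1 := by
      rw [show (2 : A) = C 2 by rw [map_ofNat], ← C_mul]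
      norm_num
    linear_combination (-C (1/2 : ℝ) : A) * h2 + (2 * d 2 p * D (d (k + 2) q) -
      ((k : A) + 2) * d (k + 2) q * D (d 2 p) - d 0 (d (k + 3) q) * p - d 1 (d (k + 3) q) * D p
      - d 2 (d (k + 3) q) * D (D p) - d (k + 3) q * (((k : A) + 3) * D (d 1 p)) +
      d 2 p * D (D (d (k + 3) q)) + d 1 p * D (d (k + 3) q)) * (-1 * hC)

end

end Pool.Agent.Helper90.Evo
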