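import Pool.Agent.Helper90.Evo.Sep

/-!
# The separant of a second order `p` with a symmetry depends on `u_0` only, second part
(MP_ff793d_mp)
-/

set_option autoImplicit false
set_option linter.unusedSimpArgs false

open MvPolynomial

namespace Pool.Agent.Helper90.Evo

variable {k : ℕ} {p q : A}

theorem sep2 (hp : Ord 2 p) (hS : d 2 p ≠ 0) (hq : Ord (k + 3) q) (hq0 : d (k + 3) q ≠ 0)
    (h : ev p q = ev q p) : d 2 (d 2 p) = 0 := by
  have hP := ord_P hp hS hq h
  have hb := ord_b hp hS hq h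
  have E := eq_two hp hq h
  have rel := rel_one hp hS hq h 2
  rw [ev_ord2 p hP] at E
  have hSo := hp.d 2
  have hro := hp.d 1
  have hk2 : ∀ j, d j ((k : A) + 2) = 0 := fun j => by
    rw [map_add, d_natCast, d_ofNat, add_zero]
  have hr2 : d 2 (d 1 p) = d 1 (d 2 p) := d_comm 2 1 p
  generalize hPdef : d (k + 3) q = P at *
  generalize hbdef : d (k + 2) q = b at *
  generalize hSdef : d 2 p = S at *
  generalize hrdef : d 1 p = r at *
  have p3 := hp 3 (by omega)
  have p4 := hp 4 (by omega)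
  have P3 := hP 3 (by omega)
  have P4 := hP 4 (by omega)
  have P03 := hP.d 0 3 (by omega)
  have P04 := hP.d 0 4 (by omega)
  have P13 := hP.d 1 3 (by omega)
  have P14 := hP.d 1 4 (by omega)
  have P23 := hP.d 2 3 (by omega)
  have P24 := hP.d 2 4 (by omega)
  have S3 := hSo 3 (by omega)
  have S4 := hSo 4 (by omega)
  have S13 := hSo.d 1 3 (by omega)
  have S23 := hSo.d 2 3 (by omega)
  have r3 := hro 3 (by omega)
  have r4 := hro 4 (by omega)
  have b4 := hb 4 (by omega)
  have E4 := congrArg (d 4) E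
  simp only [map_add, map_sub, d_mul, d_two, d_three, d_four, d_natCast, d_nk, hk2, d4_D, d3_D, p4, p3, P3, P4, P03, P04,
    P13, P14, P23, P24, S3, S4, r3, r4, b4, map_zero, mul_zero, zero_add, add_zero, hSdef,
    d_natCast] at E4
  have F4 : 4 * S * d 3 b = ((k : A) + 3) * ((k : A) + 2) * P * d 2 S := by
    linear_combination -E4
  have E3 := congrArg (d 3) E
  simp only [map_add, map_sub, d_mul, d_two, d_three, d_four, d_natCast, d_nk, hk2, d3_D, d2_D, p3, P3, P03,
    P13, P23, S3, r3, map_zero, mul_zero, zero_add, add_zero, hSdef, hrdef, hr2,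
    d_natCast] at E3
  -- the order of d 3 b
  have hb3 : d 3 (d 3 b) = 0 := by
    have G := congrArg (d 3) F4
    simp only [d_mul, d_two, d_three, d_four, d_natCast, d_nk, hk2, S3, P3, S23, mul_zero, add_zero] at G
    have : S * d 3 (d 3 b) = 0 := by
      have h3 : (4 : A) * (S * d 3 (d 3 b)) = 0 := by linear_combination G
      exact (mul_eq_zero.1 h3).resolve_left (by norm_num)
    exact (mul_eq_zero.1 this).resolve_left hS
  have hb32 : d 3 (d 2 b) = d 2 (d 3 b) := d_comm 3 2 b
  have S123 : d 3 (d 1 S) = 0 := S13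
  have E33 := congrArg (d 3) E3
  have P22o : d 3 (d 2 (d 2 P)) = 0 := ((hP.d 2).d 2) 3 (by omega)
  simp only [map_add, map_sub, d_mul, d_two, d_three, d_four, d_natCast, d_nk, hk2, d3_D, d2_D, p3, P3, P03,
    P13, P23, S3, r3, map_zero, mul_zero, zero_add, add_zero, hSdef, hrdef, hr2,
    d_natCast, hb3, hb32, S23, S123, b4] at E33
  have G2 := congrArg (d 2) rel
  simp only [d_mul, d_two, d_three, d_four, d_natCast, d_nk, mul_zero, add_zero] at G2
  have G3 := congrArg (d 2) F4
  simp only [d_mul, d_two, d_three, d_four, d_natCast, d_nk, hk2, mul_zero, add_zero] at G3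
  have hn := nk k
  have fin : ((k : A) + 3) * P * (2 * S * d 2 (d 2 S) - 3 * (d 2 S) ^ 2) = 0 := by
    linear_combination -S * E33 + 2 * S * G2 - 2 * S * G3 -
      (4 - ((k : A) + 3) ^ 2) * d 2 S * rel + (((k : A) + 3) + 1) * d 2 S * F4
  have h0 := (mul_eq_zero.1 fin).resolve_left (mul_ne_zero hn hq0)
  exact lemma_N 2 S (by linear_combination h0)

/-- consequences of `sep2` -/
theorem sep2' (hp : Ord 2 p) (hS : d 2 p ≠ 0) (hq : Ord (k + 3) q) (hq0 : d (k + 3) q ≠ 0)
    (h : ev p q = ev q p) : Ord 1 (d 2 p) ∧ Ord 1 (d (k + 3) q) ∧ Ord 2 (d (k + 2) q) := by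
  have h2 := sep2 hp hS hq hq0 h
  have hP := ord_P hp hS hq h
  have hb := ord_b hp hS hq h
  have hS1 : Ord 1 (d 2 p) := by
    intro j hj
    rcases Nat.lt_or_ge 2 j with h3 | h3
    · exact hp.d 2 j h3
    · obtain rfl : j = 2 := by omega
      exact h2
  have hP1 : Ord 1 (d (k + 3) q) := by
    intro j hj
    rcases Nat.lt_or_ge 2 j with h3 | h3
    · exact hP j h3
    · obtain rfl : j = 2 := by omega
      have rel := rel_one hp hS hq h 2
      rw [h2, mul_zero] at rel
      exact (mul_eq_zero.1 rel.symm).resolve_left (mul_ne_zero two_ne_zero hS)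
  refine ⟨hS1, hP1, ?_⟩
  intro j hj
  rcases Nat.lt_or_ge 3 j with h3 | h3
  · exact hb j h3
  · obtain rfl : j = 3 := by omega
    have E := eq_two hp hq h
    rw [ev_ord1 p hP1] at E
    have hk2 : ∀ j, d j ((k : A) + 2) = 0 := fun j => by
      rw [map_add, d_natCast, d_ofNat, add_zero]
    have p3 := hp 3 (by omega)
    have p4 := hp 4 (by omega)
    have hro := hp.d 1
    have r3 := hro 3 (by omega)
    have r4 := hro 4 (by omega)
    have S2 := hS1 2 (by omega)
    have S3 := hS1 3 (by omega)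
    have S4 := hS1 4 (by omega)
    have P2 := hP1 2 (by omega)
    have P3 := hP1 3 (by omega)
    have P4 := hP1 4 (by omega)
    have P04 := hP1.d 0 4 (by omega)
    have P14 := hP1.d 1 4 (by omega)
    have b4 := hb 4 (by omega)
    have E4 := congrArg (d 4) E
    simp only [map_add, map_sub, d_mul, d_two, d_three, d_four, d_natCast, d_nk, hk2, d4_D, d3_D, p4, p3, S2, S3, S4,
      r3, r4, P2, P3, P4, P04, P14, b4, map_zero, mul_zero, zero_add, add_zero] at E4
    have h5 : (4 * d 2 p) * d 3 (d (k + 2) q) = 0 := by linear_combination -E4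
    exact (mul_eq_zero.1 h5).resolve_left (mul_ne_zero (by norm_num) hS)

theorem sep3 (hp : Ord 2 p) (hS : d 2 p ≠ 0) (hq : Ord (k + 3) q) (hq0 : d (k + 3) q ≠ 0)
    (h : ev p q = ev q p) : d 1 (d 2 p) = 0 := by
  obtain ⟨hSo, hP, hb⟩ := sep2' hp hS hq hq0 h
  have E := eq_two hp hq h
  have rel := rel_one hp hS hq h 1
  rw [ev_ord1 p hP] at E
  have hro := hp.d 1
  have hk2 : ∀ j, d j ((k : A) + 2) = 0 := fun j => by
    rw [map_add, d_natCast, d_ofNat, add_zero]
  have hr2 : d 2 (d 1 p) = d 1 (d 2 p) := d_comm 2 1 p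
  generalize hPdef : d (k + 3) q = P at *
  generalize hbdef : d (k + 2) q = b at *
  generalize hSdef : d 2 p = S at *
  generalize hrdef : d 1 p = r at *
  have p3 := hp 3 (by omega)
  have P3 := hP 3 (by omega)
  have P2 := hP 2 (by omega)
  have P03 := hP.d 0 3 (by omega)
  have P02 := hP.d 0 2 (by omega)
  have P13 := hP.d 1 3 (by omega)
  have P12 := hP.d 1 2 (by omega)
  have S3 := hSo 3 (by omega)
  have S2 := hSo 2 (by omega)
  have S12 := hSo.d 1 2 (by omega)
  have S02 := hSo.d 0 2 (by omega)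
  have r3 := hro 3 (by omega)
  have b3 := hb 3 (by omega)
  have hn := nk k
  have E3 := congrArg (d 3) E
  simp only [map_add, map_sub, d_mul, d_two, d_three, d_four, d_natCast, d_nk, hk2, d3_D, d2_D, p3, P3, P2, P03, P02,
    P13, P12, S3, S2, r3, b3, map_zero, mul_zero, zero_add, add_zero, hSdef, hrdef, hr2] at E3
  have F3 : 4 * S * d 2 b = ((k : A) + 3) * ((k : A) + 4) * P * d 1 S := by
    linear_combination -E3
  have b22 : d 2 (d 2 b) = 0 := by
    have G := congrArg (d 2) F3
    have hk4 : d 2 ((k : A) + 4) = 0 := by rw [map_add, d_natCast, d_four, add_zero]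
    simp only [d_mul, d_two, d_three, d_four, d_natCast, d_nk, hk4, S2, P2, S12, mul_zero, add_zero] at G
    have : (4 * S) * d 2 (d 2 b) = 0 := by linear_combination G
    exact (mul_eq_zero.1 this).resolve_left (mul_ne_zero (by norm_num) hS)
  have hb21 : d 2 (d 1 b) = d 1 (d 2 b) := d_comm 2 1 b
  have hb20 : d 2 (d 0 b) = d 0 (d 2 b) := d_comm 2 0 b
  have hS10 : d 1 (d 0 S) = d 0 (d 1 S) := d_comm 1 0 S
  have hr21 : d 2 (d 1 r) = d 1 (d 1 S) := by rw [d_comm, hr2]
  have hp20 : d 2 (d 0 p) = d 0 S := by rw [← hSdef]; exact d_comm 2 0 p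
  have b212 : d 2 (d 1 (d 2 b)) = 0 := by rw [d_comm, b22, map_zero]
  have b202 : d 2 (d 0 (d 2 b)) = 0 := by rw [d_comm, b22, map_zero]
  have S112 : d 2 (d 1 (d 1 S)) = 0 := ((hSo.d 1).d 1) 2 (by omega)
  have P112 : d 2 (d 1 (d 1 P)) = 0 := ((hP.d 1).d 1) 2 (by omega)
  have P012 : d 2 (d 0 (d 1 P)) = 0 := ((hP.d 1).d 0) 2 (by omega)
  have P102 : d 2 (d 1 (d 0 P)) = 0 := ((hP.d 0).d 1) 2 (by omega)
  have S102 : d 2 (d 0 (d 1 S)) = 0 := ((hSo.d 1).d 0) 2 (by omega)
  have E2 := congrArg (d 2) E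
  simp only [map_add, map_sub, d_mul, d_two, d_three, d_four, d_natCast, d_nk, hk2, d2_D, d1_D, d_zero_D, P2, P02,
    P12, S2, S12, map_zero, mul_zero, zero_add, add_zero, hSdef, hrdef, hr2, b22] at E2
  have E22 := congrArg (d 2) E2
  simp only [map_add, map_sub, d_mul, d_two, d_three, d_four, d_natCast, d_nk, hk2, d2_D, d1_D, d_zero_D, P2, P02,
    P12, S2, S12, S02, map_zero, mul_zero, zero_add, add_zero, hSdef, hrdef, hr2, b22, hb21,
    hb20, hS10, hp20, b212, b202, S112, P112, P012, P102, S102, hr21] at E22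
  have G2 := congrArg (d 1) rel
  simp only [d_mul, d_two, d_three, d_four, d_natCast, d_nk, mul_zero, add_zero] at G2
  have G3 := congrArg (d 1) F3
  have hk4 : d 1 ((k : A) + 4) = 0 := by rw [map_add, d_natCast, d_four, add_zero]
  simp only [d_mul, d_two, d_three, d_four, d_natCast, d_nk, hk4, mul_zero, add_zero] at G3
  have fin : ((k : A) + 3) * P * (2 * S * d 1 (d 1 S) - 3 * (d 1 S) ^ 2) = 0 := by
    linear_combination -S * E22 + 2 * S * G2 - 2 * S * G3 -
      (2 - 2 * ((k : A) + 3) - ((k : A) + 3) ^ 2) * d 1 S * rel +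
      (((k : A) + 3) + 1) * d 1 S * F3
  have h0 := (mul_eq_zero.1 fin).resolve_left (mul_ne_zero hn hq0)
  exact lemma_N 1 S (by linear_combination h0)

end Pool.Agent.Helper90.Evo
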